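import Pool.Agent.Lib.MP_e81270_lc.Process

/-!
# The lower bound after all extension variables are eliminated
-/

set_option autoImplicit false

namespace Pool.Agent.MP_e81270_lc

variable {M n b L : ℕ}

/-- Some rows (those in `S`) are fixed and mapped to different holes; the other rows have at
least `q` free bits. -/
structure KState (G : (Fin b → Bool) → Fin n) (q : ℕ) (S : Finset (Fin M))
    (Z : Finset (Fin M × Fin b)) (z : Fin M × Fin b → Bool) : Prop where
  full : ∀ i ∈ S, ∀ β, (i, β) ∈ Z
  free : ∀ i, i ∉ S → q + (row Z i).card ≤ b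
  inj : ∀ i ∈ S, ∀ j ∈ S, i ≠ j → G (fun β => z (i, β)) ≠ G (fun β => z (j, β))

/-- All bits of a row. -/
def wholeRow (i : Fin M) : Finset (Fin M × Fin b) := Finset.univ.image (fun β => (i, β))

theorem mem_wholeRow {i : Fin M} {v : Fin M × Fin b} : v ∈ wholeRow i ↔ v.1 = i := by
  unfold wholeRow
  rw [Finset.mem_image]
  constructor
  · rintro ⟨β, _, rfl⟩; rfl
  · intro h
    refine ⟨v.2, Finset.mem_univ _, ?_⟩
    rw [← h]

/-- Replace row `i` by `y`. -/
def setRow (z : Fin M × Fin b → Bool) (i : Fin M) (y : Fin b → Bool) : Fin M × Fin b → Bool :=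
  fun v => if v.1 = i then y v.2 else z v

theorem setRow_self (z : Fin M × Fin b → Bool) (i : Fin M) (y : Fin b → Bool) (β : Fin b) :
    setRow z i y (i, β) = y β := by simp [setRow]

theorem setRow_ne (z : Fin M × Fin b → Bool) {i : Fin M} (y : Fin b → Bool)
    {v : Fin M × Fin b} (h : v.1 ≠ i) : setRow z i y v = z v := by simp [setRow, h]

theorem setRow_row_self (z : Fin M × Fin b → Bool) (i : Fin M) (y : Fin b → Bool) :
    (fun β => setRow z i y (i, β)) = y := by
  funext β; exact setRow_self z i y β

theorem setRow_row_ne (z : Fin M × Fin b → Bool) {i j : Fin M} (y : Fin b → Bool) (h : j ≠ i) :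
    (fun β => setRow z i y (j, β)) = (fun β => z (j, β)) := by
  funext β; exact setRow_ne z y h

theorem KState.assign {G : (Fin b → Bool) → Fin n} {q : ℕ} {S : Finset (Fin M)}
    {Z : Finset (Fin M × Fin b)} {z : Fin M × Fin b → Bool} (h : KState G q S Z z) {i : Fin M}
    (hi : i ∉ S) (y : Fin b → Bool) (hy : ∀ j ∈ S, G (fun β => z (j, β)) ≠ G y) :
    KState G q (insert i S) (Z ∪ wholeRow i) (setRow z i y) := by
  have hne : ∀ j ∈ S, j ≠ i := by
    rintro j hj rfl
    exact hi hj
  refine ⟨?_, ?_, ?_⟩
  · intro j hj β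
    rw [Finset.mem_insert] at hj
    rcases hj with rfl | hj
    · exact Finset.mem_union_right _ (mem_wholeRow.mpr rfl)
    · exact Finset.mem_union_left _ (h.full j hj β)
  · intro j hj
    rw [Finset.mem_insert, not_or] at hj
    have h1 : row (Z ∪ wholeRow i) j = row Z j := by
      ext β
      rw [mem_row, mem_row, Finset.mem_union, mem_wholeRow]
      constructor
      · rintro (h2 | h2)
        · exact h2
        · exact absurd h2 hj.1
      · exact Or.inl
    rw [h1]
    exact h.free j hj.2
  · intro j hj l hl hjl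
    rw [Finset.mem_insert] at hj hl
    rcases hj with rfl | hj
    · rcases hl with rfl | hl
      · exact absurd rfl hjl
      · rw [setRow_row_self, setRow_row_ne _ _ (hne l hl)]
        exact (hy l hl).symm
    · rcases hl with rfl | hl
      · rw [setRow_row_self, setRow_row_ne _ _ (hne j hj)]
        exact hy j hj
      · rw [setRow_row_ne _ _ (hne l hl), setRow_row_ne _ _ (hne j hj)]
        exact h.inj j hj l hl hjl

open scoped Classical in
/-- The rows outside `S` that the line `t` touches. -/
noncomputable def touched (Λ : Fin L → Set ((Fin M × Fin b) × Bool))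
    (S : Finset (Fin M)) (Z : Finset (Fin M × Fin b)) (t : Fin L) : Finset (Fin M) :=
  Finset.univ.filter (fun i => i ∉ S ∧ ∃ l ∈ Λ t, l.1 ∉ Z ∧ l.1.1 = i)

open scoped Classical in
/-- The lines that are not yet satisfied and touch at least `w` rows. -/
noncomputable def wide (H : Fin L → (Fin M × Fin b → Bool) → Prop)
    (Λ : Fin L → Set ((Fin M × Fin b) × Bool)) (w : ℕ)
    (S : Finset (Fin M)) (Z : Finset (Fin M × Fin b)) (z : Fin M × Fin b → Bool) :
    Finset (Fin L) :=
  Finset.univ.filter (fun t => (∃ x, (∀ v ∈ Z, x v = z v) ∧ ¬ H t x) ∧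
    w ≤ (touched Λ S Z t).card)

/-- The line `t` holds whenever the rows in `R ∪ S` are mapped to different holes. -/
def Works (H : Fin L → (Fin M × Fin b → Bool) → Prop) (G : (Fin b → Bool) → Fin n)
    (S : Finset (Fin M)) (Z : Finset (Fin M × Fin b)) (z : Fin M × Fin b → Bool)
    (R : Finset (Fin M)) (t : Fin L) : Prop :=
  ∀ x, (∀ v ∈ Z, x v = z v) → (∀ i ∈ R ∪ S, ∀ j ∈ R ∪ S, i ≠ j →
    G (fun β => x (i, β)) ≠ G (fun β => x (j, β))) → H t x

variable {G : (Fin b → Bool) → Fin n} {q : ℕ} {S : Finset (Fin M)}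
  {Z : Finset (Fin M × Fin b)} {z : Fin M × Fin b → Bool}
  {H : Fin L → (Fin M × Fin b → Bool) → Prop}
  {Λ : Fin L → Set ((Fin M × Fin b) × Bool)} {c : Fin L → Prop}

/-- A set of rows that is not too large can be mapped to different holes. -/
theorem KState.exists_inj (h : KState G q S Z z) (hG : Rich q G) (R : Finset (Fin M)) :
    Disjoint R S → R.card + S.card ≤ n → ∃ x : Fin M × Fin b → Bool, (∀ v ∈ Z, x v = z v) ∧
      ∀ i ∈ R ∪ S, ∀ j ∈ R ∪ S, i ≠ j → G (fun β => x (i, β)) ≠ G (fun β => x (j, β)) := by
  classical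
  induction R using Finset.induction_on with
  | empty =>
    intro _ _
    refine ⟨z, fun _ _ => rfl, ?_⟩
    simpa using h.inj
  | @insert i R hiR ih =>
    intro hd hcard
    rw [Finset.disjoint_insert_left] at hd
    rw [Finset.card_insert_of_notMem hiR] at hcard
    obtain ⟨x, hx1, hx2⟩ := ih hd.2 (by omega)
    obtain ⟨hole, hhole⟩ : ∃ hole : Fin n,
        hole ∉ (R ∪ S).image (fun j => G (fun β => x (j, β))) := by
      by_contra hcon
      push Not at hcon
      have h1 : (Finset.univ : Finset (Fin n)) ⊆ (R ∪ S).image (fun j => G (fun β => x (j, β))) :=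
        fun x _ => hcon x
      have h2 := (Finset.card_le_card h1).trans Finset.card_image_le
      have h3 := Finset.card_union_le R S
      simp at h2
      omega
    have hfree := h.free i hd.1
    obtain ⟨y, hy1, hy2, _⟩ := hG (Finset.univ \ row Z i) (by
      rw [Finset.card_sdiff_of_subset (Finset.subset_univ _)]
      simp
      omega) (fun β => z (i, β)) hole
    have hi' : i ∉ R ∪ S := by
      rw [Finset.mem_union, not_or]; exact ⟨hiR, hd.1⟩
    have hne : ∀ j ∈ R ∪ S, j ≠ i := by
      rintro j hj rfl
      exact hi' hj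
    refine ⟨setRow x i y, ?_, ?_⟩
    · intro v hv
      by_cases hvi : v.1 = i
      · obtain ⟨v1, v2⟩ := v
        simp only at hvi
        subst hvi
        rw [setRow_self]
        apply hy1
        simp [mem_row, hv]
      · rw [setRow_ne _ _ hvi]
        exact hx1 v hv
    · intro j hj l hl hjl
      rw [Finset.insert_union, Finset.mem_insert] at hj hl
      have hnew : ∀ j ∈ R ∪ S, G (fun β => x (j, β)) ≠ hole := by
        intro j hj hcon
        apply hhole
        rw [Finset.mem_image]
        exact ⟨j, hj, hcon⟩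
      rcases hj with rfl | hj
      · rcases hl with rfl | hl
        · exact absurd rfl hjl
        · rw [setRow_row_self, setRow_row_ne _ _ (hne l hl), hy2]
          exact (hnew l hl).symm
      · rcases hl with rfl | hl
        · rw [setRow_row_self, setRow_row_ne _ _ (hne j hj), hy2]
          exact hnew j hj
        · rw [setRow_row_ne _ _ (hne l hl), setRow_row_ne _ _ (hne j hj)]
          exact hx2 j hj l hl hjl

/-- There is a line, not yet satisfied, that touches many rows. -/
theorem KState.exists_wide (h : KState G q S Z z) (hG : Rich q G) (hM : M = n + 1)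
    (hrep : ∀ t x, (∀ v ∈ Z, x v = z v) → (H t x ↔ c t ∨ ∃ l ∈ Λ t, x l.1 = l.2))
    (hsound : ∀ t, (∃ i j, i ≠ j ∧ ∀ x, G (fun β => x (i, β)) ≠ G (fun β => x (j, β)) → H t x) ∨
      ∃ P : Finset (Fin L), P.card ≤ 2 ∧ (∀ s ∈ P, s < t) ∧ ∀ x, (∀ s ∈ P, H s x) → H t x)
    (hlast : ∃ t, ∀ x, ¬ H t x) (hp : S.card + 6 ≤ M) {w : ℕ} (hw : 3 * w ≤ M - S.card) :
    (wide H Λ w S Z z).Nonempty := by
  classical
  -- lines for which a small set of rows suffices
  let Small : Fin L → Prop := fun t => ∃ R : Finset (Fin M), Disjoint R S ∧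
    3 * R.card ≤ M - S.card ∧ Works H G S Z z R t
  obtain ⟨t₁, ht₁⟩ := hlast
  have hns : ¬ Small t₁ := by
    rintro ⟨R, hR1, hR2, hR3⟩
    obtain ⟨x, hx1, hx2⟩ := h.exists_inj hG R hR1 (by omega)
    exact ht₁ x (hR3 x hx1 hx2)
  -- the first line that is not small
  obtain ⟨t, ht, hmin⟩ : ∃ t, ¬ Small t ∧ ∀ s, s < t → Small s := by
    have hne : (Finset.univ.filter (fun t => ¬ Small t)).Nonempty :=
      ⟨t₁, by simpa using hns⟩
    refine ⟨(Finset.univ.filter (fun t => ¬ Small t)).min' hne, ?_, ?_⟩
    · have := Finset.min'_mem _ hne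
      simpa using this
    · intro s hs
      by_contra hcon
      have := Finset.min'_le (Finset.univ.filter (fun t => ¬ Small t)) s (by simpa using hcon)
      exact absurd this (not_le.mpr hs)
  -- some set of rows of size less than the number of free rows works for `t`
  have hwork : ∃ R : Finset (Fin M), Disjoint R S ∧ R.card + S.card ≤ n ∧
      Works H G S Z z R t := by
    rcases hsound t with ⟨i, j, hij, hax⟩ | ⟨P, hP1, hP2, hP3⟩
    · refine ⟨({i, j} : Finset (Fin M)) \ S, Finset.sdiff_disjoint, ?_, ?_⟩
      · have h1 : (({i, j} : Finset (Fin M)) \ S).card ≤ 2 :=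
          (Finset.card_le_card Finset.sdiff_subset).trans Finset.card_le_two
        omega
      · intro x _ hx
        refine hax x (hx i ?_ j ?_ hij)
        · rw [Finset.sdiff_union_self_eq_union]
          simp
        · rw [Finset.sdiff_union_self_eq_union]
          simp
    · have hex : ∀ s : Fin L, ∃ R : Finset (Fin M), s ∈ P → (Disjoint R S ∧
          3 * R.card ≤ M - S.card ∧ Works H G S Z z R s) := by
        intro s
        by_cases hs : s ∈ P
        · obtain ⟨R, hR⟩ := hmin s (hP2 s hs)
          exact ⟨R, fun _ => hR⟩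
        · exact ⟨∅, fun h => absurd h hs⟩
      choose R hR using hex
      refine ⟨P.biUnion R, ?_, ?_, ?_⟩
      · rw [Finset.disjoint_biUnion_left]
        intro s hs
        exact (hR s hs).1
      · have h1 : 3 * (P.biUnion R).card ≤ 2 * (M - S.card) := by
          calc 3 * (P.biUnion R).card ≤ 3 * ∑ s ∈ P, (R s).card :=
                Nat.mul_le_mul_left _ Finset.card_biUnion_le
            _ = ∑ s ∈ P, 3 * (R s).card := by rw [Finset.mul_sum]
            _ ≤ ∑ s ∈ P, (M - S.card) := Finset.sum_le_sum (fun s hs => (hR s hs).2.1)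
            _ = P.card * (M - S.card) := by rw [Finset.sum_const, smul_eq_mul]
            _ ≤ 2 * (M - S.card) := Nat.mul_le_mul_right _ hP1
        omega
      · intro x hx1 hx2
        refine hP3 x (fun s hs => (hR s hs).2.2 x hx1 ?_)
        intro i hi j hj hij
        have hsub : R s ∪ S ⊆ P.biUnion R ∪ S :=
          Finset.union_subset_union_left (Finset.subset_biUnion_of_mem R hs)
        exact hx2 i (hsub hi) j (hsub hj) hij
  obtain ⟨R₀, hR₀1, hR₀2, hR₀3⟩ := hwork
  -- a minimal such set
  obtain ⟨R, hRR₀, hRw, hRmin⟩ : ∃ R, R ⊆ R₀ ∧ Works H G S Z z R t ∧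
      ∀ i ∈ R, ¬ Works H G S Z z (R.erase i) t := by
    have hne : (R₀.powerset.filter (fun R => Works H G S Z z R t)).Nonempty :=
      ⟨R₀, by simp [hR₀3]⟩
    obtain ⟨R, hR, hRm⟩ := Finset.exists_min_image _ Finset.card hne
    rw [Finset.mem_filter, Finset.mem_powerset] at hR
    refine ⟨R, hR.1, hR.2, ?_⟩
    intro i hi hcon
    have h1 := hRm (R.erase i) (by
      rw [Finset.mem_filter, Finset.mem_powerset]
      exact ⟨(Finset.erase_subset _ _).trans hR.1, hcon⟩)
    have h2 := Finset.card_erase_lt_of_mem hi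
    omega
  have hRd : Disjoint R S := Finset.disjoint_of_subset_left hRR₀ hR₀1
  have hRc : R.card + S.card ≤ n := by
    have := Finset.card_le_card hRR₀
    omega
  have hRbig : M - S.card < 3 * R.card := by
    by_contra hcon
    exact ht ⟨R, hRd, by omega, hRw⟩
  have htouch : R ⊆ touched Λ S Z t := by
    intro i hi
    unfold touched
    rw [Finset.mem_filter]
    have hiS : i ∉ S := Finset.disjoint_left.mp hRd hi
    refine ⟨Finset.mem_univ _, hiS, ?_⟩
    by_contra hcon
    have hnw := hRmin i hi
    unfold Works at hnw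
    push Not at hnw
    obtain ⟨x, hx1, hx2, hx3⟩ := hnw
    obtain ⟨hole, hhole⟩ : ∃ hole : Fin n,
        hole ∉ ((R.erase i) ∪ S).image (fun j => G (fun β => x (j, β))) := by
      by_contra hcon
      push Not at hcon
      have h1 : (Finset.univ : Finset (Fin n)) ⊆
          ((R.erase i) ∪ S).image (fun j => G (fun β => x (j, β))) := fun x _ => hcon x
      have h2 := (Finset.card_le_card h1).trans Finset.card_image_le
      have h3 := Finset.card_union_le (R.erase i) S
      have h4 := Finset.card_erase_add_one hi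
      simp at h2
      omega
    have hfree := h.free i hiS
    obtain ⟨y, hy1, hy2, _⟩ := hG (Finset.univ \ row Z i) (by
      rw [Finset.card_sdiff_of_subset (Finset.subset_univ _)]
      simp
      omega) (fun β => z (i, β)) hole
    have hx' : ∀ v ∈ Z, setRow x i y v = x v := by
      intro v hv
      by_cases hvi : v.1 = i
      · obtain ⟨v1, v2⟩ := v
        simp only at hvi
        subst hvi
        rw [setRow_self, hx1 _ hv]
        apply hy1
        simp [mem_row, hv]
      · rw [setRow_ne _ _ hvi]
    have hx'z : ∀ v ∈ Z, setRow x i y v = z v := fun v hv => by rw [hx' v hv, hx1 v hv]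
    apply hx3
    have h5 : H t (setRow x i y) := by
      apply hRw _ hx'z
      have hi' : i ∉ (R.erase i) ∪ S := by
        rw [Finset.mem_union, not_or]; exact ⟨Finset.notMem_erase _ _, hiS⟩
      have hne : ∀ j ∈ (R.erase i) ∪ S, j ≠ i := by
        rintro j hj rfl
        exact hi' hj
      have hins : R ∪ S = insert i ((R.erase i) ∪ S) := by
        rw [← Finset.insert_union, Finset.insert_erase hi]
      intro j hj l hl hjl
      rw [hins, Finset.mem_insert] at hj hl
      have hnew : ∀ j ∈ (R.erase i) ∪ S, G (fun β => x (j, β)) ≠ hole := by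
        intro j hj hcon
        apply hhole
        rw [Finset.mem_image]
        exact ⟨j, hj, hcon⟩
      rcases hj with rfl | hj
      · rcases hl with rfl | hl
        · exact absurd rfl hjl
        · rw [setRow_row_self, setRow_row_ne _ _ (hne l hl), hy2]
          exact (hnew l hl).symm
      · rcases hl with rfl | hl
        · rw [setRow_row_self, setRow_row_ne _ _ (hne j hj), hy2]
          exact hnew j hj
        · rw [setRow_row_ne _ _ (hne l hl), setRow_row_ne _ _ (hne j hj)]
          exact hx2 j hj l hl hjl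
    rw [hrep t _ hx'z] at h5
    rw [hrep t x hx1]
    rcases h5 with h5 | ⟨l, hl, h6⟩
    · exact Or.inl h5
    · right
      refine ⟨l, hl, ?_⟩
      rw [← h6]
      by_cases hlZ : l.1 ∈ Z
      · exact (hx' _ hlZ).symm
      · rw [setRow_ne]
        intro hli
        exact hcon ⟨l, hl, hlZ, hli⟩
  refine ⟨t, ?_⟩
  unfold wide
  rw [Finset.mem_filter]
  refine ⟨Finset.mem_univ _, ?_, ?_⟩
  · have hRne : R.Nonempty := by
      rw [← Finset.card_pos]
      omega
    obtain ⟨i, hi⟩ := hRne
    have hnw := hRmin i hi
    unfold Works at hnw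
    push Not at hnw
    obtain ⟨x, hx1, _, hx3⟩ := hnw
    exact ⟨x, hx1, hx3⟩
  · have := Finset.card_le_card htouch
    omega

end Pool.Agent.MP_e81270_lc
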