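import Mathlib

/-!
# Extended resolution: clauses, extension definitions, refutations

The definitions used by the statement.  A formula is a list of clauses over a type `V` of
variables.  A refutation may use `k` extension variables; all variables together are the
elements of `V ⊕ Fin k`.
-/

set_option autoImplicit false

namespace Pool.Agent.MP_e81270_lc

/-- A clause over the variables `W`: a list of literals.  The literal `(w, s)` is satisfied by
the assignments that give the variable `w` the value `s`. -/
abbrev Clause (W : Type) := List (W × Bool)

/-- The assignment `a` satisfies the clause `C`: it satisfies one of the literals of `C`. -/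
def Sat {W : Type} (a : W → Bool) (C : Clause W) : Prop := ∃ l ∈ C, a l.1 = l.2

/-- A formula in conjunctive normal form: a list of clauses. -/
abbrev CNF (V : Type) := List (Clause V)

/-- No assignment satisfies all clauses of the formula `F`. -/
def Unsat {V : Type} (F : CNF V) : Prop := ∀ a : V → Bool, ∃ C ∈ F, ¬ Sat a C

/-- Definitions of `k` extension variables over the variables `V`: the extension variable `j`
is defined as `fn j u w`, where `fn j` is a binary Boolean connective and each of the arguments
`u = arg₁ j` and `w = arg₂ j` is a variable in `V` or an extension variable defined earlier. -/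
structure ExtDefs (V : Type) (k : ℕ) where
  fn : Fin k → Bool → Bool → Bool
  arg₁ : Fin k → V ⊕ Fin k
  arg₂ : Fin k → V ⊕ Fin k
  earlier₁ : ∀ j i, arg₁ j = Sum.inr i → i < j
  earlier₂ : ∀ j i, arg₂ j = Sum.inr i → i < j

/-- The assignment `a` obeys all the definitions. -/
def ExtDefs.Obeyed {V : Type} {k : ℕ} (D : ExtDefs V k) (a : V ⊕ Fin k → Bool) : Prop :=
  ∀ j, a (Sum.inr j) = D.fn j (a (D.arg₁ j)) (a (D.arg₂ j))

/-- The connective `f` is exclusive or, or its negation: its value flips whenever one of its
two arguments flips. -/
def IsXor (f : Bool → Bool → Bool) : Prop :=
  ∀ x y, f (!x) y = !(f x y) ∧ f x (!y) = !(f x y)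

instance : DecidablePred IsXor := fun f => by unfold IsXor; infer_instance

/-- The cost of a connective: `3` for exclusive or and its negation, and `1` for every other
binary connective (such as `x ∧ y`, `x ∨ y`, `x → y`). -/
def fnCost (f : Bool → Bool → Bool) : ℕ := if IsXor f then 3 else 1

/-- The extension variables in `I` are defined from the variables in `J` only: the arguments of
their definitions are variables in `J` or extension variables in `I`. -/
def ExtDefs.DefinedFrom {V : Type} {k : ℕ} (D : ExtDefs V k) (J : Finset V)
    (I : Finset (Fin k)) : Prop :=
  ∀ j ∈ I, (∀ v, (D.arg₁ j = Sum.inl v ∨ D.arg₂ j = Sum.inl v) → v ∈ J) ∧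
    ∀ i, (D.arg₁ j = Sum.inr i ∨ D.arg₂ j = Sum.inr i) → i ∈ I

/-- The total cost of the definitions of the extension variables outside `I`. -/
def ExtDefs.costOutside {V : Type} {k : ℕ} (D : ExtDefs V k) (I : Finset (Fin k)) : ℕ :=
  ∑ j ∈ Finset.univ \ I, fnCost (D.fn j)

/-- A refutation of `F` with `k` extension variables and `L` lines.  Each line is a clause over
the variables of `F` and the extension variables.  Each line is a clause of `F`, or it follows
from at most two earlier lines: every assignment that obeys the definitions of the extension
variables and satisfies these earlier lines also satisfies the line.  One of the lines is the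
empty clause.  (Every extended resolution refutation has this form: its lines are clauses of
`F`, clauses implied by the definition of an extension variable, and clauses obtained from two
earlier lines by resolution, or from one earlier line by weakening.) -/
structure Refutation {V : Type} (F : CNF V) (k L : ℕ) where
  defs : ExtDefs V k
  line : Fin L → Clause (V ⊕ Fin k)
  sound : ∀ t, (∃ C ∈ F, line t = C.map (fun l => (Sum.inl l.1, l.2))) ∨
    ∃ P : Finset (Fin L), P.card ≤ 2 ∧ (∀ s ∈ P, s < t) ∧
      ∀ a, defs.Obeyed a → (∀ s ∈ P, Sat a (line s)) → Sat a (line t)
  last : ∃ t, line t = []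

end Pool.Agent.MP_e81270_lc
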