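import Pool.Agent.Lib.MP_e81270_lc.Defs

/-!
# Gate elimination

One step of the elimination of the extension variables by fixing formula variables.
-/

set_option autoImplicit false

namespace Pool.Agent.MP_e81270_lc

variable {V : Type} [DecidableEq V] {k : ℕ}

/-- A constant or a signed variable. -/
abbrev Atom (V : Type) (k : ℕ) := Bool × Option (V ⊕ Fin k)

/-- The value of an atom. -/
def ev (A : Atom V k) (a : V ⊕ Fin k → Bool) : Bool := xor A.1 (A.2.elim false a)

/-- Substitute the atom `α` for the variable `u`. -/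
def sub (u : V ⊕ Fin k) (α A : Atom V k) : Atom V k :=
  if A.2 = some u then (xor A.1 α.1, α.2) else A

omit [DecidableEq V] in
theorem ev_none {A : Atom V k} (h : A.2 = none) (a : V ⊕ Fin k → Bool) : ev A a = A.1 := by
  unfold ev; rw [h]; simp

omit [DecidableEq V] in
theorem ev_some {A : Atom V k} {u : V ⊕ Fin k} (h : A.2 = some u) (a : V ⊕ Fin k → Bool) :
    ev A a = xor A.1 (a u) := by
  unfold ev; rw [h]; simp

theorem ev_sub {u : V ⊕ Fin k} {α : Atom V k} {a : V ⊕ Fin k → Bool} (h : a u = ev α a)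
    (A : Atom V k) : ev (sub u α A) a = ev A a := by
  unfold sub
  split_ifs with hA
  · rw [ev_some hA, h]
    unfold ev
    simp
  · rfl

theorem sub_none {u : V ⊕ Fin k} {α A : Atom V k} (h : A.2 = none) : sub u α A = A := by
  unfold sub
  rw [if_neg]
  rw [h]; simp

theorem sub_of_ne {u : V ⊕ Fin k} {α A : Atom V k} (h : A.2 ≠ some u) : sub u α A = A := by
  unfold sub
  rw [if_neg h]

theorem sub_of_eq {u : V ⊕ Fin k} {α A : Atom V k} (h : A.2 = some u) :
    (sub u α A).2 = α.2 := by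
  unfold sub
  rw [if_pos h]

/-- A presentation, valid on the set `X` of assignments, of the extension variables by the
gates in `B` and the variables in `T`. -/
structure Cert (D : ExtDefs V k) (X : Set (V ⊕ Fin k → Bool)) (T : Finset V)
    (B : Finset (Fin k)) (p q r : Fin k → Atom V k) : Prop where
  gate : ∀ i ∈ B, ∀ a ∈ X, a (Sum.inr i) = D.fn i (ev (p i) a) (ev (q i) a)
  pT : ∀ i ∈ B, ∀ v, (p i).2 = some (Sum.inl v) → v ∈ T
  qT : ∀ i ∈ B, ∀ v, (q i).2 = some (Sum.inl v) → v ∈ T
  pB : ∀ i ∈ B, ∀ j, (p i).2 = some (Sum.inr j) → j ∈ B ∧ j < i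
  qB : ∀ i ∈ B, ∀ j, (q i).2 = some (Sum.inr j) → j ∈ B ∧ j < i
  rep : ∀ i, ∀ a ∈ X, a (Sum.inr i) = ev (r i) a
  rB : ∀ i j, (r i).2 = some (Sum.inr j) → j ∈ B

section

variable {D : ExtDefs V k} {X : Set (V ⊕ Fin k → Bool)} {T : Finset V}
  {B : Finset (Fin k)} {p q r : Fin k → Atom V k}

theorem Cert.shrink (h : Cert D X T B p q r) (x : V)
    (hp : ∀ i ∈ B, (p i).2 ≠ some (Sum.inl x)) (hq : ∀ i ∈ B, (q i).2 ≠ some (Sum.inl x)) :
    Cert D X (T.erase x) B p q r where
  gate := h.gate
  pT := fun i hi v hv => by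
    rw [Finset.mem_erase]
    refine ⟨?_, h.pT i hi v hv⟩
    rintro rfl
    exact hp i hi hv
  qT := fun i hi v hv => by
    rw [Finset.mem_erase]
    refine ⟨?_, h.qT i hi v hv⟩
    rintro rfl
    exact hq i hi hv
  pB := h.pB
  qB := h.qB
  rep := h.rep
  rB := h.rB

omit [DecidableEq V] in
theorem Cert.mono (h : Cert D X T B p q r) {X' : Set (V ⊕ Fin k → Bool)} (hX : X' ⊆ X) :
    Cert D X' T B p q r where
  gate := fun i hi a ha => h.gate i hi a (hX ha)
  pT := h.pT
  qT := h.qT
  pB := h.pB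
  qB := h.qB
  rep := fun i a ha => h.rep i a (hX ha)
  rB := h.rB

/-- Fixing a formula variable. -/
theorem Cert.fix (h : Cert D X T B p q r) (x : V) (c : Bool)
    {X' : Set (V ⊕ Fin k → Bool)} (hX : X' ⊆ X) (hx : ∀ a ∈ X', a (Sum.inl x) = c) :
    Cert D X' (T.erase x) B (fun i => sub (Sum.inl x) (c, none) (p i))
      (fun i => sub (Sum.inl x) (c, none) (q i)) (fun i => sub (Sum.inl x) (c, none) (r i)) := by
  have hev : ∀ a ∈ X', ∀ A : Atom V k, ev (sub (Sum.inl x) (c, none) A) a = ev A a := by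
    intro a ha A
    apply ev_sub
    rw [hx a ha]
    simp [ev]
  have hcases : ∀ (A : Atom V k) (u : V ⊕ Fin k),
      (sub (Sum.inl x) (c, none) A).2 = some u → A.2 = some u ∧ u ≠ Sum.inl x := by
    intro A u hu
    by_cases hA : A.2 = some (Sum.inl x)
    · rw [sub_of_eq hA] at hu
      simp at hu
    · rw [sub_of_ne hA] at hu
      refine ⟨hu, ?_⟩
      rintro rfl
      exact hA hu
  constructor
  · intro i hi a ha
    rw [hev a ha, hev a ha]
    exact h.gate i hi a (hX ha)
  · intro i hi v hv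
    obtain ⟨h1, h2⟩ := hcases _ _ hv
    rw [Finset.mem_erase]
    refine ⟨?_, h.pT i hi v h1⟩
    rintro rfl
    exact h2 rfl
  · intro i hi v hv
    obtain ⟨h1, h2⟩ := hcases _ _ hv
    rw [Finset.mem_erase]
    refine ⟨?_, h.qT i hi v h1⟩
    rintro rfl
    exact h2 rfl
  · intro i hi j hj
    exact h.pB i hi j (hcases _ _ hj).1
  · intro i hi j hj
    exact h.qB i hi j (hcases _ _ hj).1
  · intro i a ha
    rw [hev a ha]
    exact h.rep i a (hX ha)
  · intro i j hj
    exact h.rB i j (hcases _ _ hj).1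

/-- Removing a gate that equals an atom over the earlier gates. -/
theorem Cert.remove (h : Cert D X T B p q r) {i : Fin k} (hi : i ∈ B) (α : Atom V k)
    (hα : ∀ a ∈ X, a (Sum.inr i) = ev α a)
    (hαB : ∀ j, α.2 = some (Sum.inr j) → j ∈ B ∧ j < i)
    (hp : ∀ j ∈ B.erase i, (p j).2 = some (Sum.inr i) → ∀ v, α.2 = some (Sum.inl v) → v ∈ T)
    (hq : ∀ j ∈ B.erase i, (q j).2 = some (Sum.inr i) → ∀ v, α.2 = some (Sum.inl v) → v ∈ T) :
    Cert D X T (B.erase i) (fun j => sub (Sum.inr i) α (p j))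
      (fun j => sub (Sum.inr i) α (q j)) (fun j => sub (Sum.inr i) α (r j)) := by
  have hev : ∀ a ∈ X, ∀ A : Atom V k, ev (sub (Sum.inr i) α A) a = ev A a := by
    intro a ha A
    exact ev_sub (hα a ha) A
  constructor
  · intro j hj a ha
    rw [hev a ha, hev a ha]
    exact h.gate j (Finset.mem_of_mem_erase hj) a ha
  · intro j hj v hv
    by_cases hA : (p j).2 = some (Sum.inr i)
    · rw [sub_of_eq hA] at hv
      exact hp j hj hA v hv
    · rw [sub_of_ne hA] at hv
      exact h.pT j (Finset.mem_of_mem_erase hj) v hv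
  · intro j hj v hv
    by_cases hA : (q j).2 = some (Sum.inr i)
    · rw [sub_of_eq hA] at hv
      exact hq j hj hA v hv
    · rw [sub_of_ne hA] at hv
      exact h.qT j (Finset.mem_of_mem_erase hj) v hv
  · intro j hj l hl
    by_cases hA : (p j).2 = some (Sum.inr i)
    · rw [sub_of_eq hA] at hl
      obtain ⟨h1, h2⟩ := hαB l hl
      obtain ⟨h3, h4⟩ := h.pB j (Finset.mem_of_mem_erase hj) i hA
      exact ⟨Finset.mem_erase.mpr ⟨h2.ne, h1⟩, h2.trans h4⟩
    · rw [sub_of_ne hA] at hl
      obtain ⟨h3, h4⟩ := h.pB j (Finset.mem_of_mem_erase hj) l hl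
      refine ⟨Finset.mem_erase.mpr ⟨?_, h3⟩, h4⟩
      rintro rfl
      exact hA hl
  · intro j hj l hl
    by_cases hA : (q j).2 = some (Sum.inr i)
    · rw [sub_of_eq hA] at hl
      obtain ⟨h1, h2⟩ := hαB l hl
      obtain ⟨h3, h4⟩ := h.qB j (Finset.mem_of_mem_erase hj) i hA
      exact ⟨Finset.mem_erase.mpr ⟨h2.ne, h1⟩, h2.trans h4⟩
    · rw [sub_of_ne hA] at hl
      obtain ⟨h3, h4⟩ := h.qB j (Finset.mem_of_mem_erase hj) l hl
      refine ⟨Finset.mem_erase.mpr ⟨?_, h3⟩, h4⟩
      rintro rfl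
      exact hA hl
  · intro j a ha
    rw [hev a ha]
    exact h.rep j a ha
  · intro j l hl
    by_cases hA : (r j).2 = some (Sum.inr i)
    · rw [sub_of_eq hA] at hl
      obtain ⟨h1, h2⟩ := hαB l hl
      exact Finset.mem_erase.mpr ⟨h2.ne, h1⟩
    · rw [sub_of_ne hA] at hl
      refine Finset.mem_erase.mpr ⟨?_, h.rB j l hl⟩
      rintro rfl
      exact hA hl

theorem unary_cases (g : Bool → Bool) : ∃ s : Bool, (∀ b, g b = s) ∨ (∀ b, g b = xor s b) := by
  revert g; decide

/-- A gate with a constant input can be removed. -/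
theorem Cert.removeConst (h : Cert D X T B p q r) {i : Fin k} (hi : i ∈ B)
    (hc : (p i).2 = none ∨ (q i).2 = none) :
    ∃ α : Atom V k, (∀ u, α.2 = some u → (p i).2 = some u ∨ (q i).2 = some u) ∧
      Cert D X T (B.erase i) (fun j => sub (Sum.inr i) α (p j))
      (fun j => sub (Sum.inr i) α (q j)) (fun j => sub (Sum.inr i) α (r j)) := by
  have key : ∃ α : Atom V k, (∀ u, α.2 = some u → (p i).2 = some u ∨ (q i).2 = some u) ∧
      (∀ a ∈ X, a (Sum.inr i) = ev α a) := by
    rcases hc with hc | hc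
    · obtain ⟨s, hs | hs⟩ := unary_cases (D.fn i (p i).1)
      · refine ⟨(s, none), by simp, ?_⟩
        intro a ha
        rw [h.gate i hi a ha, ev_none hc, hs]
        simp [ev]
      · refine ⟨(xor s (q i).1, (q i).2), fun u hu => Or.inr hu, ?_⟩
        intro a ha
        rw [h.gate i hi a ha, ev_none hc, hs]
        simp [ev]
    · obtain ⟨s, hs | hs⟩ := unary_cases (fun b => D.fn i b (q i).1)
      · refine ⟨(s, none), by simp, ?_⟩
        intro a ha
        rw [h.gate i hi a ha, ev_none hc]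
        rw [show D.fn i (ev (p i) a) (q i).1 = s from hs _]
        simp [ev]
      · refine ⟨(xor s (p i).1, (p i).2), fun u hu => Or.inl hu, ?_⟩
        intro a ha
        rw [h.gate i hi a ha, ev_none hc]
        rw [show D.fn i (ev (p i) a) (q i).1 = xor s (ev (p i) a) from hs _]
        simp [ev]
  obtain ⟨α, h1, h2⟩ := key
  refine ⟨α, h1, h.remove hi α h2 ?_ ?_ ?_⟩
  · intro j hj
    rcases h1 _ hj with h3 | h3
    · exact h.pB i hi j h3
    · exact h.qB i hi j h3
  · intro _ _ _ v hv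
    rcases h1 _ hv with h3 | h3
    · exact h.pT i hi v h3
    · exact h.qT i hi v h3
  · intro _ _ _ v hv
    rcases h1 _ hv with h3 | h3
    · exact h.pT i hi v h3
    · exact h.qT i hi v h3

/-- Several gates with constant inputs can be removed. -/
theorem Cert.removeMany {D : ExtDefs V k} {X : Set (V ⊕ Fin k → Bool)} {T : Finset V}
    (E : Finset (Fin k)) : ∀ {B : Finset (Fin k)} {p q r : Fin k → Atom V k},
    Cert D X T B p q r → E ⊆ B → (∀ i ∈ E, (p i).2 = none ∨ (q i).2 = none) →
    ∃ p' q' r', Cert D X T (B \ E) p' q' r' := by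
  induction E using Finset.induction_on with
  | empty =>
    intro B p q r h _ _
    exact ⟨p, q, r, by simpa using h⟩
  | @insert i E hiE ih =>
    intro B p q r h hE hc
    obtain ⟨α, _, h2⟩ := h.removeConst (hE (Finset.mem_insert_self i E))
      (hc i (Finset.mem_insert_self i E))
    have hE' : E ⊆ B.erase i := by
      intro j hj
      rw [Finset.mem_erase]
      refine ⟨?_, hE (Finset.mem_insert_of_mem hj)⟩
      rintro rfl
      exact hiE hj
    obtain ⟨p', q', r', h3⟩ := ih h2 hE' (by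
      intro j hj
      rcases hc j (Finset.mem_insert_of_mem hj) with h4 | h4
      · left
        show (sub (Sum.inr i) α (p j)).2 = none
        rw [sub_none h4, h4]
      · right
        show (sub (Sum.inr i) α (q j)).2 = none
        rw [sub_none h4, h4])
    refine ⟨p', q', r', ?_⟩
    rw [Finset.sdiff_insert, Finset.erase_sdiff_comm] at *
    exact h3

end

end Pool.Agent.MP_e81270_lc
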