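import Pool.Agent.Lib.MP_e81270_lc.Process

/-!
# Existence of rich maps, by counting
-/

set_option autoImplicit false

namespace Pool.Agent.MP_e81270_lc

variable {n b : ℕ}

theorem flip_flip (I : Finset (Fin b)) (y : Fin b → Bool) : flip I (flip I y) = y := by
  funext β
  unfold flip
  by_cases h : β ∈ I <;> simp [h]

/-- The points of the subcube with bit `i₀` equal to `e`. -/
def half (I : Finset (Fin b)) (i₀ : Fin b) (e : Bool) (z : Fin b → Bool) :
    Finset (Fin b → Bool) :=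
  Fintype.piFinset (fun β => if β = i₀ then {e} else if β ∈ I then Finset.univ else {z β})

theorem mem_half {I : Finset (Fin b)} {i₀ : Fin b} (hi₀ : i₀ ∈ I) {e : Bool}
    {z y : Fin b → Bool} :
    y ∈ half I i₀ e z ↔ (∀ β, β ∉ I → y β = z β) ∧ y i₀ = e := by
  unfold half
  rw [Fintype.mem_piFinset]
  constructor
  · intro h
    constructor
    · intro β hβ
      have := h β
      rw [if_neg (by rintro rfl; exact hβ hi₀), if_neg hβ] at this
      simpa using this
    · simpa using h i₀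
  · rintro ⟨h1, h2⟩ β
    by_cases hβ : β = i₀
    · rw [if_pos hβ, hβ, h2]; simp
    · rw [if_neg hβ]
      by_cases hI : β ∈ I
      · rw [if_pos hI]; simp
      · rw [if_neg hI, h1 β hI]; simp

theorem card_half {I : Finset (Fin b)} {i₀ : Fin b} (hi₀ : i₀ ∈ I) (e : Bool)
    (z : Fin b → Bool) : (half I i₀ e z).card = 2 ^ (I.card - 1) := by
  unfold half
  rw [Fintype.card_piFinset]
  have h1 : ∀ β : Fin b, (if β = i₀ then ({e} : Finset Bool) else if β ∈ I then Finset.univ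
      else {z β}).card = if β ∈ I.erase i₀ then 2 else 1 := by
    intro β
    by_cases hβ : β = i₀
    · simp [hβ]
    · by_cases hI : β ∈ I
      · simp [hβ, hI]
      · simp [hβ, hI]
  rw [Finset.prod_congr rfl (fun β _ => h1 β), Finset.prod_ite_mem, Finset.univ_inter,
    Finset.prod_const, Finset.card_erase_of_mem hi₀]

theorem flip_mem_half {I : Finset (Fin b)} {i₀ : Fin b} (hi₀ : i₀ ∈ I) {e : Bool}
    {z y : Fin b → Bool} (h : y ∈ half I i₀ e z) : flip I y ∈ half I i₀ (!e) z := by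
  rw [mem_half hi₀] at h ⊢
  refine ⟨fun β hβ => ?_, ?_⟩
  · unfold flip
    rw [if_neg hβ]
    exact h.1 β hβ
  · unfold flip
    rw [if_pos hi₀, h.2]

open scoped Classical in
/-- The maps that miss the hole `h` on the subcube. -/
noncomputable def bad (I : Finset (Fin b)) (z : Fin b → Bool) (h : Fin n) :
    Finset ((Fin b → Bool) → Fin n) :=
  Finset.univ.filter (fun G => ∀ y, (∀ β, β ∉ I → y β = z β) → ¬ (G y = h ∧ G (flip I y) = h))

theorem card_bad (hn : 0 < n) {I : Finset (Fin b)} (hI : I.Nonempty) (z : Fin b → Bool)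
    (h : Fin n) : ((bad I z h).card : ℝ) ≤
      (n : ℝ) ^ (2 ^ b) * (1 - 1 / (n : ℝ) ^ 2) ^ (2 ^ (I.card - 1)) := by
  classical
  obtain ⟨i₀, hi₀⟩ := hI
  set Q₀ := half I i₀ false z with hQ₀
  set Q₁ := half I i₀ true z with hQ₁
  have hdisj : ∀ y, y ∈ Q₀ → y ∉ Q₁ := by
    intro y h0 h1
    rw [hQ₀, mem_half hi₀] at h0
    rw [hQ₁, mem_half hi₀] at h1
    rw [h0.2] at h1
    simp at h1
  -- an injection into a product
  let P : (Fin b → Bool) → Finset (Fin n × Fin n) := fun y =>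
    if y ∈ Q₀ then Finset.univ.erase (h, h) else if y ∈ Q₁ then {(h, h)}
      else Finset.univ ×ˢ {h}
  let Φ : ((Fin b → Bool) → Fin n) → (Fin b → Bool) → Fin n × Fin n := fun G y =>
    if y ∈ Q₀ then (G y, G (flip I y)) else if y ∈ Q₁ then (h, h) else (G y, h)
  have hΦ : ∀ G ∈ bad I z h, Φ G ∈ Fintype.piFinset P := by
    intro G hG
    rw [Fintype.mem_piFinset]
    intro y
    show (if y ∈ Q₀ then (G y, G (flip I y)) else if y ∈ Q₁ then (h, h) else (G y, h)) ∈
      (if y ∈ Q₀ then Finset.univ.erase (h, h) else if y ∈ Q₁ then {(h, h)}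
      else Finset.univ ×ˢ {h})
    split_ifs with h0 h1
    · rw [Finset.mem_erase]
      refine ⟨?_, Finset.mem_univ _⟩
      intro heq
      rw [Prod.mk.injEq] at heq
      unfold bad at hG
      rw [Finset.mem_filter] at hG
      exact hG.2 y ((mem_half hi₀).mp h0).1 heq
    · simp
    · simp
  have hinj : Set.InjOn Φ (bad I z h) := by
    intro G _ G' _ heq
    funext y
    by_cases h0 : y ∈ Q₀
    · have := congrFun heq y
      simp only [Φ, if_pos h0, Prod.mk.injEq] at this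
      exact this.1
    · by_cases h1 : y ∈ Q₁
      · have h2 : flip I y ∈ Q₀ := by
          have := flip_mem_half hi₀ h1
          simpa using this
        have := congrFun heq (flip I y)
        simp only [Φ, if_pos h2, Prod.mk.injEq, flip_flip] at this
        exact this.2
      · have := congrFun heq y
        simp only [Φ, if_neg h0, if_neg h1, Prod.mk.injEq] at this
        exact this.1
  have hcard : (bad I z h).card ≤ (Fintype.piFinset P).card :=
    Finset.card_le_card_of_injOn Φ hΦ hinj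
  have hPcard : ∀ y, ((P y).card : ℝ) =
      (if y ∈ Q₀ then (n : ℝ) * (1 - 1 / (n : ℝ) ^ 2) else 1) *
      (if y ∈ Q₁ then 1 / (n : ℝ) else 1) * (if y ∈ Q₀ then (n : ℝ) else 1) *
      (if y ∈ Q₀ ∨ y ∈ Q₁ then 1 else (n : ℝ)) * (if y ∈ Q₁ then (n : ℝ) else 1) := by
    intro y
    have hn' : (n : ℝ) ≠ 0 := by exact_mod_cast hn.ne'
    show ((if y ∈ Q₀ then Finset.univ.erase (h, h) else if y ∈ Q₁ then {(h, h)}
      else Finset.univ ×ˢ {h} : Finset (Fin n × Fin n)).card : ℝ) = _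
    by_cases h0 : y ∈ Q₀
    · have h1 := hdisj y h0
      rw [if_pos h0, Finset.card_erase_of_mem (Finset.mem_univ _)]
      simp only [h0, h1, if_true, if_false, true_or]
      rw [Nat.cast_sub]
      · simp only [Finset.card_univ, Fintype.card_prod, Fintype.card_fin, Nat.cast_mul,
          Nat.cast_one]
        field_simp
      · simp only [Finset.card_univ, Fintype.card_prod, Fintype.card_fin]
        nlinarith
    · by_cases h1 : y ∈ Q₁
      · simp [h0, h1, hn']
      · simp [h0, h1]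
  have hprod : ((Fintype.piFinset P).card : ℝ) =
      (n : ℝ) ^ (2 ^ b) * (1 - 1 / (n : ℝ) ^ 2) ^ (2 ^ (I.card - 1)) := by
    have hn' : (n : ℝ) ≠ 0 := by exact_mod_cast hn.ne'
    rw [Fintype.card_piFinset, Nat.cast_prod, Finset.prod_congr rfl (fun y _ => hPcard y)]
    simp only [Finset.prod_mul_distrib]
    have e1 : ∀ (Q : Finset (Fin b → Bool)) (r : ℝ),
        ∏ y, (if y ∈ Q then r else 1) = r ^ Q.card := by
      intro Q r
      rw [Finset.prod_ite_mem, Finset.univ_inter, Finset.prod_const]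
    have e2 : ∏ y, (if y ∈ Q₀ ∨ y ∈ Q₁ then (1 : ℝ) else (n : ℝ)) =
        (n : ℝ) ^ (2 ^ b - (Q₀.card + Q₁.card)) := by
      have e3 : ∀ y, (if y ∈ Q₀ ∨ y ∈ Q₁ then (1 : ℝ) else (n : ℝ)) =
          if y ∈ Finset.univ \ (Q₀ ∪ Q₁) then (n : ℝ) else 1 := by
        intro y
        by_cases hy : y ∈ Q₀ ∨ y ∈ Q₁
        · simp [hy]
        · simp [hy]
      rw [Finset.prod_congr rfl (fun y _ => e3 y), e1,
        Finset.card_sdiff_of_subset (Finset.subset_univ _),
        Finset.card_union_of_disjoint (Finset.disjoint_left.mpr hdisj)]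
      simp
    rw [e1, e1, e1, e1, e2]
    have e4 : Q₀.card = 2 ^ (I.card - 1) := card_half hi₀ _ _
    have e5 : Q₁.card = 2 ^ (I.card - 1) := card_half hi₀ _ _
    have e6 : Q₀.card + Q₁.card ≤ 2 ^ b := by
      rw [← Finset.card_union_of_disjoint (Finset.disjoint_left.mpr hdisj)]
      have := Finset.card_le_univ (Q₀ ∪ Q₁)
      simpa using this
    have e7 : (n : ℝ) ^ (2 ^ b) = (n : ℝ) ^ (2 ^ b - (Q₀.card + Q₁.card)) *
        ((n : ℝ) ^ Q₀.card * (n : ℝ) ^ Q₁.card) := by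
      rw [← pow_add, ← pow_add]
      congr 1
      omega
    rw [e7, mul_pow, e5, e4]
    have e8 : (1 / (n : ℝ)) ^ (2 ^ (I.card - 1)) * (n : ℝ) ^ (2 ^ (I.card - 1)) = 1 := by
      rw [← mul_pow]
      rw [one_div_mul_cancel hn', one_pow]
    calc _ = ((1 / (n : ℝ)) ^ (2 ^ (I.card - 1)) * (n : ℝ) ^ (2 ^ (I.card - 1))) *
          ((n : ℝ) ^ (2 ^ b - (2 ^ (I.card - 1) + 2 ^ (I.card - 1))) *
          ((n : ℝ) ^ (2 ^ (I.card - 1)) * (n : ℝ) ^ (2 ^ (I.card - 1))) *
          (1 - 1 / (n : ℝ) ^ 2) ^ (2 ^ (I.card - 1))) := by ring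
      _ = _ := by rw [e8, one_mul]
  rw [← hprod]
  exact_mod_cast hcard

theorem exists_rich {q : ℕ} (hn : 0 < n) (hq : 1 ≤ q)
    (h : (4 : ℝ) ^ b * n * (1 - 1 / (n : ℝ) ^ 2) ^ (2 ^ (q - 1)) < 1) :
    ∃ G : (Fin b → Bool) → Fin n, Rich q G := by
  classical
  by_contra hcon
  push Not at hcon
  let ix : Finset (Finset (Fin b) × (Fin b → Bool) × Fin n) :=
    Finset.univ.filter (fun a => q ≤ a.1.card)
  have hcover : (Finset.univ : Finset ((Fin b → Bool) → Fin n)) ⊆
      ix.biUnion (fun a => bad a.1 a.2.1 a.2.2) := by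
    intro G _
    have hG := hcon G
    unfold Rich at hG
    push Not at hG
    obtain ⟨I, hI, z, hole, hG⟩ := hG
    rw [Finset.mem_biUnion]
    refine ⟨(I, z, hole), by simp [ix, hI], ?_⟩
    unfold bad
    rw [Finset.mem_filter]
    refine ⟨Finset.mem_univ _, ?_⟩
    intro y hy hy2
    exact hG y hy hy2.1 hy2.2
  have h1 := (Finset.card_le_card hcover).trans Finset.card_biUnion_le
  have h2 : ((Finset.univ : Finset ((Fin b → Bool) → Fin n)).card : ℝ) = (n : ℝ) ^ (2 ^ b) := by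
    simp
  have hn' : (0 : ℝ) < n := by exact_mod_cast hn
  have hn1 : (1 : ℝ) ≤ (n : ℝ) := by exact_mod_cast hn
  have h01 : (0 : ℝ) ≤ 1 - 1 / (n : ℝ) ^ 2 := by
    rw [sub_nonneg, div_le_one (by positivity)]
    nlinarith
  have h02 : 1 - 1 / (n : ℝ) ^ 2 ≤ 1 := by
    have : (0 : ℝ) ≤ 1 / (n : ℝ) ^ 2 := by positivity
    linarith
  have h3 : (n : ℝ) ^ (2 ^ b) ≤ ∑ a ∈ ix, (n : ℝ) ^ (2 ^ b) *
      (1 - 1 / (n : ℝ) ^ 2) ^ (2 ^ (q - 1)) := by
    calc (n : ℝ) ^ (2 ^ b) = ((Finset.univ : Finset ((Fin b → Bool) → Fin n)).card : ℝ) :=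
          h2.symm
      _ ≤ ((∑ a ∈ ix, (bad a.1 a.2.1 a.2.2).card : ℕ) : ℝ) := by exact_mod_cast h1
      _ = ∑ a ∈ ix, ((bad a.1 a.2.1 a.2.2).card : ℝ) := by push_cast; rfl
      _ ≤ _ := by
          refine Finset.sum_le_sum (fun a ha => ?_)
          have ha' : q ≤ a.1.card := by simpa [ix] using ha
          refine (card_bad hn (Finset.card_pos.mp (by omega)) _ _).trans ?_
          apply mul_le_mul_of_nonneg_left _ (by positivity)
          apply pow_le_pow_of_le_one h01 h02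
          apply Nat.pow_le_pow_right (by norm_num)
          omega
  rw [Finset.sum_const, nsmul_eq_mul] at h3
  have h4 : (ix.card : ℝ) ≤ (4 : ℝ) ^ b * n := by
    have : ix.card ≤ 2 ^ b * (2 ^ b * n) := by
      refine (Finset.card_le_univ _).trans ?_
      simp
    have h5 : ((2 ^ b * (2 ^ b * n) : ℕ) : ℝ) = (4 : ℝ) ^ b * n := by
      push_cast
      rw [show (4 : ℝ) = 2 * 2 by norm_num, mul_pow]
      ring
    rw [← h5]
    exact_mod_cast this
  have h6 : (ix.card : ℝ) * ((n : ℝ) ^ (2 ^ b) * (1 - 1 / (n : ℝ) ^ 2) ^ (2 ^ (q - 1))) ≤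
      (n : ℝ) ^ (2 ^ b) * ((4 : ℝ) ^ b * n * (1 - 1 / (n : ℝ) ^ 2) ^ (2 ^ (q - 1))) := by
    calc _ ≤ ((4 : ℝ) ^ b * n) *
          ((n : ℝ) ^ (2 ^ b) * (1 - 1 / (n : ℝ) ^ 2) ^ (2 ^ (q - 1))) :=
          mul_le_mul_of_nonneg_right h4 (by positivity)
      _ = _ := by ring
  have h7 : (n : ℝ) ^ (2 ^ b) * ((4 : ℝ) ^ b * n * (1 - 1 / (n : ℝ) ^ 2) ^ (2 ^ (q - 1))) <
      (n : ℝ) ^ (2 ^ b) * 1 := mul_lt_mul_of_pos_left h (by positivity)
  linarith

end Pool.Agent.MP_e81270_lc
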