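import Pool.Agent.Lib.MP_e81270_lc.Kill
import Pool.Agent.Lib.MP_e81270_lc.Rich

/-!
# The formula, and the lower bound in terms of its parameters
-/

set_option autoImplicit false

namespace Pool.Agent.MP_e81270_lc

/-- Every assignment of the formula variables extends to one that obeys the definitions. -/
theorem exists_obeyed {V : Type} {k : ℕ} (D : ExtDefs V k) (x : V → Bool) :
    ∃ a : V ⊕ Fin k → Bool, D.Obeyed a ∧ ∀ v, a (Sum.inl v) = x v := by
  classical
  have key : ∀ m : ℕ, m ≤ k → ∃ a : V ⊕ Fin k → Bool, (∀ j : Fin k, (j : ℕ) < m →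
      a (Sum.inr j) = D.fn j (a (D.arg₁ j)) (a (D.arg₂ j))) ∧ ∀ v, a (Sum.inl v) = x v := by
    intro m
    induction m with
    | zero =>
      intro _
      exact ⟨fun u => Sum.elim x (fun _ => false) u, by simp, by simp⟩
    | succ m ih =>
      intro hm
      obtain ⟨a, ha1, ha2⟩ := ih (by omega)
      let j₀ : Fin k := ⟨m, by omega⟩
      refine ⟨Function.update a (Sum.inr j₀) (D.fn j₀ (a (D.arg₁ j₀)) (a (D.arg₂ j₀))), ?_, ?_⟩
      · intro j hj
        have hne1 : D.arg₁ j ≠ Sum.inr j₀ := by
          intro h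
          have := D.earlier₁ j j₀ h
          have h2 : (j₀ : ℕ) < (j : ℕ) := this
          simp only [j₀] at h2
          omega
        have hne2 : D.arg₂ j ≠ Sum.inr j₀ := by
          intro h
          have := D.earlier₂ j j₀ h
          have h2 : (j₀ : ℕ) < (j : ℕ) := this
          simp only [j₀] at h2
          omega
        rw [Function.update_of_ne hne1, Function.update_of_ne hne2]
        by_cases hjm : j = j₀
        · subst hjm
          rw [Function.update_self]
        · rw [Function.update_of_ne (by simpa using hjm)]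
          apply ha1
          have : (j : ℕ) ≠ m := by
            intro h
            apply hjm
            ext
            exact h
          omega
      · intro v
        rw [Function.update_of_ne (by simp)]
        exact ha2 v
  obtain ⟨a, ha1, ha2⟩ := key k le_rfl
  exact ⟨a, fun j => ha1 j j.isLt, ha2⟩

variable {M n b k L q : ℕ}

/-- The clause saying that row `i` differs from `y` or row `j` differs from `y'`. -/
def clauseOf (i j : Fin M) (y y' : Fin b → Bool) : Clause (Fin M × Fin b) :=
  (List.finRange b).map (fun β => ((i, β), !(y β))) ++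
    (List.finRange b).map (fun β => ((j, β), !(y' β)))

theorem sat_clauseOf {i j : Fin M} {y y' : Fin b → Bool} {x : Fin M × Fin b → Bool} :
    Sat x (clauseOf i j y y') ↔ ¬ ((fun β => x (i, β)) = y ∧ (fun β => x (j, β)) = y') := by
  unfold Sat clauseOf
  constructor
  · rintro ⟨l, hl, hx⟩ ⟨h1, h2⟩
    rw [List.mem_append, List.mem_map, List.mem_map] at hl
    rcases hl with ⟨β, _, rfl⟩ | ⟨β, _, rfl⟩
    · have := congrFun h1 β
      simp only at this hx
      rw [this] at hx
      cases hy : y β <;> simp [hy] at hx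
    · have := congrFun h2 β
      simp only at this hx
      rw [this] at hx
      cases hy : y' β <;> simp [hy] at hx
  · intro h
    rw [not_and_or] at h
    rcases h with h | h
    · obtain ⟨β, hβ⟩ := Function.ne_iff.mp h
      refine ⟨((i, β), !(y β)), ?_, ?_⟩
      · rw [List.mem_append, List.mem_map]
        exact Or.inl ⟨β, List.mem_finRange _, rfl⟩
      · simp only at hβ ⊢
        cases hx : x (i, β) <;> cases hy : y β <;> simp_all
    · obtain ⟨β, hβ⟩ := Function.ne_iff.mp h
      refine ⟨((j, β), !(y' β)), ?_, ?_⟩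
      · rw [List.mem_append, List.mem_map, List.mem_map]
        exact Or.inr ⟨β, List.mem_finRange _, rfl⟩
      · simp only at hβ ⊢
        cases hx : x (j, β) <;> cases hy : y' β <;> simp_all

/-- The pigeonhole principle for the map that sends row `i` to the hole `G (row i)`. -/
noncomputable def formula (M : ℕ) (G : (Fin b → Bool) → Fin n) : CNF (Fin M × Fin b) :=
  ((Finset.univ : Finset (Fin M × Fin M × (Fin b → Bool) × (Fin b → Bool))).filter
    (fun a => a.1 ≠ a.2.1 ∧ G a.2.2.1 = G a.2.2.2)).toList.map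
    (fun a => clauseOf a.1 a.2.1 a.2.2.1 a.2.2.2)

theorem mem_formula {G : (Fin b → Bool) → Fin n} {C : Clause (Fin M × Fin b)} :
    C ∈ formula M G ↔ ∃ i j y y', i ≠ j ∧ G y = G y' ∧ C = clauseOf i j y y' := by
  unfold formula
  rw [List.mem_map]
  constructor
  · rintro ⟨⟨i, j, y, y'⟩, ha, rfl⟩
    rw [Finset.mem_toList, Finset.mem_filter] at ha
    exact ⟨i, j, y, y', ha.2.1, ha.2.2, rfl⟩
  · rintro ⟨i, j, y, y', h1, h2, rfl⟩
    refine ⟨(i, j, y, y'), ?_, rfl⟩
    rw [Finset.mem_toList, Finset.mem_filter]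
    exact ⟨Finset.mem_univ _, h1, h2⟩

theorem formula_unsat (hM : M = n + 1) (G : (Fin b → Bool) → Fin n) :
    Unsat (formula M G) := by
  intro a
  obtain ⟨i, j, hij, h⟩ := Fintype.exists_ne_map_eq_of_card_lt
    (fun i : Fin M => G (fun β => a (i, β))) (by simp [hM])
  refine ⟨clauseOf i j (fun β => a (i, β)) (fun β => a (j, β)),
    mem_formula.mpr ⟨i, j, _, _, hij, h, rfl⟩, ?_⟩
  rw [sat_clauseOf]
  simp

theorem formula_length (M : ℕ) (G : (Fin b → Bool) → Fin n) :
    (formula M G).length ≤ (M * 2 ^ b) ^ 2 := by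
  unfold formula
  rw [List.length_map, Finset.length_toList]
  refine (Finset.card_le_univ _).trans ?_
  simp only [Fintype.card_prod, Fintype.card_fin, Fintype.card_fun, Fintype.card_bool]
  apply le_of_eq
  ring

theorem formula_width {G : (Fin b → Bool) → Fin n} {C : Clause (Fin M × Fin b)}
    (hC : C ∈ formula M G) : C.length = 2 * b := by
  obtain ⟨i, j, y, y', _, _, rfl⟩ := mem_formula.mp hC
  unfold clauseOf
  simp
  ring

/-- The lower bound in terms of the parameters. -/
theorem formula_lower {G : (Fin b → Bool) → Fin n} (hG : Rich q G) (hb : q + 2 ≤ b) {s : ℕ}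
    (hM : M = n + 1) (hs : 8 ≤ s) (R : Refutation (formula M G) k L)
    {J : Finset (Fin M × Fin b)} {I : Finset (Fin k)} (hI : R.defs.DefinedFrom J I)
    (hnum : 9 * b * s + 9 * (q + 1) * M + (3 * J.card + R.defs.costOutside I) ≤
      3 * (M * b)) :
    Real.exp (s / 128) ≤ L := by
  classical
  obtain ⟨S, Z, z, r, h1, h2, h3, h4, h5, h6⟩ :=
    exists_elim R.defs hG hb hM (by omega : 2 ≤ s) hI hnum
  choose E hE1 hE2 using exists_obeyed R.defs
  have hK : KState G q S Z z := ⟨h2, h3, h4⟩
  obtain ⟨p, hp⟩ : ∃ p, S.card + p = M := ⟨M - S.card, by omega⟩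
  have hlow := hK.lower (H := fun t x => Sat (E x) (R.line t)) hG hM ?_ ?_ ?_ hp (by omega)
  · refine le_trans (Real.exp_le_exp.mpr ?_) hlow
    have : (s : ℝ) ≤ p := by exact_mod_cast (by omega : s ≤ p)
    linarith
  · -- the lines as clauses over the formula variables
    intro t
    refine ⟨∃ l ∈ R.line t, ∃ i, l.1 = Sum.inr i ∧ (r i).2 = none ∧ (r i).1 = l.2,
      {m | ∃ l ∈ R.line t, (l.1 = Sum.inl m.1 ∧ m.2 = l.2) ∨
        ∃ i, l.1 = Sum.inr i ∧ (r i).2 = some (Sum.inl m.1) ∧ m.2 = xor (r i).1 l.2}, ?_⟩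
    intro x hx
    have hbox : E x ∈ box R.defs Z z := ⟨hE1 x, fun v hv => by rw [hE2, hx v hv]⟩
    constructor
    · rintro ⟨⟨u, σ⟩, hl, hu⟩
      rcases u with v | i
      · right
        refine ⟨(v, σ), ⟨(Sum.inl v, σ), hl, Or.inl ⟨rfl, rfl⟩⟩, ?_⟩
        simp only at hu ⊢
        rw [← hu, hE2]
      · simp only at hu
        rw [h5 i _ hbox] at hu
        rcases hr : (r i).2 with _ | u
        · left
          refine ⟨_, hl, i, rfl, hr, ?_⟩
          rw [ev_none hr] at hu
          exact hu
        · rcases u with v | j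
          · right
            refine ⟨(v, xor (r i).1 σ), ⟨_, hl, Or.inr ⟨i, rfl, hr, rfl⟩⟩, ?_⟩
            rw [ev_some hr, hE2] at hu
            simp only
            rw [← hu]
            cases (r i).1 <;> cases x v <;> rfl
          · exact absurd hr (h6 i j)
    · rintro (⟨l, hl, i, hli, hr1, hr2⟩ | ⟨⟨v, σ⟩, ⟨l, hl, h7⟩, hv⟩)
      · refine ⟨l, hl, ?_⟩
        rw [hli, h5 i _ hbox, ev_none hr1, hr2]
      · simp only at h7 hv
        rcases h7 with ⟨h8, h9⟩ | ⟨i, h8, h9, h10⟩
        · refine ⟨l, hl, ?_⟩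
          rw [h8, hE2, hv, h9]
        · refine ⟨l, hl, ?_⟩
          rw [h8, h5 i _ hbox, ev_some h9, hE2, hv, h10]
          cases (r i).1 <;> cases l.2 <;> rfl
  · intro t
    rcases R.sound t with ⟨C, hC, hline⟩ | ⟨P, hP1, hP2, hP3⟩
    · left
      obtain ⟨i, j, y, y', hij, hGy, rfl⟩ := mem_formula.mp hC
      refine ⟨i, j, hij, ?_⟩
      intro x hx
      have hsat : Sat x (clauseOf i j y y') := by
        rw [sat_clauseOf]
        rintro ⟨h7, h8⟩
        apply hx
        rw [h7, h8, hGy]
      obtain ⟨l, hl, hl2⟩ := hsat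
      refine ⟨(Sum.inl l.1, l.2), ?_, ?_⟩
      · rw [hline, List.mem_map]
        exact ⟨l, hl, rfl⟩
      · simp only
        rw [hE2, hl2]
    · right
      exact ⟨P, hP1, hP2, fun x hx => hP3 (E x) (hE1 x) hx⟩
  · obtain ⟨t, ht⟩ := R.last
    refine ⟨t, fun x hx => ?_⟩
    rw [ht] at hx
    obtain ⟨l, hl, _⟩ := hx
    simp at hl

end Pool.Agent.MP_e81270_lc
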