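import Pool.Agent.Lib.MP_e81270_lc.Core

/-!
# Killing the wide lines, and the lower bound on the number of lines
-/

set_option autoImplicit false

namespace Pool.Agent.MP_e81270_lc

variable {M n b L : ℕ} {G : (Fin b → Bool) → Fin n} {q : ℕ} {S : Finset (Fin M)}
  {Z : Finset (Fin M × Fin b)} {z : Fin M × Fin b → Bool}
  {H : Fin L → (Fin M × Fin b → Bool) → Prop}
  {Λ : Fin L → Set ((Fin M × Fin b) × Bool)} {c : Fin L → Prop}

theorem setRow_eq_on {i : Fin M} {y : Fin b → Bool} (hy : ∀ β, (i, β) ∈ Z → y β = z (i, β))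
    {v : Fin M × Fin b} (hv : v ∈ Z) : setRow z i y v = z v := by
  by_cases hvi : v.1 = i
  · obtain ⟨v1, v2⟩ := v
    simp only at hvi
    subst hvi
    rw [setRow_self]
    exact hy v2 hv
  · rw [setRow_ne _ _ hvi]

/-- One more row can be fixed in such a way that a good part of the wide lines get satisfied. -/
theorem KState.kill (h : KState G q S Z z) (hG : Rich q G) (hM : M = n + 1)
    (hrep : ∀ t x, (∀ v ∈ Z, x v = z v) → (H t x ↔ c t ∨ ∃ l ∈ Λ t, x l.1 = l.2))
    (hp : S.card + 2 ≤ M) (w : ℕ) :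
    ∃ S' Z' z', KState G q S' Z' z' ∧ S'.card = S.card + 1 ∧ Z ⊆ Z' ∧
      (∀ v ∈ Z, z' v = z v) ∧ (wide H Λ w S' Z' z').card * (2 * (M - S.card)) +
        (wide H Λ w S Z z).card * w ≤ (wide H Λ w S Z z).card * (2 * (M - S.card)) := by
  classical
  have hex : ∀ (i : Fin M) (hole : Fin n), ∃ y : Fin b → Bool, i ∉ S →
      ((∀ β, (i, β) ∈ Z → y β = z (i, β)) ∧ G y = hole ∧
        G (flip (Finset.univ \ row Z i) y) = hole) := by
    intro i hole
    by_cases hi : i ∈ S
    · exact ⟨fun _ => false, fun h => absurd hi h⟩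
    · have hfree := h.free i hi
      obtain ⟨y, hy1, hy2, hy3⟩ := hG (Finset.univ \ row Z i) (by
        rw [Finset.card_sdiff_of_subset (Finset.subset_univ _)]
        simp
        omega) (fun β => z (i, β)) hole
      refine ⟨y, fun _ => ⟨?_, hy2, hy3⟩⟩
      intro β hβ
      apply hy1
      simp [mem_row, hβ]
  choose Y hY using hex
  -- the new string of row `i`
  let ystr : Fin M × Fin n × Bool → Fin b → Bool := fun ω =>
    if ω.2.2 then flip (Finset.univ \ row Z ω.1) (Y ω.1 ω.2.1) else Y ω.1 ω.2.1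
  let unused : Finset (Fin n) :=
    Finset.univ \ S.image (fun j => G (fun β => z (j, β)))
  let Ω : Finset (Fin M × Fin n × Bool) :=
    (Finset.univ \ S) ×ˢ (unused ×ˢ (Finset.univ : Finset Bool))
  have hunused : unused.Nonempty := by
    rw [← Finset.card_pos]
    have h1 : (S.image (fun j => G (fun β => z (j, β)))).card ≤ S.card := Finset.card_image_le
    have h2 : unused.card = n - (S.image (fun j => G (fun β => z (j, β)))).card := by
      show (Finset.univ \ S.image (fun j => G (fun β => z (j, β)))).card = _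
      rw [Finset.card_sdiff_of_subset (Finset.subset_univ _)]
      simp
    omega
  have hfreeS : (Finset.univ \ S : Finset (Fin M)).card = M - S.card := by
    rw [Finset.card_sdiff_of_subset (Finset.subset_univ _)]
    simp
  have hΩ : Ω.card = (M - S.card) * (unused.card * 2) := by
    show ((Finset.univ \ S) ×ˢ (unused ×ˢ (Finset.univ : Finset Bool))).card = _
    rw [Finset.card_product, Finset.card_product, hfreeS]
    simp
  have hy_agree : ∀ ω ∈ Ω, ∀ β, (ω.1, β) ∈ Z → ystr ω β = z (ω.1, β) := by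
    rintro ⟨i, hole, σ⟩ hω β hβ
    have hiS : i ∉ S := by
      have := (Finset.mem_product.mp hω).1
      simpa using this
    have hY1 := (hY i hole hiS).1 β hβ
    show (if σ then flip (Finset.univ \ row Z i) (Y i hole) else Y i hole) β = z (i, β)
    cases σ
    · simpa using hY1
    · simp only [if_true]
      unfold flip
      rw [if_neg]
      · exact hY1
      · simp [mem_row, hβ]
  have hy_G : ∀ ω ∈ Ω, G (ystr ω) = ω.2.1 := by
    rintro ⟨i, hole, σ⟩ hω
    have hiS : i ∉ S := by
      have := (Finset.mem_product.mp hω).1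
      simpa using this
    show G (if σ then flip (Finset.univ \ row Z i) (Y i hole) else Y i hole) = hole
    cases σ
    · simpa using (hY i hole hiS).2.1
    · simpa using (hY i hole hiS).2.2
  let Wn : Fin M × Fin n × Bool → Finset (Fin L) := fun ω =>
    wide H Λ w (insert ω.1 S) (Z ∪ wholeRow ω.1) (setRow z ω.1 (ystr ω))
  have hWsub : ∀ ω ∈ Ω, Wn ω ⊆ wide H Λ w S Z z := by
    intro ω hω t ht
    have ht' : t ∈ wide H Λ w (insert ω.1 S) (Z ∪ wholeRow ω.1) (setRow z ω.1 (ystr ω)) := ht
    unfold wide at ht' ⊢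
    rw [Finset.mem_filter] at ht' ⊢
    obtain ⟨_, ⟨x, hx1, hx2⟩, hcard⟩ := ht'
    refine ⟨Finset.mem_univ _, ⟨x, ?_, hx2⟩, hcard.trans (Finset.card_le_card ?_)⟩
    · intro v hv
      rw [hx1 v (Finset.mem_union_left _ hv)]
      exact setRow_eq_on (hy_agree ω hω) hv
    · intro i hi
      unfold touched at hi ⊢
      rw [Finset.mem_filter] at hi ⊢
      obtain ⟨_, hi1, l, hl, hlZ, hli⟩ := hi
      rw [Finset.mem_insert, not_or] at hi1
      rw [Finset.mem_union, not_or] at hlZ
      exact ⟨Finset.mem_univ _, hi1.2, l, hl, hlZ.1, hli⟩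
  -- every wide line is killed by many choices
  have hkill : ∀ t ∈ wide H Λ w S Z z,
      w * unused.card ≤ (Ω.filter (fun ω => t ∉ Wn ω)).card := by
    intro t ht
    have ht' := ht
    unfold wide at ht'
    rw [Finset.mem_filter] at ht'
    have hcard := ht'.2.2
    have hσ : ∀ (i : Fin M) (hole : Fin n), ∃ σ : Bool, i ∈ touched Λ S Z t →
        hole ∈ unused → (i, hole, σ) ∈ Ω ∧ t ∉ Wn (i, hole, σ) := by
      intro i hole
      by_cases hi : i ∈ touched Λ S Z t
      · have hi' := hi
        unfold touched at hi'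
        rw [Finset.mem_filter] at hi'
        obtain ⟨_, hiS, l, hl, hlZ, hli⟩ := hi'
        obtain ⟨⟨i', β⟩, s⟩ := l
        simp only at hlZ hli
        subst hli
        refine ⟨if Y i' hole β = s then false else true, ?_⟩
        intro _ hhole
        have hmem : (i', hole, if Y i' hole β = s then false else true) ∈ Ω := by
          show _ ∈ (Finset.univ \ S) ×ˢ (unused ×ˢ (Finset.univ : Finset Bool))
          rw [Finset.mem_product, Finset.mem_product]
          exact ⟨by simpa using hiS, hhole, Finset.mem_univ _⟩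
        refine ⟨hmem, ?_⟩
        intro hcon
        have hval : ystr (i', hole, if Y i' hole β = s then false else true) β = s := by
          show (if (if Y i' hole β = s then false else true) then
            flip (Finset.univ \ row Z i') (Y i' hole) else Y i' hole) β = s
          by_cases hys : Y i' hole β = s
          · simp [hys]
          · rw [if_neg hys]
            simp only [if_true]
            unfold flip
            rw [if_pos (by simp [mem_row, hlZ])]
            cases hy' : Y i' hole β <;> cases s <;> simp_all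
        have hcon' : t ∈ wide H Λ w (insert i' S) (Z ∪ wholeRow i')
          (setRow z i' (ystr (i', hole, if Y i' hole β = s then false else true))) := hcon
        unfold wide at hcon'
        rw [Finset.mem_filter] at hcon'
        obtain ⟨_, ⟨x, hx1, hx2⟩, _⟩ := hcon'
        apply hx2
        have hxz : ∀ v ∈ Z, x v = z v := by
          intro v hv
          rw [hx1 v (Finset.mem_union_left _ hv)]
          exact setRow_eq_on (hy_agree _ hmem) hv
        rw [hrep t x hxz]
        right
        refine ⟨_, hl, ?_⟩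
        simp only
        rw [hx1 (i', β) (Finset.mem_union_right _ (mem_wholeRow.mpr rfl)), setRow_self]
        exact hval
      · exact ⟨false, fun h => absurd h hi⟩
    choose σ hσ using hσ
    calc w * unused.card ≤ (touched Λ S Z t).card * unused.card := Nat.mul_le_mul_right _ hcard
      _ = ((touched Λ S Z t) ×ˢ unused).card := by rw [Finset.card_product]
      _ ≤ (Ω.filter (fun ω => t ∉ Wn ω)).card := by
          apply Finset.card_le_card_of_injOn (fun a => (a.1, a.2, σ a.1 a.2))
          · rintro ⟨i, hole⟩ ha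
            have ha' := Finset.mem_product.mp (Finset.mem_coe.mp ha)
            have := hσ i hole ha'.1 ha'.2
            simpa using this
          · rintro ⟨i, hole⟩ _ ⟨i', hole'⟩ _ heq
            simp only [Prod.mk.injEq] at heq
            rw [Prod.mk.injEq]
            exact ⟨heq.1, heq.2.1⟩
  -- double counting
  have hsum : (wide H Λ w S Z z).card * (w * unused.card) ≤
      ∑ ω ∈ Ω, ((wide H Λ w S Z z) \ Wn ω).card := by
    calc (wide H Λ w S Z z).card * (w * unused.card)
        = ∑ t ∈ wide H Λ w S Z z, w * unused.card := by rw [Finset.sum_const, smul_eq_mul]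
      _ ≤ ∑ t ∈ wide H Λ w S Z z, (Ω.filter (fun ω => t ∉ Wn ω)).card :=
          Finset.sum_le_sum hkill
      _ = ∑ t ∈ wide H Λ w S Z z, ∑ ω ∈ Ω, if t ∉ Wn ω then 1 else 0 := by
          refine Finset.sum_congr rfl (fun t _ => ?_)
          rw [Finset.card_filter]
      _ = ∑ ω ∈ Ω, ∑ t ∈ wide H Λ w S Z z, if t ∉ Wn ω then 1 else 0 := Finset.sum_comm
      _ = ∑ ω ∈ Ω, ((wide H Λ w S Z z) \ Wn ω).card := by
          refine Finset.sum_congr rfl (fun ω _ => ?_)
          rw [← Finset.card_filter]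
          congr 1
          ext t
          simp
  have hexω : ∃ ω ∈ Ω, (wide H Λ w S Z z).card * w ≤
      ((wide H Λ w S Z z) \ Wn ω).card * (2 * (M - S.card)) := by
    by_contra hcon
    push Not at hcon
    have hΩne : Ω.Nonempty := by
      rw [← Finset.card_pos, hΩ]
      have h1 : 0 < unused.card := Finset.card_pos.mpr hunused
      have h2 : 0 < M - S.card := by omega
      positivity
    have h1 : ∑ ω ∈ Ω, ((wide H Λ w S Z z) \ Wn ω).card * (2 * (M - S.card)) <
        ∑ ω ∈ Ω, (wide H Λ w S Z z).card * w := Finset.sum_lt_sum_of_nonempty hΩne hcon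
    rw [← Finset.sum_mul, Finset.sum_const, smul_eq_mul, hΩ] at h1
    have h2 := Nat.mul_le_mul_right (2 * (M - S.card)) hsum
    have h3 : (wide H Λ w S Z z).card * (w * unused.card) * (2 * (M - S.card)) =
        (M - S.card) * (unused.card * 2) * ((wide H Λ w S Z z).card * w) := by ring
    omega
  obtain ⟨ω, hω, hω2⟩ := hexω
  have hωS : ω.1 ∉ S := by
    have := (Finset.mem_product.mp hω).1
    simpa using this
  have hωu : ω.2.1 ∈ unused := (Finset.mem_product.mp (Finset.mem_product.mp hω).2).1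
  refine ⟨insert ω.1 S, Z ∪ wholeRow ω.1, setRow z ω.1 (ystr ω), h.assign hωS _ ?_,
    Finset.card_insert_of_notMem hωS, Finset.subset_union_left, ?_, ?_⟩
  · intro j hj hcon
    rw [hy_G ω hω] at hcon
    have h1 : ω.2.1 ∉ S.image (fun j => G (fun β => z (j, β))) := (Finset.mem_sdiff.mp hωu).2
    exact h1 (Finset.mem_image.mpr ⟨j, hj, hcon⟩)
  · intro v hv
    exact setRow_eq_on (hy_agree ω hω) hv
  · have h1 : ((wide H Λ w S Z z) \ Wn ω).card + (Wn ω).card = (wide H Λ w S Z z).card :=
      Finset.card_sdiff_add_card_eq_card (hWsub ω hω)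
    have h2 : (Wn ω).card * (2 * (M - S.card)) +
        ((wide H Λ w S Z z) \ Wn ω).card * (2 * (M - S.card)) =
        (wide H Λ w S Z z).card * (2 * (M - S.card)) := by
      rw [← h1]; ring
    show (Wn ω).card * (2 * (M - S.card)) + (wide H Λ w S Z z).card * w ≤ _
    omega

/-- Repeated killing of wide lines. -/
theorem KState.iterate (h : KState G q S Z z) (hG : Rich q G) (hM : M = n + 1)
    (hrep : ∀ t x, (∀ v ∈ Z, x v = z v) → (H t x ↔ c t ∨ ∃ l ∈ Λ t, x l.1 = l.2))
    {p w : ℕ} (hp : S.card + p = M) (hwp : w ≤ 2 * p) (j : ℕ) (hj : j + 1 ≤ p) :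
    ∃ S' Z' z', KState G q S' Z' z' ∧ S'.card = S.card + j ∧ Z ⊆ Z' ∧
      (∀ v ∈ Z, z' v = z v) ∧
      ((wide H Λ w S' Z' z').card : ℝ) ≤ L * (1 - w / (2 * p)) ^ j := by
  induction j with
  | zero =>
    refine ⟨S, Z, z, h, rfl, subset_rfl, fun _ _ => rfl, ?_⟩
    simp only [pow_zero, mul_one, Nat.cast_le]
    simpa using Finset.card_le_univ (wide H Λ w S Z z)
  | succ j ih =>
    obtain ⟨S', Z', z', h1, h2, h3, h4, h5⟩ := ih (by omega)
    have hrep' : ∀ t x, (∀ v ∈ Z', x v = z' v) → (H t x ↔ c t ∨ ∃ l ∈ Λ t, x l.1 = l.2) := by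
      intro t x hx
      apply hrep t x
      intro v hv
      rw [hx v (h3 hv), h4 v hv]
    obtain ⟨S'', Z'', z'', k1, k2, k3, k4, k5⟩ := h1.kill hG hM hrep' (by omega) w
    refine ⟨S'', Z'', z'', k1, by omega, h3.trans k3, ?_, ?_⟩
    · intro v hv
      rw [k4 v (h3 hv), h4 v hv]
    · have hp0 : 0 < p := by omega
      have hp' : 0 < M - S'.card := by omega
      have hpp : M - S'.card ≤ p := by omega
      have e1 : ((wide H Λ w S'' Z'' z'').card : ℝ) * (2 * ((M - S'.card : ℕ) : ℝ)) +
          ((wide H Λ w S' Z' z').card : ℝ) * w ≤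
          ((wide H Λ w S' Z' z').card : ℝ) * (2 * ((M - S'.card : ℕ) : ℝ)) := by
        exact_mod_cast k5
      have e2 : (0 : ℝ) < ((M - S'.card : ℕ) : ℝ) := by exact_mod_cast hp'
      have e3 : (((M - S'.card : ℕ) : ℝ)) ≤ p := by exact_mod_cast hpp
      have e4 : ((wide H Λ w S'' Z'' z'').card : ℝ) ≤
          ((wide H Λ w S' Z' z').card : ℝ) * (1 - w / (2 * p)) := by
        have e5 : ((wide H Λ w S'' Z'' z'').card : ℝ) ≤
            ((wide H Λ w S' Z' z').card : ℝ) * (1 - w / (2 * ((M - S'.card : ℕ) : ℝ))) := by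
          have e6 : ((wide H Λ w S' Z' z').card : ℝ) *
              (1 - w / (2 * ((M - S'.card : ℕ) : ℝ))) =
              (((wide H Λ w S' Z' z').card : ℝ) * (2 * ((M - S'.card : ℕ) : ℝ)) -
              ((wide H Λ w S' Z' z').card : ℝ) * w) / (2 * ((M - S'.card : ℕ) : ℝ)) := by
            field_simp
          rw [e6, le_div_iff₀ (by positivity)]
          linarith
        refine e5.trans ?_
        apply mul_le_mul_of_nonneg_left _ (by positivity)
        have : (w : ℝ) / (2 * p) ≤ w / (2 * ((M - S'.card : ℕ) : ℝ)) := by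
          apply div_le_div_of_nonneg_left (by positivity) (by positivity)
          linarith
        linarith
      have e7 : (0 : ℝ) ≤ 1 - w / (2 * p) := by
        rw [sub_nonneg, div_le_one (by positivity)]
        exact_mod_cast hwp
      calc ((wide H Λ w S'' Z'' z'').card : ℝ)
          ≤ ((wide H Λ w S' Z' z').card : ℝ) * (1 - w / (2 * p)) := e4
        _ ≤ L * (1 - w / (2 * p)) ^ j * (1 - w / (2 * p)) :=
            mul_le_mul_of_nonneg_right h5 e7
        _ = L * (1 - w / (2 * p)) ^ (j + 1) := by ring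

/-- The lower bound on the number of lines. -/
theorem KState.lower (h : KState G q S Z z) (hG : Rich q G) (hM : M = n + 1)
    (hrep : ∀ t, ∃ (c : Prop) (Λ : Set ((Fin M × Fin b) × Bool)),
      ∀ x, (∀ v ∈ Z, x v = z v) → (H t x ↔ c ∨ ∃ l ∈ Λ, x l.1 = l.2))
    (hsound : ∀ t, (∃ i j, i ≠ j ∧ ∀ x, G (fun β => x (i, β)) ≠ G (fun β => x (j, β)) → H t x) ∨
      ∃ P : Finset (Fin L), P.card ≤ 2 ∧ (∀ s ∈ P, s < t) ∧ ∀ x, (∀ s ∈ P, H s x) → H t x)
    (hlast : ∃ t, ∀ x, ¬ H t x) {p : ℕ} (hp : S.card + p = M) (hp8 : 8 ≤ p) :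
    Real.exp (p / 128) ≤ L := by
  choose c Λ hrep using hrep
  set w := p / 4 with hw
  have hw4 : 4 * w ≤ p := by omega
  have hw8 : p ≤ 8 * w := by omega
  obtain ⟨S', Z', z', h1, h2, h3, h4, h5⟩ :=
    h.iterate hG hM hrep hp (w := w) (by omega) w (by omega)
  have hrep' : ∀ t x, (∀ v ∈ Z', x v = z' v) → (H t x ↔ c t ∨ ∃ l ∈ Λ t, x l.1 = l.2) := by
    intro t x hx
    apply hrep t x
    intro v hv
    rw [hx v (h3 hv), h4 v hv]
  have hne := h1.exists_wide (Λ := Λ) hG hM hrep' hsound hlast (w := w) (by omega) (by omega)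
  have h6 : (1 : ℝ) ≤ ((wide H Λ w S' Z' z').card : ℝ) := by
    exact_mod_cast Finset.card_pos.mpr hne
  have hp0 : (0 : ℝ) < p := by exact_mod_cast (by omega : 0 < p)
  have h7 : (1 - (w : ℝ) / (2 * p)) ^ w ≤ Real.exp (-(p / 128)) := by
    have e1 : (1 - (w : ℝ) / (2 * p)) ≤ Real.exp (-((w : ℝ) / (2 * p))) := by
      have := Real.add_one_le_exp (-((w : ℝ) / (2 * p)))
      linarith
    have e0 : (0 : ℝ) ≤ 1 - w / (2 * p) := by
      rw [sub_nonneg, div_le_one (by positivity)]
      exact_mod_cast (by omega : w ≤ 2 * p)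
    calc (1 - (w : ℝ) / (2 * p)) ^ w ≤ (Real.exp (-((w : ℝ) / (2 * p)))) ^ w :=
          pow_le_pow_left₀ e0 e1 w
      _ = Real.exp (-((w : ℝ) / (2 * p)) * w) := by
          rw [← Real.exp_nat_mul]
          ring_nf
      _ ≤ Real.exp (-(p / 128)) := by
          apply Real.exp_le_exp.mpr
          have e2 : (p : ℝ) ≤ 8 * w := by exact_mod_cast hw8
          have e3 : (p : ℝ) / 128 ≤ (w : ℝ) / (2 * p) * w := by
            rw [div_mul_eq_mul_div, div_le_div_iff₀ (by norm_num) (by positivity)]
            nlinarith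
          linarith
  have h8 : (1 : ℝ) ≤ L * Real.exp (-(p / 128)) :=
    h6.trans (h5.trans (mul_le_mul_of_nonneg_left h7 (by positivity)))
  have h9 : Real.exp (p / 128) * Real.exp (-(p / 128)) = 1 := by
    rw [← Real.exp_add]; simp
  have h10 : (0 : ℝ) < Real.exp (-(p / 128)) := Real.exp_pos _
  by_contra hcon
  push Not at hcon
  have : (L : ℝ) * Real.exp (-(p / 128)) < Real.exp (p / 128) * Real.exp (-(p / 128)) :=
    mul_lt_mul_of_pos_right hcon h10
  linarith

end Pool.Agent.MP_e81270_lc
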