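import Pool.Agent.Lib.MP_e81270_lc.Formula

/-!
# The main theorem
-/

set_option autoImplicit false

namespace Pool.Agent.MP_e81270_lc

theorem clog_bounds {n : ℕ} (hn : 2 ≤ n) : n ≤ 2 ^ Nat.clog 2 n ∧ 2 ^ Nat.clog 2 n ≤ 2 * n := by
  refine ⟨Nat.le_pow_clog (by norm_num) n, ?_⟩
  have h1 : 0 < Nat.clog 2 n := Nat.clog_pos (by norm_num) hn
  have h2 : 2 ^ (Nat.clog 2 n).pred < n := Nat.pow_pred_clog_lt_self (by norm_num) hn
  have h3 : 2 ^ Nat.clog 2 n = 2 * 2 ^ (Nat.clog 2 n).pred := by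
    rw [← pow_succ']
    congr 1
    exact (Nat.succ_pred_eq_of_pos h1).symm
  omega

theorem clog_le_log {n : ℕ} (hn : 2 ≤ n) :
    (3 : ℝ) * (Nat.clog 2 n : ℝ) + 2 ≤ 12 * Real.log n := by
  have h1 := (clog_bounds hn).2
  have hn0 : (0 : ℝ) < n := by exact_mod_cast (by omega : 0 < n)
  have h2 : ((2 : ℝ) ^ Nat.clog 2 n) ≤ 2 * n := by exact_mod_cast h1
  have h3 : (Nat.clog 2 n : ℝ) * Real.log 2 ≤ Real.log 2 + Real.log n := by
    rw [← Real.log_pow, ← Real.log_mul (by norm_num) hn0.ne']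
    exact Real.log_le_log (by positivity) h2
  have h4 : (0.6931471803 : ℝ) < Real.log 2 := Real.log_two_gt_d9
  have h5 : Real.log 2 ≤ Real.log n :=
    Real.log_le_log (by norm_num) (by exact_mod_cast hn)
  have h6 : Real.log 2 < 0.6931471808 := Real.log_two_lt_d9
  have h7 : (0 : ℝ) ≤ (Nat.clog 2 n : ℝ) := by positivity
  nlinarith

theorem two_pow_b_le {n D : ℕ} (hn : 2 ≤ n) :
    2 ^ (D * (3 * Nat.clog 2 n + 2)) ≤ n ^ (8 * D) := by
  have h1 := (clog_bounds hn).2
  have h2 : 2 ^ (D * (3 * Nat.clog 2 n + 2)) = (2 ^ Nat.clog 2 n) ^ (3 * D) * 4 ^ D := by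
    rw [show (4 : ℕ) = 2 ^ 2 by norm_num, ← pow_mul, ← pow_mul, ← pow_add]
    congr 1
    ring
  rw [h2]
  have h3 : 2 * n ≤ n ^ 2 := by nlinarith
  have h4 : 4 ≤ n ^ 2 := by nlinarith
  calc (2 ^ Nat.clog 2 n) ^ (3 * D) * 4 ^ D ≤ (n ^ 2) ^ (3 * D) * (n ^ 2) ^ D :=
        Nat.mul_le_mul (Nat.pow_le_pow_left (h1.trans h3) _) (Nat.pow_le_pow_left h4 _)
    _ = n ^ (8 * D) := by
        rw [← pow_add, ← pow_mul]
        congr 1
        ring

theorem main (δ : ℝ) (hδ : 0 < δ) : ∃ c : ℝ, 0 < c ∧ ∃ K n₀ : ℕ, ∀ n ≥ n₀,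
    ∃ (V : Type) (_ : Fintype V) (F : CNF V), n ≤ Fintype.card V ∧ Fintype.card V ≤ n ^ 2 ∧
      Unsat F ∧ F.length ≤ n ^ K ∧ (∀ C ∈ F, C.length ≤ n) ∧
      ∀ (k L : ℕ) (R : Refutation F k L) (J : Finset V) (I : Finset (Fin k)),
        R.defs.DefinedFrom J I →
        ((3 * J.card + R.defs.costOutside I : ℕ) : ℝ) ≤ (3 - δ) * Fintype.card V →
        Real.exp (c * Fintype.card V / Real.log (Fintype.card V)) ≤ L := by
  obtain ⟨D, hD1, hD2⟩ : ∃ D : ℕ, 18 ≤ D ∧ 18 ≤ δ * D := by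
    refine ⟨⌈18 / δ⌉₊ + 18, by omega, ?_⟩
    have h1 : 18 / δ ≤ ⌈18 / δ⌉₊ := Nat.le_ceil _
    rw [div_le_iff₀ hδ] at h1
    push_cast
    nlinarith
  have hD0 : (0 : ℝ) < D := by exact_mod_cast (by omega : 0 < D)
  -- eventual inequalities
  have ev1 : ∀ᶠ n : ℕ in Filter.atTop, (n : ℝ) ^ (16 * D + 1) * Real.exp (-n) < 1 := by
    have h1 := (Real.tendsto_pow_mul_exp_neg_atTop_nhds_zero (16 * D + 1)).comp
      tendsto_natCast_atTop_atTop
    exact h1.eventually_lt_const (by norm_num)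
  have ev2 : ∀ᶠ n : ℕ in Filter.atTop, Real.log n ≤ 1 / (24 * D) * n := by
    have h1 := Real.isLittleO_log_id_atTop.bound (c := 1 / (24 * D)) (by positivity)
    have h2 := tendsto_natCast_atTop_atTop (R := ℝ) |>.eventually h1
    filter_upwards [h2] with n hn
    simp only [id, Real.norm_eq_abs] at hn
    have h3 : |(n : ℝ)| = n := abs_of_nonneg (by positivity)
    rw [h3] at hn
    exact (le_abs_self _).trans hn
  obtain ⟨n₀, hn₀⟩ := Filter.eventually_atTop.mp (ev1.and (ev2.and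
    (Filter.eventually_ge_atTop (8 * D))))
  refine ⟨1 / (3072 * D ^ 2), by positivity, 16 * D + 4, n₀, ?_⟩
  intro n hn
  obtain ⟨h1, h2, h3⟩ := hn₀ n hn
  have hn2 : 2 ≤ n := by omega
  have hn0 : (0 : ℝ) < n := by exact_mod_cast (by omega : 0 < n)
  set ℓ := Nat.clog 2 n with hℓ
  set q := 3 * ℓ + 1 with hq
  set b := D * (3 * ℓ + 2) with hb
  have hbD : (b : ℝ) = D * (3 * ℓ + 2) := by rw [hb]; push_cast; ring
  have hlog : (3 : ℝ) * ℓ + 2 ≤ 12 * Real.log n := clog_le_log hn2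
  have hb12 : (b : ℝ) ≤ 12 * D * Real.log n := by
    rw [hbD]
    nlinarith
  have hb2 : (2 * b : ℝ) ≤ n := by
    calc (2 * b : ℝ) ≤ 24 * D * Real.log n := by linarith
      _ ≤ 24 * D * (1 / (24 * D) * n) := by
          apply mul_le_mul_of_nonneg_left h2 (by positivity)
      _ = n := by field_simp
  have hb2' : 2 * b ≤ n := by exact_mod_cast hb2
  have h2b : 2 ^ b ≤ n ^ (8 * D) := two_pow_b_le hn2
  -- the rich map
  obtain ⟨G, hG⟩ : ∃ G : (Fin b → Bool) → Fin n, Rich q G := by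
    apply exists_rich (by omega) (by omega)
    have e1 : (4 : ℝ) ^ b ≤ (n : ℝ) ^ (16 * D) := by
      have : ((2 ^ b : ℕ) : ℝ) ≤ ((n ^ (8 * D) : ℕ) : ℝ) := by exact_mod_cast h2b
      push_cast at this
      calc (4 : ℝ) ^ b = (2 ^ b) * (2 ^ b) := by
            rw [← mul_pow]; norm_num
        _ ≤ (n : ℝ) ^ (8 * D) * (n : ℝ) ^ (8 * D) :=
            mul_le_mul this this (by positivity) (by positivity)
        _ = (n : ℝ) ^ (16 * D) := by
            rw [← pow_add]
            congr 1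
            ring
    have e2 : (1 - 1 / (n : ℝ) ^ 2) ^ (2 ^ (q - 1)) ≤ Real.exp (-n) := by
      have e3 : (1 - 1 / (n : ℝ) ^ 2) ≤ Real.exp (-(1 / (n : ℝ) ^ 2)) := by
        have := Real.add_one_le_exp (-(1 / (n : ℝ) ^ 2))
        linarith
      have e4 : (0 : ℝ) ≤ 1 - 1 / (n : ℝ) ^ 2 := by
        have : (1 : ℝ) ≤ n := by exact_mod_cast (by omega : 1 ≤ n)
        rw [sub_nonneg, div_le_one (by positivity)]
        nlinarith
      have e5 : (n : ℝ) ^ 3 ≤ ((2 ^ (q - 1) : ℕ) : ℝ) := by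
        have e6 : n ^ 3 ≤ 2 ^ (q - 1) := by
          calc n ^ 3 ≤ (2 ^ ℓ) ^ 3 := Nat.pow_le_pow_left (clog_bounds hn2).1 3
            _ = 2 ^ (q - 1) := by
                rw [← pow_mul]
                congr 1
                omega
        exact_mod_cast e6
      calc (1 - 1 / (n : ℝ) ^ 2) ^ (2 ^ (q - 1))
          ≤ (Real.exp (-(1 / (n : ℝ) ^ 2))) ^ (2 ^ (q - 1)) := pow_le_pow_left₀ e4 e3 _
        _ = Real.exp (((2 ^ (q - 1) : ℕ) : ℝ) * -(1 / (n : ℝ) ^ 2)) := by
            rw [Real.exp_nat_mul]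
        _ ≤ Real.exp (-n) := by
            apply Real.exp_le_exp.mpr
            have e7 : (n : ℝ) ^ 3 * (1 / (n : ℝ) ^ 2) = n := by
              field_simp
            have e8 : (n : ℝ) ^ 3 * (1 / (n : ℝ) ^ 2) ≤
                ((2 ^ (q - 1) : ℕ) : ℝ) * (1 / (n : ℝ) ^ 2) :=
              mul_le_mul_of_nonneg_right e5 (by positivity)
            linarith
    calc (4 : ℝ) ^ b * n * (1 - 1 / (n : ℝ) ^ 2) ^ (2 ^ (q - 1))
        ≤ (n : ℝ) ^ (16 * D) * n * Real.exp (-n) := by
          apply mul_le_mul _ e2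
          · have : (1 : ℝ) ≤ n := by exact_mod_cast (by omega : 1 ≤ n)
            have : (0 : ℝ) ≤ 1 - 1 / (n : ℝ) ^ 2 := by
              rw [sub_nonneg, div_le_one (by positivity)]
              nlinarith
            positivity
          · positivity
          · exact mul_le_mul_of_nonneg_right e1 hn0.le
      _ = (n : ℝ) ^ (16 * D + 1) * Real.exp (-n) := by rw [pow_succ]
      _ < 1 := h1
  have hcard : Fintype.card (Fin (n + 1) × Fin b) = (n + 1) * b := by simp
  have hbpos : 0 < b := by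
    rw [hb]
    apply Nat.mul_pos (by omega) (by omega)
  refine ⟨Fin (n + 1) × Fin b, inferInstance, formula (n + 1) G, ?_, ?_, formula_unsat rfl G,
    ?_, ?_, ?_⟩
  · rw [hcard]
    nlinarith
  · rw [hcard]
    nlinarith
  · refine (formula_length (n + 1) G).trans ?_
    calc ((n + 1) * 2 ^ b) ^ 2 ≤ (n ^ 2 * n ^ (8 * D)) ^ 2 := by
          apply Nat.pow_le_pow_left
          exact Nat.mul_le_mul (by nlinarith) h2b
      _ = n ^ (16 * D + 4) := by
          rw [← pow_add, ← pow_mul]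
          congr 1
          ring
  · intro C hC
    rw [formula_width hC]
    exact hb2'
  · intro k L R J I hI hcost
    set s := (n + 1) / D with hs
    have hs8 : 8 ≤ s := by
      rw [hs, Nat.le_div_iff_mul_le (by omega)]
      omega
    have hsD : s * D ≤ n + 1 := Nat.div_mul_le_self _ _
    have hsD' : n + 1 < (s + 1) * D := by
      have e1 := Nat.div_add_mod (n + 1) D
      have e2 := Nat.mod_lt (n + 1) (by omega : 0 < D)
      rw [← hs] at e1
      nlinarith
    have hsDr : (s : ℝ) * D ≤ n + 1 := by exact_mod_cast hsD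
    rw [hcard] at hcost
    push_cast at hcost
    have hlow := formula_lower hG (by rw [hb]; nlinarith) rfl hs8 R hI (by
      have e1 : (((9 * b * s + 9 * (q + 1) * (n + 1) + (3 * J.card + R.defs.costOutside I) : ℕ))
          : ℝ) ≤ ((3 * ((n + 1) * b) : ℕ) : ℝ) := by
        push_cast
        have e2 : (9 : ℝ) * b * s * D ≤ 9 * b * (n + 1) := by
          have : (9 : ℝ) * b * s * D = 9 * b * (s * D) := by ring
          rw [this]
          exact mul_le_mul_of_nonneg_left hsDr (by positivity)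
        have e3 : (9 : ℝ) * (q + 1) * (n + 1) * D = 9 * b * (n + 1) := by
          rw [hbD, hq]
          push_cast
          ring
        have e4 : ((9 : ℝ) * b * s + 9 * (q + 1) * (n + 1)) * D ≤
            (δ * ((n + 1) * b)) * D := by
          have e5 : (δ * ((n + 1) * b)) * D = (δ * D) * ((n + 1) * b) := by ring
          rw [e5]
          have e6 : (18 : ℝ) * ((n + 1) * b) ≤ (δ * D) * ((n + 1) * b) :=
            mul_le_mul_of_nonneg_right hD2 (by positivity)
          linarith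
        have e7 := le_of_mul_le_mul_right e4 hD0
        linarith
      exact_mod_cast e1)
    refine le_trans (Real.exp_le_exp.mpr ?_) hlow
    rw [hcard]
    push_cast
    have hlogn : 0 < Real.log n := Real.log_pos (by exact_mod_cast (by omega : 1 < n))
    have hb1 : (1 : ℝ) ≤ b := by exact_mod_cast hbpos
    have hlogN : Real.log n ≤ Real.log (((n : ℝ) + 1) * b) := by
      apply Real.log_le_log hn0
      nlinarith
    have hs2 : ((n : ℝ) + 1) ≤ 2 * s * D := by
      have e1 : ((n + 1 : ℕ) : ℝ) ≤ (((s + 1) * D : ℕ) : ℝ) := by exact_mod_cast hsD'.le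
      push_cast at e1
      have e2 : (1 : ℝ) ≤ s := by exact_mod_cast (by omega : 1 ≤ s)
      nlinarith
    rw [div_le_iff₀ (by linarith)]
    calc 1 / (3072 * (D : ℝ) ^ 2) * ((n + 1) * b)
        ≤ 1 / (3072 * (D : ℝ) ^ 2) * ((2 * s * D) * (12 * D * Real.log n)) := by
          apply mul_le_mul_of_nonneg_left _ (by positivity)
          exact mul_le_mul hs2 hb12 (by positivity) (by positivity)
      _ = s / 128 * Real.log n := by
          field_simp
          ring
      _ ≤ s / 128 * Real.log (((n : ℝ) + 1) * b) :=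
          mul_le_mul_of_nonneg_left hlogN (by positivity)

end Pool.Agent.MP_e81270_lc
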