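import Pool.Agent.Lib.MP_e81270_lc.PhpDefs

/-!
# The pigeonhole principle on a dense bipartite graph
-/

set_option autoImplicit false

namespace Pool.Agent.MP_e81270_lc

namespace Php

variable {n L : ℕ}

/-- The set of pairs `N` is a matching. -/
def IsM (N : Finset (Fin (n + 1) × Fin n)) : Prop :=
  ∀ v ∈ N, ∀ w ∈ N, (v.1 = w.1 ∨ v.2 = w.2) → v = w

/-- The assignment given by a set of pairs. -/
def ind (N : Finset (Fin (n + 1) × Fin n)) : Fin (n + 1) × Fin n → Bool := fun v => decide (v ∈ N)

theorem ind_true {N : Finset (Fin (n + 1) × Fin n)} {v : Fin (n + 1) × Fin n} :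
    ind N v = true ↔ v ∈ N := by simp [ind]

theorem ind_false {N : Finset (Fin (n + 1) × Fin n)} {v : Fin (n + 1) × Fin n} :
    ind N v = false ↔ v ∉ N := by simp [ind]

/-- Some pigeons (those outside `P`) are matched by `M₀`; the others have at least `D` free edges
in `E`. -/
structure MState (M₀ : Finset (Fin (n + 1) × Fin n)) (P : Finset (Fin (n + 1)))
    (E : Finset (Fin (n + 1) × Fin n)) (D : ℕ) : Prop where
  m0 : IsM M₀
  cov : ∀ i, i ∉ P → ∃ v ∈ M₀, v.1 = i
  eP : ∀ v ∈ E, v.1 ∈ P
  e1 : ∀ v ∈ E, ∀ w ∈ M₀, v.1 ≠ w.1 ∧ v.2 ≠ w.2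
  deg : ∀ i ∈ P, D ≤ (E.filter (fun v => v.1 = i)).card

variable {M₀ : Finset (Fin (n + 1) × Fin n)} {P : Finset (Fin (n + 1))}
  {E : Finset (Fin (n + 1) × Fin n)} {D a : ℕ}
  {H : Fin L → (Fin (n + 1) × Fin n → Bool) → Prop}
  {Λ : Fin L → Set ((Fin (n + 1) × Fin n) × Bool)} {c : Fin L → Prop}

/-- The line `t` is falsified by some matching. -/
def Alive (H : Fin L → (Fin (n + 1) × Fin n → Bool) → Prop)
    (M₀ E : Finset (Fin (n + 1) × Fin n)) (t : Fin L) : Prop :=
  ∃ M, M ⊆ E ∧ IsM M ∧ ¬ H t (ind (M₀ ∪ M))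

open scoped Classical in
/-- The literals of the line `t` of sign `s` in `E`. -/
noncomputable def lits (Λ : Fin L → Set ((Fin (n + 1) × Fin n) × Bool))
    (E : Finset (Fin (n + 1) × Fin n)) (s : Bool) (t : Fin L) :
    Finset (Fin (n + 1) × Fin n) :=
  E.filter (fun v => (v, s) ∈ Λ t)

open scoped Classical in
/-- The wide lines. -/
noncomputable def wideM (H : Fin L → (Fin (n + 1) × Fin n → Bool) → Prop)
    (Λ : Fin L → Set ((Fin (n + 1) × Fin n) × Bool)) (a : ℕ)
    (M₀ E : Finset (Fin (n + 1) × Fin n)) : Finset (Fin L) :=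
  Finset.univ.filter (fun t => Alive H M₀ E t ∧
    (2 * a ≤ (lits Λ E false t).card ∨ 2 * a ^ 2 ≤ (lits Λ E true t).card))

theorem IsM.subset {N N' : Finset (Fin (n + 1) × Fin n)} (h : IsM N) (hs : N' ⊆ N) : IsM N' :=
  fun v hv w hw => h v (hs hv) w (hs hw)

theorem IsM.insert {N : Finset (Fin (n + 1) × Fin n)} (h : IsM N) {e : Fin (n + 1) × Fin n}
    (he : ∀ w ∈ N, e.1 ≠ w.1 ∧ e.2 ≠ w.2) : IsM (insert e N) := by
  intro v hv w hw hvw
  rw [Finset.mem_insert] at hv hw
  rcases hv with rfl | hv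
  · rcases hw with rfl | hw
    · rfl
    · have := he w hw
      tauto
  · rcases hw with rfl | hw
    · have := he v hv
      rcases hvw with h1 | h1
      · exact absurd h1.symm this.1
      · exact absurd h1.symm this.2
    · exact h v hv w hw hvw

theorem MState.union (h : MState M₀ P E D) {M : Finset (Fin (n + 1) × Fin n)} (hM : M ⊆ E)
    (hM' : IsM M) : IsM (M₀ ∪ M) := by
  intro v hv w hw hvw
  rw [Finset.mem_union] at hv hw
  rcases hv with hv | hv
  · rcases hw with hw | hw
    · exact h.m0 v hv w hw hvw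
    · have := h.e1 w (hM hw) v hv
      rcases hvw with h1 | h1
      · exact absurd h1.symm this.1
      · exact absurd h1.symm this.2
  · rcases hw with hw | hw
    · have := h.e1 v (hM hv) w hw
      tauto
    · exact hM' v hv w hw hvw

/-- The remaining edges after the edge `e` is put into the matching. -/
def rest (E : Finset (Fin (n + 1) × Fin n)) (e : Fin (n + 1) × Fin n) :
    Finset (Fin (n + 1) × Fin n) := E.filter (fun v => v.1 ≠ e.1 ∧ v.2 ≠ e.2)

theorem MState.step (h : MState M₀ P E (D + 1)) {e : Fin (n + 1) × Fin n} (he : e ∈ E) :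
    MState (insert e M₀) (P.erase e.1) (rest E e) D := by
  refine ⟨?_, ?_, ?_, ?_, ?_⟩
  · exact h.m0.insert (h.e1 e he)
  · intro i hi
    rw [Finset.mem_erase, not_and_or, not_not] at hi
    rcases hi with rfl | hi
    · exact ⟨e, Finset.mem_insert_self _ _, rfl⟩
    · obtain ⟨v, hv, hvi⟩ := h.cov i hi
      exact ⟨v, Finset.mem_insert_of_mem hv, hvi⟩
  · intro v hv
    rw [rest, Finset.mem_filter] at hv
    rw [Finset.mem_erase]
    exact ⟨hv.2.1, h.eP v hv.1⟩
  · intro v hv w hw
    rw [rest, Finset.mem_filter] at hv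
    rw [Finset.mem_insert] at hw
    rcases hw with rfl | hw
    · exact hv.2
    · exact h.e1 v hv.1 w hw
  · intro i hi
    rw [Finset.mem_erase] at hi
    have h1 := h.deg i hi.2
    have h2 : E.filter (fun v => v.1 = i) ⊆
        insert (i, e.2) ((rest E e).filter (fun v => v.1 = i)) := by
      intro v hv
      rw [Finset.mem_filter] at hv
      rw [Finset.mem_insert, Finset.mem_filter, rest, Finset.mem_filter]
      by_cases hve : v.2 = e.2
      · left
        ext
        · rw [hv.2]
        · rw [hve]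
      · right
        refine ⟨⟨hv.1, ?_, hve⟩, hv.2⟩
        rw [hv.2]
        exact hi.1
    have h3 := (Finset.card_le_card h2).trans (Finset.card_insert_le _ _)
    omega

theorem lits_rest (Λ : Fin L → Set ((Fin (n + 1) × Fin n) × Bool))
    (E : Finset (Fin (n + 1) × Fin n)) (e : Fin (n + 1) × Fin n) (s : Bool) (t : Fin L) :
    lits Λ (rest E e) s t ⊆ lits Λ E s t := by
  classical
  intro v hv
  unfold lits at hv ⊢
  rw [Finset.mem_filter] at hv ⊢
  rw [rest, Finset.mem_filter] at hv
  exact ⟨hv.1.1, hv.2⟩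

/-- A matching in the remaining graph extends to one in the graph. -/
theorem rest_matching {e : Fin (n + 1) × Fin n} (he : e ∈ E)
    {M : Finset (Fin (n + 1) × Fin n)} (hM : M ⊆ rest E e) (hM' : IsM M) :
    insert e M ⊆ E ∧ IsM (insert e M) := by
  constructor
  · rw [Finset.insert_subset_iff]
    refine ⟨he, fun v hv => ?_⟩
    have := hM hv
    rw [rest, Finset.mem_filter] at this
    exact this.1
  · apply hM'.insert
    intro w hw
    have := hM hw
    rw [rest, Finset.mem_filter] at this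
    exact ⟨this.2.1.symm, this.2.2.symm⟩

theorem alive_rest {e : Fin (n + 1) × Fin n} (he : e ∈ E) {t : Fin L}
    (h : Alive H (insert e M₀) (rest E e) t) : Alive H M₀ E t := by
  obtain ⟨M, hM1, hM2, hM3⟩ := h
  obtain ⟨h1, h2⟩ := rest_matching he hM1 hM2
  refine ⟨insert e M, h1, h2, ?_⟩
  rw [Finset.union_insert, ← Finset.insert_union]
  exact hM3

theorem wideM_rest {e : Fin (n + 1) × Fin n} (he : e ∈ E) :
    wideM H Λ a (insert e M₀) (rest E e) ⊆ wideM H Λ a M₀ E := by
  classical
  intro t ht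
  unfold wideM at ht ⊢
  rw [Finset.mem_filter] at ht ⊢
  refine ⟨Finset.mem_univ _, alive_rest he ht.2.1, ?_⟩
  rcases ht.2.2 with h1 | h1
  · left
    exact h1.trans (Finset.card_le_card (lits_rest Λ E e false t))
  · right
    exact h1.trans (Finset.card_le_card (lits_rest Λ E e true t))

/-- Every wide line is killed by many edges. -/
theorem MState.kill_many (h : MState M₀ P E D)
    (hrep : ∀ t M, M ⊆ E → IsM M →
      (H t (ind (M₀ ∪ M)) ↔ c t ∨ ∃ l ∈ Λ t, ind (M₀ ∪ M) l.1 = l.2))
    (ha : a + 1 ≤ D) {t : Fin L} (ht : t ∈ wideM H Λ a M₀ E) :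
    2 * a ^ 2 ≤ (E.filter (fun e => t ∉ wideM H Λ a (insert e M₀) (rest E e))).card := by
  classical
  have ht' := ht
  unfold wideM at ht'
  rw [Finset.mem_filter] at ht'
  obtain ⟨_, ⟨M, hM1, hM2, hM3⟩, hwide⟩ := ht'
  -- after adding `e`, the assignments have the form below
  have hnew : ∀ e ∈ E, t ∈ wideM H Λ a (insert e M₀) (rest E e) →
      ∃ M, M ⊆ rest E e ∧ IsM M ∧ ¬ (∃ l ∈ Λ t, ind (insert e M₀ ∪ M) l.1 = l.2) := by
    intro e he hte
    unfold wideM at hte
    rw [Finset.mem_filter] at hte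
    obtain ⟨M', k1, k2, k3⟩ := hte.2.1
    refine ⟨M', k1, k2, ?_⟩
    obtain ⟨k4, k5⟩ := rest_matching he k1 k2
    have k6 := hrep t (insert e M') k4 k5
    have k7 : M₀ ∪ insert e M' = insert e M₀ ∪ M' := by
      rw [Finset.union_insert, ← Finset.insert_union]
    rw [k7] at k6
    intro hcon
    exact k3 (k6.mpr (Or.inr hcon))
  rcases hwide with hneg | hpos
  · -- many negative literals
    have hnot : ¬ (∃ l ∈ Λ t, ind (M₀ ∪ M) l.1 = l.2) := by
      intro hcon
      exact hM3 ((hrep t M hM1 hM2).mpr (Or.inr hcon))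
    have hNM : ∀ v ∈ lits Λ E false t, v ∈ M := by
      intro v hv
      unfold lits at hv
      rw [Finset.mem_filter] at hv
      by_contra hvM
      apply hnot
      refine ⟨(v, false), hv.2, ?_⟩
      rw [ind_false, Finset.mem_union, not_or]
      refine ⟨?_, hvM⟩
      intro hv0
      exact (h.e1 v hv.1 v hv0).1 rfl
    -- the edges at the pigeons of negative literals
    have hsub : (lits Λ E false t).biUnion
        (fun v => (E.filter (fun e => e.1 = v.1)).erase v) ⊆
        E.filter (fun e => t ∉ wideM H Λ a (insert e M₀) (rest E e)) := by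
      intro e he
      rw [Finset.mem_biUnion] at he
      obtain ⟨v, hv, he⟩ := he
      rw [Finset.mem_erase, Finset.mem_filter] at he
      rw [Finset.mem_filter]
      refine ⟨he.2.1, ?_⟩
      intro hte
      obtain ⟨M', k1, k2, k3⟩ := hnew e he.2.1 hte
      apply k3
      unfold lits at hv
      rw [Finset.mem_filter] at hv
      refine ⟨(v, false), hv.2, ?_⟩
      rw [ind_false, Finset.mem_union, Finset.mem_insert, not_or, not_or]
      refine ⟨⟨he.1.symm, ?_⟩, ?_⟩
      · intro hv0
        exact (h.e1 v hv.1 v hv0).1 rfl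
      · intro hvM
        have := k1 hvM
        rw [rest, Finset.mem_filter] at this
        exact this.2.1 he.2.2.symm
    have hcard : (lits Λ E false t).card * a ≤ ((lits Λ E false t).biUnion
        (fun v => (E.filter (fun e => e.1 = v.1)).erase v)).card := by
      rw [Finset.card_biUnion]
      · rw [← smul_eq_mul, ← Finset.sum_const]
        apply Finset.sum_le_sum
        intro v hv
        have hvE : v ∈ E := by
          unfold lits at hv
          rw [Finset.mem_filter] at hv
          exact hv.1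
        have h1 := h.deg v.1 (h.eP v hvE)
        rw [Finset.card_erase_of_mem (by rw [Finset.mem_filter]; exact ⟨hvE, rfl⟩)]
        omega
      · intro v hv w hw hvw
        rw [Function.onFun, Finset.disjoint_left]
        intro e he he'
        rw [Finset.mem_erase, Finset.mem_filter] at he he'
        apply hvw
        exact hM2 v (hNM v hv) w (hNM w hw) (Or.inl (he.2.2.symm.trans he'.2.2))
    calc 2 * a ^ 2 = (2 * a) * a := by ring
      _ ≤ (lits Λ E false t).card * a := Nat.mul_le_mul_right _ hneg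
      _ ≤ _ := hcard.trans (Finset.card_le_card hsub)
  · -- many positive literals
    refine hpos.trans (Finset.card_le_card ?_)
    intro e he
    unfold lits at he
    rw [Finset.mem_filter] at he ⊢
    refine ⟨he.1, ?_⟩
    intro hte
    obtain ⟨M', k1, k2, k3⟩ := hnew e he.1 hte
    apply k3
    refine ⟨(e, true), he.2, ?_⟩
    rw [ind_true]
    exact Finset.mem_union_left _ (Finset.mem_insert_self _ _)

/-- One more edge can be put into the matching such that a good part of the wide lines die. -/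
theorem MState.kill (h : MState M₀ P E (D + 1)) (hP : P.Nonempty)
    (hrep : ∀ t M, M ⊆ E → IsM M →
      (H t (ind (M₀ ∪ M)) ↔ c t ∨ ∃ l ∈ Λ t, ind (M₀ ∪ M) l.1 = l.2))
    (ha : a ≤ D) :
    ∃ e ∈ E, MState (insert e M₀) (P.erase e.1) (rest E e) D ∧
      (wideM H Λ a (insert e M₀) (rest E e)).card * (n * (n + 1)) +
        (wideM H Λ a M₀ E).card * (2 * a ^ 2) ≤ (wideM H Λ a M₀ E).card * (n * (n + 1)) := by
  classical
  have hEne : E.Nonempty := by
    obtain ⟨i, hi⟩ := hP
    have h1 := h.deg i hi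
    have h2 : (E.filter (fun v => v.1 = i)).Nonempty := by
      rw [← Finset.card_pos]; omega
    obtain ⟨v, hv⟩ := h2
    exact ⟨v, (Finset.mem_filter.mp hv).1⟩
  have hEcard : E.card ≤ n * (n + 1) := by
    have := Finset.card_le_univ E
    simp only [Fintype.card_prod, Fintype.card_fin] at this
    rw [mul_comm]
    exact this
  have hsum : (wideM H Λ a M₀ E).card * (2 * a ^ 2) ≤
      ∑ e ∈ E, ((wideM H Λ a M₀ E) \ wideM H Λ a (insert e M₀) (rest E e)).card := by
    calc (wideM H Λ a M₀ E).card * (2 * a ^ 2)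
        = ∑ t ∈ wideM H Λ a M₀ E, 2 * a ^ 2 := by rw [Finset.sum_const, smul_eq_mul]
      _ ≤ ∑ t ∈ wideM H Λ a M₀ E,
          (E.filter (fun e => t ∉ wideM H Λ a (insert e M₀) (rest E e))).card :=
          Finset.sum_le_sum (fun t ht => h.kill_many hrep (by omega) ht)
      _ = ∑ t ∈ wideM H Λ a M₀ E, ∑ e ∈ E,
          if t ∉ wideM H Λ a (insert e M₀) (rest E e) then 1 else 0 := by
          refine Finset.sum_congr rfl (fun t _ => ?_)
          rw [Finset.card_filter]
      _ = ∑ e ∈ E, ∑ t ∈ wideM H Λ a M₀ E,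
          if t ∉ wideM H Λ a (insert e M₀) (rest E e) then 1 else 0 := Finset.sum_comm
      _ = _ := by
          refine Finset.sum_congr rfl (fun e _ => ?_)
          rw [← Finset.card_filter]
          congr 1
          ext t
          simp
  have hex : ∃ e ∈ E, (wideM H Λ a M₀ E).card * (2 * a ^ 2) ≤
      ((wideM H Λ a M₀ E) \ wideM H Λ a (insert e M₀) (rest E e)).card * (n * (n + 1)) := by
    by_contra hcon
    push Not at hcon
    have h1 : ∑ e ∈ E, ((wideM H Λ a M₀ E) \ wideM H Λ a (insert e M₀) (rest E e)).card *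
        (n * (n + 1)) < ∑ e ∈ E, (wideM H Λ a M₀ E).card * (2 * a ^ 2) :=
      Finset.sum_lt_sum_of_nonempty hEne hcon
    rw [← Finset.sum_mul, Finset.sum_const, smul_eq_mul] at h1
    have h2 := Nat.mul_le_mul_right (n * (n + 1)) hsum
    have h3 : E.card * ((wideM H Λ a M₀ E).card * (2 * a ^ 2)) ≤
        (n * (n + 1)) * ((wideM H Λ a M₀ E).card * (2 * a ^ 2)) :=
      Nat.mul_le_mul_right _ hEcard
    have h4 : (wideM H Λ a M₀ E).card * (2 * a ^ 2) * (n * (n + 1)) =
      (n * (n + 1)) * ((wideM H Λ a M₀ E).card * (2 * a ^ 2)) := by ring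
    omega
  obtain ⟨e, he, he2⟩ := hex
  refine ⟨e, he, h.step he, ?_⟩
  have h1 : ((wideM H Λ a M₀ E) \ wideM H Λ a (insert e M₀) (rest E e)).card +
      (wideM H Λ a (insert e M₀) (rest E e)).card = (wideM H Λ a M₀ E).card :=
    Finset.card_sdiff_add_card_eq_card (wideM_rest he)
  have h2 : (wideM H Λ a (insert e M₀) (rest E e)).card * (n * (n + 1)) +
      ((wideM H Λ a M₀ E) \ wideM H Λ a (insert e M₀) (rest E e)).card * (n * (n + 1)) =
      (wideM H Λ a M₀ E).card * (n * (n + 1)) := by
    rw [← h1]; ring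
  omega

/-- A small set of pigeons can be matched. -/
theorem MState.exists_matching (h : MState M₀ P E D) (S : Finset (Fin (n + 1))) :
    S ⊆ P → S.card ≤ D → ∃ M, M ⊆ E ∧ IsM M ∧ M.card = S.card ∧
      ∀ i ∈ S, ∃ v ∈ M, v.1 = i := by
  classical
  induction S using Finset.induction_on with
  | empty =>
    intro _ _
    exact ⟨∅, by simp, by intro v hv; simp at hv, rfl, by simp⟩
  | @insert i S hiS ih =>
    intro hSP hcard
    rw [Finset.card_insert_of_notMem hiS] at hcard
    rw [Finset.insert_subset_iff] at hSP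
    obtain ⟨M, hM1, hM2, hM3, hM4⟩ := ih hSP.2 (by omega)
    by_cases hcov : ∃ v ∈ M, v.1 = i
    · -- replace by a matching with the right number of edges: impossible to need it
      exfalso
      have h5 : (insert i S).card ≤ M.card := by
        have h6 : insert i S ⊆ M.image Prod.fst := by
          intro l hl
          rw [Finset.mem_image]
          rw [Finset.mem_insert] at hl
          rcases hl with rfl | hl
          · obtain ⟨v, hv, hvl⟩ := hcov
            exact ⟨v, hv, hvl⟩
          · obtain ⟨v, hv, hvl⟩ := hM4 l hl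
            exact ⟨v, hv, hvl⟩
        exact (Finset.card_le_card h6).trans Finset.card_image_le
      rw [Finset.card_insert_of_notMem hiS] at h5
      omega
    · push Not at hcov
      -- a free hole
      have hdeg := h.deg i hSP.1
      obtain ⟨e, he, hee⟩ : ∃ e ∈ E.filter (fun v => v.1 = i), ∀ w ∈ M, e.2 ≠ w.2 := by
        by_contra hcon
        push Not at hcon
        have h5 : (E.filter (fun v => v.1 = i)).card ≤ M.card := by
          have h6 : (E.filter (fun v => v.1 = i)).image Prod.snd ⊆ M.image Prod.snd := by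
            intro j hj
            rw [Finset.mem_image] at hj
            obtain ⟨v, hv, rfl⟩ := hj
            obtain ⟨w, hw, hvw⟩ := hcon v hv
            rw [Finset.mem_image]
            exact ⟨w, hw, hvw.symm⟩
          have h7 : ((E.filter (fun v => v.1 = i)).image Prod.snd).card =
              (E.filter (fun v => v.1 = i)).card := by
            apply Finset.card_image_of_injOn
            intro v hv w hw hvw
            rw [Finset.mem_coe, Finset.mem_filter] at hv hw
            exact Prod.ext (hv.2.trans hw.2.symm) hvw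
          rw [← h7]
          exact (Finset.card_le_card h6).trans Finset.card_image_le
        omega
      rw [Finset.mem_filter] at he
      have heM : e ∉ M := by
        intro hcon
        exact hcov e hcon he.2
      refine ⟨insert e M, ?_, ?_, ?_, ?_⟩
      · rw [Finset.insert_subset_iff]
        exact ⟨he.1, hM1⟩
      · apply hM2.insert
        intro w hw
        refine ⟨?_, hee w hw⟩
        rw [he.2]
        exact fun h => hcov w hw h.symm
      · rw [Finset.card_insert_of_notMem heM, Finset.card_insert_of_notMem hiS, hM3]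
      · intro l hl
        rw [Finset.mem_insert] at hl
        rcases hl with rfl | hl
        · exact ⟨e, Finset.mem_insert_self _ _, he.2⟩
        · obtain ⟨v, hv, hvl⟩ := hM4 l hl
          exact ⟨v, Finset.mem_insert_of_mem hv, hvl⟩

/-- The line `t` holds for all matchings that cover the pigeons in `S`. -/
def WorksM (H : Fin L → (Fin (n + 1) × Fin n → Bool) → Prop)
    (M₀ E : Finset (Fin (n + 1) × Fin n)) (S : Finset (Fin (n + 1))) (t : Fin L) : Prop :=
  ∀ M, M ⊆ E → IsM M → (∀ i ∈ S, ∃ v ∈ M, v.1 = i) → H t (ind (M₀ ∪ M))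

/-- There is a wide line. -/
theorem MState.exists_wide (h : MState M₀ P E D) (ha : 1 ≤ a) (hD : 6 * a ≤ D)
    (hrep : ∀ t M, M ⊆ E → IsM M →
      (H t (ind (M₀ ∪ M)) ↔ c t ∨ ∃ l ∈ Λ t, ind (M₀ ∪ M) l.1 = l.2))
    (hsound : ∀ t, (∃ i, ∀ N, IsM N → (∃ v ∈ N, v.1 = i) → H t (ind N)) ∨
      ∃ Q : Finset (Fin L), Q.card ≤ 2 ∧ (∀ s ∈ Q, s < t) ∧ ∀ x, (∀ s ∈ Q, H s x) → H t x)
    (hlast : ∃ t, ∀ x, ¬ H t x) : (wideM H Λ a M₀ E).Nonempty := by
  classical
  let Small : Fin L → Prop := fun t => ∃ S : Finset (Fin (n + 1)), S ⊆ P ∧ S.card ≤ a ∧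
    WorksM H M₀ E S t
  obtain ⟨t₁, ht₁⟩ := hlast
  have hns : ¬ Small t₁ := by
    rintro ⟨S, hS1, hS2, hS3⟩
    obtain ⟨M, hM1, hM2, _, hM4⟩ := h.exists_matching S hS1 (by omega)
    exact ht₁ _ (hS3 M hM1 hM2 hM4)
  obtain ⟨t, ht, hmin⟩ : ∃ t, ¬ Small t ∧ ∀ s, s < t → Small s := by
    have hne : (Finset.univ.filter (fun t => ¬ Small t)).Nonempty :=
      ⟨t₁, by simpa using hns⟩
    refine ⟨(Finset.univ.filter (fun t => ¬ Small t)).min' hne, ?_, ?_⟩
    · have := Finset.min'_mem _ hne
      simpa using this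
    · intro s hs
      by_contra hcon
      have := Finset.min'_le (Finset.univ.filter (fun t => ¬ Small t)) s (by simpa using hcon)
      exact absurd this (not_le.mpr hs)
  have hwork : ∃ S : Finset (Fin (n + 1)), S ⊆ P ∧ S.card ≤ 2 * a ∧ WorksM H M₀ E S t := by
    rcases hsound t with ⟨i, hax⟩ | ⟨Q, hQ1, hQ2, hQ3⟩
    · by_cases hi : i ∈ P
      · refine ⟨{i}, by simpa using hi, by simp; omega, ?_⟩
        intro M hM1 hM2 hM3
        obtain ⟨v, hv, hvi⟩ := hM3 i (Finset.mem_singleton_self _)
        exact hax _ (h.union hM1 hM2) ⟨v, Finset.mem_union_right _ hv, hvi⟩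
      · refine ⟨∅, by simp, by simp, ?_⟩
        intro M hM1 hM2 _
        obtain ⟨v, hv, hvi⟩ := h.cov i hi
        exact hax _ (h.union hM1 hM2) ⟨v, Finset.mem_union_left _ hv, hvi⟩
    · have hex : ∀ s : Fin L, ∃ S : Finset (Fin (n + 1)), s ∈ Q → (S ⊆ P ∧ S.card ≤ a ∧
          WorksM H M₀ E S s) := by
        intro s
        by_cases hs : s ∈ Q
        · obtain ⟨S, hS⟩ := hmin s (hQ2 s hs)
          exact ⟨S, fun _ => hS⟩
        · exact ⟨∅, fun h => absurd h hs⟩
      choose S hS using hex
      refine ⟨Q.biUnion S, ?_, ?_, ?_⟩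
      · intro i hi
        rw [Finset.mem_biUnion] at hi
        obtain ⟨s, hs, hi⟩ := hi
        exact (hS s hs).1 hi
      · calc (Q.biUnion S).card ≤ ∑ s ∈ Q, (S s).card := Finset.card_biUnion_le
          _ ≤ ∑ s ∈ Q, a := Finset.sum_le_sum (fun s hs => (hS s hs).2.1)
          _ = Q.card * a := by rw [Finset.sum_const, smul_eq_mul]
          _ ≤ 2 * a := Nat.mul_le_mul_right _ hQ1
      · intro M hM1 hM2 hM3
        refine hQ3 _ (fun s hs => (hS s hs).2.2 M hM1 hM2 ?_)
        intro i hi
        exact hM3 i (Finset.mem_biUnion.mpr ⟨s, hs, hi⟩)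
  obtain ⟨S₀, hS₀1, hS₀2, hS₀3⟩ := hwork
  obtain ⟨S, hSS₀, hSw, hSmin⟩ : ∃ S, S ⊆ S₀ ∧ WorksM H M₀ E S t ∧
      ∀ i ∈ S, ¬ WorksM H M₀ E (S.erase i) t := by
    have hne : (S₀.powerset.filter (fun S => WorksM H M₀ E S t)).Nonempty :=
      ⟨S₀, by simp [hS₀3]⟩
    obtain ⟨S, hS, hSm⟩ := Finset.exists_min_image _ Finset.card hne
    rw [Finset.mem_filter, Finset.mem_powerset] at hS
    refine ⟨S, hS.1, hS.2, ?_⟩
    intro i hi hcon
    have h1 := hSm (S.erase i) (by
      rw [Finset.mem_filter, Finset.mem_powerset]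
      exact ⟨(Finset.erase_subset _ _).trans hS.1, hcon⟩)
    have h2 := Finset.card_erase_lt_of_mem hi
    omega
  have hSc : S.card ≤ 2 * a := (Finset.card_le_card hSS₀).trans hS₀2
  have hSbig : a + 1 ≤ S.card := by
    by_contra hcon
    exact ht ⟨S, hSS₀.trans hS₀1, by omega, hSw⟩
  refine ⟨t, ?_⟩
  unfold wideM
  rw [Finset.mem_filter]
  have halive : Alive H M₀ E t := by
    have hSne : S.Nonempty := by
      rw [← Finset.card_pos]; omega
    obtain ⟨i, hi⟩ := hSne
    have hnw := hSmin i hi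
    unfold WorksM at hnw
    push Not at hnw
    obtain ⟨M, hM1, hM2, _, hM4⟩ := hnw
    exact ⟨M, hM1, hM2, hM4⟩
  refine ⟨Finset.mem_univ _, halive, ?_⟩
  by_cases hneg : 2 * a ≤ (lits Λ E false t).card
  · exact Or.inl hneg
  right
  push Not at hneg
  -- positive literals at every pigeon in `S`
  have hpos : ∀ i ∈ S, 2 * a ≤ ((lits Λ E true t).filter (fun v => v.1 = i)).card := by
    intro i hi
    have hnw := hSmin i hi
    unfold WorksM at hnw
    push Not at hnw
    obtain ⟨M, hM1, hM2, hM3, hM4⟩ := hnw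
    have hnot : ¬ (c t ∨ ∃ l ∈ Λ t, ind (M₀ ∪ M) l.1 = l.2) := by
      intro hcon
      exact hM4 ((hrep t M hM1 hM2).mpr hcon)
    rw [not_or] at hnot
    obtain ⟨hc0, hl0⟩ := hnot
    -- the part of `M` that matters
    set M' := M.filter (fun v => v.1 ∈ S.erase i ∨ v ∈ lits Λ E false t) with hM'
    have hM'M : M' ⊆ M := Finset.filter_subset _ _
    have hM'card : M'.card ≤ (S.card - 1) + (lits Λ E false t).card := by
      have h1 : M' ⊆ M.filter (fun v => v.1 ∈ S.erase i) ∪ lits Λ E false t := by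
        intro v hv
        rw [hM', Finset.mem_filter] at hv
        rw [Finset.mem_union, Finset.mem_filter]
        tauto
      have h2 : (M.filter (fun v => v.1 ∈ S.erase i)).card ≤ (S.erase i).card := by
        apply Finset.card_le_card_of_injOn Prod.fst
        · intro v hv
          have := (Finset.mem_filter.mp (Finset.mem_coe.mp hv)).2
          exact this
        · intro v hv w hw hvw
          have hv' := (Finset.mem_filter.mp (Finset.mem_coe.mp hv)).1
          have hw' := (Finset.mem_filter.mp (Finset.mem_coe.mp hw)).1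
          exact hM2 v hv' w hw' (Or.inl hvw)
      have h3 : (S.erase i).card = S.card - 1 := Finset.card_erase_of_mem hi
      have h4 := (Finset.card_le_card h1).trans (Finset.card_union_le _ _)
      omega
    have hicov : ∀ v ∈ M, v.1 ≠ i := by
      intro v hv hvi
      apply hM4
      apply hSw M hM1 hM2
      intro l hl
      by_cases hli : l = i
      · exact ⟨v, hv, by rw [hvi, hli]⟩
      · exact hM3 l (Finset.mem_erase.mpr ⟨hli, hl⟩)
    have hkey : ∀ e ∈ E.filter (fun v => v.1 = i), (∀ w ∈ M', e.2 ≠ w.2) →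
        e ∈ (lits Λ E true t).filter (fun v => v.1 = i) := by
      intro e he hew
      rw [Finset.mem_filter] at he
      have hN1 : insert e M' ⊆ E := by
        rw [Finset.insert_subset_iff]
        exact ⟨he.1, hM'M.trans hM1⟩
      have hN2 : IsM (insert e M') := by
        apply (hM2.subset hM'M).insert
        intro w hw
        refine ⟨?_, hew w hw⟩
        rw [he.2]
        exact fun h => hicov w (hM'M hw) h.symm
      have hN3 : H t (ind (M₀ ∪ insert e M')) := by
        apply hSw _ hN1 hN2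
        intro l hl
        by_cases hli : l = i
        · exact ⟨e, Finset.mem_insert_self _ _, by rw [he.2, hli]⟩
        · obtain ⟨v, hv, hvl⟩ := hM3 l (Finset.mem_erase.mpr ⟨hli, hl⟩)
          refine ⟨v, Finset.mem_insert_of_mem ?_, hvl⟩
          rw [hM', Finset.mem_filter]
          refine ⟨hv, Or.inl ?_⟩
          rw [hvl]
          exact Finset.mem_erase.mpr ⟨hli, hl⟩
      rw [hrep t _ hN1 hN2] at hN3
      rcases hN3 with hN3 | ⟨⟨v, s⟩, hvΛ, hvs⟩
      · exact absurd hN3 hc0
      · simp only at hvs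
        cases s
        · -- a negative literal
          exfalso
          rw [ind_false, Finset.mem_union, Finset.mem_insert, not_or, not_or] at hvs
          apply hl0
          refine ⟨(v, false), hvΛ, ?_⟩
          simp only
          rw [ind_false, Finset.mem_union, not_or]
          refine ⟨hvs.1, ?_⟩
          intro hvM
          apply hvs.2.2
          rw [hM', Finset.mem_filter]
          refine ⟨hvM, Or.inr ?_⟩
          unfold lits
          rw [Finset.mem_filter]
          exact ⟨hM1 hvM, hvΛ⟩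
        · rw [ind_true, Finset.mem_union, Finset.mem_insert] at hvs
          rcases hvs with hvs | rfl | hvs
          · exfalso
            apply hl0
            refine ⟨(v, true), hvΛ, ?_⟩
            simp only
            rw [ind_true]
            exact Finset.mem_union_left _ hvs
          · rw [Finset.mem_filter]
            unfold lits
            rw [Finset.mem_filter]
            exact ⟨⟨he.1, hvΛ⟩, he.2⟩
          · exfalso
            apply hl0
            refine ⟨(v, true), hvΛ, ?_⟩
            simp only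
            rw [ind_true]
            exact Finset.mem_union_right _ (hM'M hvs)
    -- count
    have hdeg := h.deg i (hS₀1 (hSS₀ hi))
    have hsplit : E.filter (fun v => v.1 = i) ⊆
        (lits Λ E true t).filter (fun v => v.1 = i) ∪
          (E.filter (fun v => v.1 = i)).filter (fun e => ∃ w ∈ M', e.2 = w.2) := by
      intro e he
      rw [Finset.mem_union]
      by_cases hew : ∃ w ∈ M', e.2 = w.2
      · right
        rw [Finset.mem_filter]
        exact ⟨he, hew⟩
      · left
        push Not at hew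
        exact hkey e he hew
    have hused : ((E.filter (fun v => v.1 = i)).filter (fun e => ∃ w ∈ M', e.2 = w.2)).card ≤
        M'.card := by
      have h6 : ((E.filter (fun v => v.1 = i)).filter
          (fun e => ∃ w ∈ M', e.2 = w.2)).image Prod.snd ⊆ M'.image Prod.snd := by
        intro j hj
        rw [Finset.mem_image] at hj
        obtain ⟨v, hv, rfl⟩ := hj
        obtain ⟨w, hw, hvw⟩ := (Finset.mem_filter.mp hv).2
        rw [Finset.mem_image]
        exact ⟨w, hw, hvw.symm⟩
      have h7 : (((E.filter (fun v => v.1 = i)).filter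
          (fun e => ∃ w ∈ M', e.2 = w.2)).image Prod.snd).card =
          ((E.filter (fun v => v.1 = i)).filter (fun e => ∃ w ∈ M', e.2 = w.2)).card := by
        apply Finset.card_image_of_injOn
        intro v hv w hw hvw
        rw [Finset.mem_coe, Finset.mem_filter, Finset.mem_filter] at hv hw
        exact Prod.ext (hv.1.2.trans hw.1.2.symm) hvw
      rw [← h7]
      exact (Finset.card_le_card h6).trans Finset.card_image_le
    have h8 := (Finset.card_le_card hsplit).trans (Finset.card_union_le _ _)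
    omega
  have htot : ∑ i ∈ S, ((lits Λ E true t).filter (fun v => v.1 = i)).card ≤
      (lits Λ E true t).card := by
    rw [← Finset.card_biUnion]
    · apply Finset.card_le_card
      intro v hv
      rw [Finset.mem_biUnion] at hv
      obtain ⟨i, _, hv⟩ := hv
      exact (Finset.mem_filter.mp hv).1
    · intro i _ j _ hij
      rw [Function.onFun, Finset.disjoint_left]
      intro v hv hv'
      rw [Finset.mem_filter] at hv hv'
      exact hij (hv.2.symm.trans hv'.2)
  calc 2 * a ^ 2 ≤ (a + 1) * (2 * a) := by nlinarith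
    _ ≤ S.card * (2 * a) := Nat.mul_le_mul_right _ hSbig
    _ = ∑ i ∈ S, 2 * a := by rw [Finset.sum_const, smul_eq_mul]
    _ ≤ ∑ i ∈ S, ((lits Λ E true t).filter (fun v => v.1 = i)).card := Finset.sum_le_sum hpos
    _ ≤ _ := htot

/-- Repeated killing. -/
theorem MState.iterate (h : MState M₀ P E D) {a : ℕ} (ha : 1 ≤ a)
    (hP : 2 * a ≤ P.card)
    (hrep : ∀ t M, M ⊆ E → IsM M →
      (H t (ind (M₀ ∪ M)) ↔ c t ∨ ∃ l ∈ Λ t, ind (M₀ ∪ M) l.1 = l.2))
    (han : 2 * a ^ 2 ≤ n * (n + 1)) (hn : 0 < n) (j : ℕ) (hj : j ≤ 2 * a) (hD : D = 6 * a + 2 * a) :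
    ∃ M₁ P₁ E₁, MState M₁ P₁ E₁ (D - j) ∧ P₁.card + j = P.card ∧ M₀ ⊆ M₁ ∧ E₁ ⊆ E ∧
      (M₁ \ M₀ ⊆ E) ∧ IsM (M₁ \ M₀) ∧ (∀ v ∈ E₁, ∀ w ∈ M₁ \ M₀, v.1 ≠ w.1 ∧ v.2 ≠ w.2) ∧
      ((wideM H Λ a M₁ E₁).card : ℝ) ≤ L * (1 - (2 * a ^ 2 : ℕ) / ((n * (n + 1) : ℕ) : ℝ)) ^ j := by
  classical
  induction j with
  | zero =>
    refine ⟨M₀, P, E, h, rfl, subset_rfl, subset_rfl, by simp, by
      intro v hv; simp at hv, by simp, ?_⟩
    simp only [pow_zero, mul_one, Nat.cast_le]
    simpa using Finset.card_le_univ (wideM H Λ a M₀ E)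
  | succ j ih =>
    obtain ⟨M₁, P₁, E₁, k1, k2, k3, k4, k5, k6, k7, k8⟩ := ih (by omega)
    have hrep' : ∀ t M, M ⊆ E₁ → IsM M →
        (H t (ind (M₁ ∪ M)) ↔ c t ∨ ∃ l ∈ Λ t, ind (M₁ ∪ M) l.1 = l.2) := by
      intro t M hM hM'
      have e1 : M₁ ∪ M = M₀ ∪ ((M₁ \ M₀) ∪ M) := by
        ext v
        simp only [Finset.mem_union, Finset.mem_sdiff]
        constructor
        · rintro (h1 | h1)
          · by_cases h2 : v ∈ M₀
            · exact Or.inl h2
            · exact Or.inr (Or.inl ⟨h1, h2⟩)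
          · exact Or.inr (Or.inr h1)
        · rintro (h1 | h1 | h1)
          · exact Or.inl (k3 h1)
          · exact Or.inl h1.1
          · exact Or.inr h1
      rw [e1]
      apply hrep t
      · exact Finset.union_subset k5 (hM.trans k4)
      · intro v hv w hw hvw
        rw [Finset.mem_union] at hv hw
        rcases hv with hv | hv
        · rcases hw with hw | hw
          · exact k6 v hv w hw hvw
          · have := k7 w (hM hw) v hv
            rcases hvw with h1 | h1
            · exact absurd h1.symm this.1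
            · exact absurd h1.symm this.2
        · rcases hw with hw | hw
          · have := k7 v (hM hv) w hw
            tauto
          · exact hM' v hv w hw hvw
    have hP₁ : P₁.Nonempty := by
      rw [← Finset.card_pos]; omega
    obtain ⟨D', hD'⟩ : ∃ D', D - j = D' + 1 := ⟨D - j - 1, by omega⟩
    rw [hD'] at k1
    obtain ⟨e, he, l1, l2⟩ := k1.kill hP₁ hrep' (a := a) (by omega)
    refine ⟨insert e M₁, P₁.erase e.1, rest E₁ e, ?_, ?_, ?_, ?_, ?_, ?_, ?_, ?_⟩
    · have : D - (j + 1) = D' := by omega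
      rw [this]
      exact l1
    · have := Finset.card_erase_add_one (k1.eP e he)
      omega
    · exact k3.trans (Finset.subset_insert _ _)
    · exact (Finset.filter_subset _ _).trans k4
    · intro v hv
      rw [Finset.mem_sdiff, Finset.mem_insert] at hv
      rcases hv with ⟨rfl | hv, hv'⟩
      · exact k4 he
      · exact k5 (Finset.mem_sdiff.mpr ⟨hv, hv'⟩)
    · have heM : ∀ w ∈ M₁, e.1 ≠ w.1 ∧ e.2 ≠ w.2 := fun w hw => k1.e1 e he w hw
      have : insert e M₁ \ M₀ ⊆ insert e (M₁ \ M₀) := by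
        intro v hv
        rw [Finset.mem_sdiff, Finset.mem_insert] at hv
        rw [Finset.mem_insert, Finset.mem_sdiff]
        tauto
      exact (k6.insert (fun w hw => heM w (Finset.mem_sdiff.mp hw).1)).subset this
    · intro v hv w hw
      rw [rest, Finset.mem_filter] at hv
      rw [Finset.mem_sdiff, Finset.mem_insert] at hw
      rcases hw with ⟨rfl | hw, hw'⟩
      · exact hv.2
      · exact k7 v hv.1 w (Finset.mem_sdiff.mpr ⟨hw, hw'⟩)
    · have hT : (0 : ℝ) < ((n * (n + 1) : ℕ) : ℝ) := by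
        have : 0 < n * (n + 1) := by positivity
        exact_mod_cast this
      have e1 : ((wideM H Λ a (insert e M₁) (rest E₁ e)).card : ℝ) * ((n * (n + 1) : ℕ) : ℝ) +
          ((wideM H Λ a M₁ E₁).card : ℝ) * ((2 * a ^ 2 : ℕ) : ℝ) ≤
          ((wideM H Λ a M₁ E₁).card : ℝ) * ((n * (n + 1) : ℕ) : ℝ) := by
        exact_mod_cast l2
      have e2 : ((wideM H Λ a (insert e M₁) (rest E₁ e)).card : ℝ) ≤
          ((wideM H Λ a M₁ E₁).card : ℝ) *
            (1 - ((2 * a ^ 2 : ℕ) : ℝ) / ((n * (n + 1) : ℕ) : ℝ)) := by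
        have e3 : ((wideM H Λ a M₁ E₁).card : ℝ) *
            (1 - ((2 * a ^ 2 : ℕ) : ℝ) / ((n * (n + 1) : ℕ) : ℝ)) =
            (((wideM H Λ a M₁ E₁).card : ℝ) * ((n * (n + 1) : ℕ) : ℝ) -
            ((wideM H Λ a M₁ E₁).card : ℝ) * ((2 * a ^ 2 : ℕ) : ℝ)) /
              ((n * (n + 1) : ℕ) : ℝ) := by
          field_simp
        rw [e3, le_div_iff₀ hT]
        linarith
      have e4 : (0 : ℝ) ≤ 1 - ((2 * a ^ 2 : ℕ) : ℝ) / ((n * (n + 1) : ℕ) : ℝ) := by
        rw [sub_nonneg, div_le_one hT]
        exact_mod_cast han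
      calc ((wideM H Λ a (insert e M₁) (rest E₁ e)).card : ℝ)
          ≤ ((wideM H Λ a M₁ E₁).card : ℝ) *
            (1 - ((2 * a ^ 2 : ℕ) : ℝ) / ((n * (n + 1) : ℕ) : ℝ)) := e2
        _ ≤ L * (1 - ((2 * a ^ 2 : ℕ) : ℝ) / ((n * (n + 1) : ℕ) : ℝ)) ^ j *
            (1 - ((2 * a ^ 2 : ℕ) : ℝ) / ((n * (n + 1) : ℕ) : ℝ)) :=
            mul_le_mul_of_nonneg_right k8 e4
        _ = _ := by ring

/-- The lower bound on the number of lines, for a dense graph. -/
theorem MState.lower {a : ℕ} (h : MState M₀ P E (8 * a)) (ha : 1 ≤ a) (hP : 2 * a ≤ P.card)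
    (hrep : ∀ t M, M ⊆ E → IsM M →
      (H t (ind (M₀ ∪ M)) ↔ c t ∨ ∃ l ∈ Λ t, ind (M₀ ∪ M) l.1 = l.2))
    (hsound : ∀ t, (∃ i, ∀ N, IsM N → (∃ v ∈ N, v.1 = i) → H t (ind N)) ∨
      ∃ Q : Finset (Fin L), Q.card ≤ 2 ∧ (∀ s ∈ Q, s < t) ∧ ∀ x, (∀ s ∈ Q, H s x) → H t x)
    (hlast : ∃ t, ∀ x, ¬ H t x) :
    Real.exp (4 * a ^ 3 / ((n * (n + 1) : ℕ) : ℝ)) ≤ L := by
  classical
  have hPne : P.Nonempty := by rw [← Finset.card_pos]; omega
  have hdegn : 8 * a ≤ n := by
    obtain ⟨i, hi⟩ := hPne
    have h1 := h.deg i hi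
    have h2 : (E.filter (fun v => v.1 = i)).card ≤ n := by
      have h7 : ((E.filter (fun v => v.1 = i)).image Prod.snd).card =
          (E.filter (fun v => v.1 = i)).card := by
        apply Finset.card_image_of_injOn
        intro v hv w hw hvw
        rw [Finset.mem_coe, Finset.mem_filter] at hv hw
        exact Prod.ext (hv.2.trans hw.2.symm) hvw
      rw [← h7]
      simpa using Finset.card_le_univ ((E.filter (fun v => v.1 = i)).image Prod.snd)
    omega
  have hn : 0 < n := by omega
  have han : 2 * a ^ 2 ≤ n * (n + 1) := by nlinarith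
  obtain ⟨M₁, P₁, E₁, k1, k2, k3, k4, k5, k6, k7, k8⟩ :=
    h.iterate ha hP hrep han hn (2 * a) le_rfl (by ring)
  have hD : 8 * a - 2 * a = 6 * a := by omega
  rw [hD] at k1
  have hrep' : ∀ t M, M ⊆ E₁ → IsM M →
      (H t (ind (M₁ ∪ M)) ↔ c t ∨ ∃ l ∈ Λ t, ind (M₁ ∪ M) l.1 = l.2) := by
    intro t M hM hM'
    have e1 : M₁ ∪ M = M₀ ∪ ((M₁ \ M₀) ∪ M) := by
      ext v
      simp only [Finset.mem_union, Finset.mem_sdiff]
      constructor
      · rintro (h1 | h1)
        · by_cases h2 : v ∈ M₀
          · exact Or.inl h2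
          · exact Or.inr (Or.inl ⟨h1, h2⟩)
        · exact Or.inr (Or.inr h1)
      · rintro (h1 | h1 | h1)
        · exact Or.inl (k3 h1)
        · exact Or.inl h1.1
        · exact Or.inr h1
    rw [e1]
    apply hrep t
    · exact Finset.union_subset k5 (hM.trans k4)
    · intro v hv w hw hvw
      rw [Finset.mem_union] at hv hw
      rcases hv with hv | hv
      · rcases hw with hw | hw
        · exact k6 v hv w hw hvw
        · have := k7 w (hM hw) v hv
          rcases hvw with h1 | h1
          · exact absurd h1.symm this.1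
          · exact absurd h1.symm this.2
      · rcases hw with hw | hw
        · have := k7 v (hM hv) w hw
          tauto
        · exact hM' v hv w hw hvw
  have hne := k1.exists_wide (Λ := Λ) ha le_rfl hrep' hsound hlast
  have h6 : (1 : ℝ) ≤ ((wideM H Λ a M₁ E₁).card : ℝ) := by
    exact_mod_cast Finset.card_pos.mpr hne
  have hT : (0 : ℝ) < ((n * (n + 1) : ℕ) : ℝ) := by
    have : 0 < n * (n + 1) := by positivity
    exact_mod_cast this
  set x : ℝ := ((2 * a ^ 2 : ℕ) : ℝ) / ((n * (n + 1) : ℕ) : ℝ) with hx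
  have hx0 : 0 ≤ 1 - x := by
    rw [hx, sub_nonneg, div_le_one hT]
    exact_mod_cast han
  have h7 : (1 - x) ^ (2 * a) ≤ Real.exp (-(4 * a ^ 3 / ((n * (n + 1) : ℕ) : ℝ))) := by
    have e1 : (1 - x) ≤ Real.exp (-x) := by
      have := Real.add_one_le_exp (-x)
      linarith
    calc (1 - x) ^ (2 * a) ≤ (Real.exp (-x)) ^ (2 * a) := pow_le_pow_left₀ hx0 e1 _
      _ = Real.exp (((2 * a : ℕ) : ℝ) * (-x)) := by rw [← Real.exp_nat_mul]
      _ = Real.exp (-(4 * a ^ 3 / ((n * (n + 1) : ℕ) : ℝ))) := by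
          congr 1
          rw [hx]
          push_cast
          ring
  have h8 : (1 : ℝ) ≤ L * Real.exp (-(4 * a ^ 3 / ((n * (n + 1) : ℕ) : ℝ))) :=
    h6.trans (k8.trans (mul_le_mul_of_nonneg_left h7 (by positivity)))
  by_contra hcon
  push Not at hcon
  have h9 : Real.exp (4 * a ^ 3 / ((n * (n + 1) : ℕ) : ℝ)) *
      Real.exp (-(4 * a ^ 3 / ((n * (n + 1) : ℕ) : ℝ))) = 1 := by
    rw [← Real.exp_add]; simp
  have : (L : ℝ) * Real.exp (-(4 * a ^ 3 / ((n * (n + 1) : ℕ) : ℝ))) <
      Real.exp (4 * a ^ 3 / ((n * (n + 1) : ℕ) : ℝ)) *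
      Real.exp (-(4 * a ^ 3 / ((n * (n + 1) : ℕ) : ℝ))) :=
    mul_lt_mul_of_pos_right hcon (Real.exp_pos _)
  linarith

end Php

end Pool.Agent.MP_e81270_lc
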