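import Pool.Agent.Lib.MP_e81270_lc.Defs

/-!
# The pigeonhole principle as a formula
-/

set_option autoImplicit false

namespace Pool.Agent.MP_e81270_lc

/-- The functional pigeonhole principle with `n + 1` pigeons and `n` holes.  The variable
`(i, j)` says that pigeon `i` sits in hole `j`.  The clauses say that every pigeon sits in some
hole, that no two pigeons sit in the same hole, and that no pigeon sits in two holes. -/
def fphp (n : ℕ) : CNF (Fin (n + 1) × Fin n) :=
  ((List.finRange (n + 1)).map fun i => (List.finRange n).map fun j => ((i, j), true)) ++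
  (((List.finRange (n + 1) ×ˢ List.finRange (n + 1) ×ˢ List.finRange n).filter
    fun a => a.1 ≠ a.2.1).map fun a => [((a.1, a.2.2), false), ((a.2.1, a.2.2), false)]) ++
  (((List.finRange (n + 1) ×ˢ List.finRange n ×ˢ List.finRange n).filter
    fun a => a.2.1 ≠ a.2.2).map fun a => [((a.1, a.2.1), false), ((a.1, a.2.2), false)])

end Pool.Agent.MP_e81270_lc
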