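import Pool.Agent.Lib.MP_e81270_lc.PhpCore
import Pool.Agent.Lib.MP_e81270_lc.Formula

/-!
# The pigeonhole principle and extension variables that depend on few variables
-/

set_option autoImplicit false

namespace Pool.Agent.MP_e81270_lc

namespace Php

/-- Sums over colourings of products are products of sums. -/
theorem sum_colourings {n m : ℕ} (w : Fin n → Fin m → ℝ) :
    ∑ f : Fin n → Fin m, ∏ h, w h (f h) = ∏ h, ∑ c, w h c := by
  rw [Finset.prod_univ_sum, Fintype.piFinset_univ]

/-- The colour class of `0`. -/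
def cls {n m : ℕ} (f : Fin n → Fin (m + 1)) : Finset (Fin n) :=
  Finset.univ.filter (fun h => f h = 0)

theorem sum_half_pow {n m : ℕ} (N : Finset (Fin n)) :
    ∑ f : Fin n → Fin (m + 1), ((1 : ℝ) / 2) ^ (N ∩ cls f).card =
      ((m : ℝ) + 1) ^ n * (1 - 1 / (2 * ((m : ℝ) + 1))) ^ N.card := by
  have h1 : ∀ f : Fin n → Fin (m + 1), ((1 : ℝ) / 2) ^ (N ∩ cls f).card =
      ∏ h, (if h ∈ N ∧ f h = 0 then (1 : ℝ) / 2 else 1) := by
    intro f
    rw [← Finset.prod_filter, Finset.prod_const]
    congr 2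
    ext h
    simp [cls]
  rw [Finset.sum_congr rfl (fun f _ => h1 f),
    sum_colourings (fun h c => if h ∈ N ∧ c = 0 then (1 : ℝ) / 2 else 1)]
  have h2 : ∀ h : Fin n, ∑ c : Fin (m + 1), (if h ∈ N ∧ c = 0 then (1 : ℝ) / 2 else 1) =
      ((m : ℝ) + 1) * (if h ∈ N then (1 - 1 / (2 * ((m : ℝ) + 1))) else 1) := by
    intro h
    rw [Fin.sum_univ_succ]
    by_cases hN : h ∈ N
    · simp [hN, Fin.succ_ne_zero]
      field_simp
      ring
    · simp [hN]
      ring
  rw [Finset.prod_congr rfl (fun h _ => h2 h), Finset.prod_mul_distrib, Finset.prod_const,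
    Finset.prod_ite_mem, Finset.univ_inter, Finset.prod_const]
  simp

theorem sum_two_pow {n m : ℕ} :
    ∑ f : Fin n → Fin (m + 1), (2 : ℝ) ^ (cls f).card =
      ((m : ℝ) + 1) ^ n * (1 + 1 / ((m : ℝ) + 1)) ^ n := by
  have h1 : ∀ f : Fin n → Fin (m + 1), (2 : ℝ) ^ (cls f).card =
      ∏ h, (if f h = 0 then (2 : ℝ) else 1) := by
    intro f
    rw [← Finset.prod_filter, Finset.prod_const]
    rfl
  rw [Finset.sum_congr rfl (fun f _ => h1 f),
    sum_colourings (fun h c => if c = 0 then (2 : ℝ) else 1)]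
  have h2 : ∀ h : Fin n, ∑ c : Fin (m + 1), (if c = 0 then (2 : ℝ) else 1) =
      ((m : ℝ) + 1) * (1 + 1 / ((m : ℝ) + 1)) := by
    intro h
    rw [Fin.sum_univ_succ]
    simp [Fin.succ_ne_zero]
    field_simp
    ring
  rw [Finset.prod_congr rfl (fun h _ => h2 h), Finset.prod_mul_distrib, Finset.prod_const,
    Finset.prod_const]
  simp

/-- A random colour class is small and meets large sets in many elements. -/
theorem exists_class {n m : ℕ} {ι : Type} (P : Finset ι) (N : ι → Finset (Fin n)) (A : ℝ)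
    (hN : ∀ i ∈ P, A ≤ (N i).card)
    (hsmall : (P.card + 1 : ℝ) * Real.exp (-(A / (4 * ((m : ℝ) + 1)))) < 1)
    (hA : A ≤ n) :
    ∃ Q : Finset (Fin n), ((Q.card : ℝ) ≤ 2 * n / ((m : ℝ) + 1)) ∧
      ∀ i ∈ P, A / (4 * ((m : ℝ) + 1)) ≤ ((N i ∩ Q).card : ℝ) := by
  classical
  set μ : ℝ := (m : ℝ) + 1 with hμ
  have hμ1 : 1 ≤ μ := by rw [hμ]; have : (0 : ℝ) ≤ m := by positivity
                         linarith
  have hμ0 : 0 < μ := by linarith
  by_contra hcon
  push Not at hcon
  have hln : (0.6931471803 : ℝ) < Real.log 2 := Real.log_two_gt_d9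
  have hln' : Real.log 2 < 0.6931471808 := Real.log_two_lt_d9
  set t : ℝ := A / (4 * μ) with ht
  set T : ℝ := 2 * n / μ with hT
  have hpt : ∀ f : Fin n → Fin (m + 1), (1 : ℝ) ≤
      ∑ i ∈ P, Real.exp (t * Real.log 2) * ((1 : ℝ) / 2) ^ (N i ∩ cls f).card +
        Real.exp (-(T * Real.log 2)) * (2 : ℝ) ^ (cls f).card := by
    intro f
    have hp1 : ∀ i ∈ P, (0 : ℝ) ≤ Real.exp (t * Real.log 2) *
        ((1 : ℝ) / 2) ^ (N i ∩ cls f).card := fun i _ => by positivity
    by_cases hf : ((cls f).card : ℝ) ≤ T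
    · obtain ⟨i, hi, hlt⟩ := hcon (cls f) hf
      have h1 : (1 : ℝ) ≤ Real.exp (t * Real.log 2) * ((1 : ℝ) / 2) ^ (N i ∩ cls f).card := by
        have h2 : ((1 : ℝ) / 2) ^ (N i ∩ cls f).card =
            Real.exp (-(((N i ∩ cls f).card : ℝ) * Real.log 2)) := by
          rw [one_div, inv_pow, Real.exp_neg, Real.exp_nat_mul, Real.exp_log (by norm_num)]
        rw [h2, ← Real.exp_add]
        apply Real.one_le_exp
        nlinarith
      have h3 := Finset.single_le_sum hp1 hi
      have h4 : (0 : ℝ) ≤ Real.exp (-(T * Real.log 2)) * (2 : ℝ) ^ (cls f).card := by positivity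
      linarith
    · push Not at hf
      have h1 : (1 : ℝ) ≤ Real.exp (-(T * Real.log 2)) * (2 : ℝ) ^ (cls f).card := by
        have h2 : (2 : ℝ) ^ (cls f).card = Real.exp (((cls f).card : ℝ) * Real.log 2) := by
          rw [Real.exp_nat_mul, Real.exp_log (by norm_num)]
        rw [h2, ← Real.exp_add]
        apply Real.one_le_exp
        nlinarith
      have h3 := Finset.sum_nonneg hp1
      linarith
  have hsum := Finset.sum_le_sum (fun f (_ : f ∈ (Finset.univ : Finset (Fin n → Fin (m + 1)))) =>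
    hpt f)
  rw [Finset.sum_const, Finset.sum_add_distrib, Finset.sum_comm, ← Finset.mul_sum,
    sum_two_pow] at hsum
  have hsum2 : ∑ i ∈ P, ∑ f : Fin n → Fin (m + 1),
      Real.exp (t * Real.log 2) * ((1 : ℝ) / 2) ^ (N i ∩ cls f).card =
      ∑ i ∈ P, Real.exp (t * Real.log 2) * (μ ^ n * (1 - 1 / (2 * μ)) ^ (N i).card) := by
    refine Finset.sum_congr rfl (fun i _ => ?_)
    rw [← Finset.mul_sum, sum_half_pow]
  rw [hsum2] at hsum
  have hcard : ((Finset.univ : Finset (Fin n → Fin (m + 1))).card : ℝ) = μ ^ n := by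
    simp [hμ]
  rw [nsmul_eq_mul, mul_one, hcard] at hsum
  have hμn : 0 < μ ^ n := by positivity
  have hb1 : ∀ i ∈ P, Real.exp (t * Real.log 2) * (μ ^ n * (1 - 1 / (2 * μ)) ^ (N i).card) ≤
      μ ^ n * Real.exp (-(A / (4 * μ))) := by
    intro i hi
    have hA0 : A ≤ (N i).card := hN i hi
    have h1 : (1 - 1 / (2 * μ)) ≤ Real.exp (-(1 / (2 * μ))) := by
      have := Real.add_one_le_exp (-(1 / (2 * μ)))
      linarith
    have h0 : (0 : ℝ) ≤ 1 - 1 / (2 * μ) := by
      rw [sub_nonneg, div_le_one (by positivity)]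
      linarith
    have h2 : (1 - 1 / (2 * μ)) ^ (N i).card ≤ Real.exp (-(((N i).card : ℝ) / (2 * μ))) := by
      calc (1 - 1 / (2 * μ)) ^ (N i).card ≤ (Real.exp (-(1 / (2 * μ)))) ^ (N i).card :=
            pow_le_pow_left₀ h0 h1 _
        _ = Real.exp (((N i).card : ℝ) * (-(1 / (2 * μ)))) := by rw [← Real.exp_nat_mul]
        _ = _ := by congr 1; ring
    by_cases hApos : 0 ≤ A
    · calc Real.exp (t * Real.log 2) * (μ ^ n * (1 - 1 / (2 * μ)) ^ (N i).card)
          ≤ Real.exp (t * Real.log 2) * (μ ^ n * Real.exp (-(((N i).card : ℝ) / (2 * μ)))) := by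
            apply mul_le_mul_of_nonneg_left _ (by positivity)
            exact mul_le_mul_of_nonneg_left h2 (by positivity)
        _ = μ ^ n * Real.exp (t * Real.log 2 + -(((N i).card : ℝ) / (2 * μ))) := by
            rw [Real.exp_add]; ring
        _ ≤ μ ^ n * Real.exp (-(A / (4 * μ))) := by
            apply mul_le_mul_of_nonneg_left _ (by positivity)
            apply Real.exp_le_exp.mpr
            have h3 : A / (2 * μ) ≤ ((N i).card : ℝ) / (2 * μ) := by gcongr
            have h4 : A / (2 * μ) = 2 * t := by rw [ht]; field_simp; ring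
            have h5 : 0 ≤ t := by rw [ht]; positivity
            nlinarith
    · push Not at hApos
      -- `A < 0`: impossible by the smallness hypothesis
      exfalso
      have h6 : (1 : ℝ) ≤ Real.exp (-(A / (4 * μ))) := by
        apply Real.one_le_exp
        have : A / (4 * μ) ≤ 0 := div_nonpos_of_nonpos_of_nonneg hApos.le (by positivity)
        linarith
      have h7 : (1 : ℝ) ≤ (P.card + 1 : ℝ) := by
        have : (0 : ℝ) ≤ P.card := by positivity
        linarith
      nlinarith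
  have hb2 : Real.exp (-(T * Real.log 2)) * (μ ^ n * (1 + 1 / μ) ^ n) ≤
      μ ^ n * Real.exp (-(A / (4 * μ))) := by
    have h1 : (1 + 1 / μ) ≤ Real.exp (1 / μ) := by
      have := Real.add_one_le_exp (1 / μ)
      linarith
    have h2 : (1 + 1 / μ) ^ n ≤ Real.exp ((n : ℝ) / μ) := by
      calc (1 + 1 / μ) ^ n ≤ (Real.exp (1 / μ)) ^ n := pow_le_pow_left₀ (by positivity) h1 _
        _ = Real.exp ((n : ℝ) * (1 / μ)) := by rw [← Real.exp_nat_mul]
        _ = _ := by congr 1; ring
    calc Real.exp (-(T * Real.log 2)) * (μ ^ n * (1 + 1 / μ) ^ n)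
        ≤ Real.exp (-(T * Real.log 2)) * (μ ^ n * Real.exp ((n : ℝ) / μ)) := by
          apply mul_le_mul_of_nonneg_left _ (by positivity)
          exact mul_le_mul_of_nonneg_left h2 (by positivity)
      _ = μ ^ n * Real.exp (-(T * Real.log 2) + (n : ℝ) / μ) := by
          rw [Real.exp_add]; ring
      _ ≤ μ ^ n * Real.exp (-(A / (4 * μ))) := by
          apply mul_le_mul_of_nonneg_left _ (by positivity)
          apply Real.exp_le_exp.mpr
          have h3 : A / (4 * μ) ≤ (n : ℝ) / (4 * μ) := by gcongr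
          have h4 : (n : ℝ) / (4 * μ) = ((n : ℝ) / μ) / 4 := by field_simp
          have h5 : T = 2 * ((n : ℝ) / μ) := by rw [hT]; ring
          have h6 : 0 ≤ (n : ℝ) / μ := by positivity
          rw [h5]
          nlinarith
  have hb3 := Finset.sum_le_sum hb1
  rw [Finset.sum_const, nsmul_eq_mul] at hb3
  have hfin : μ ^ n ≤ μ ^ n * ((P.card + 1 : ℝ) * Real.exp (-(A / (4 * μ)))) := by
    calc μ ^ n ≤ _ := hsum
      _ ≤ P.card * (μ ^ n * Real.exp (-(A / (4 * μ)))) + μ ^ n * Real.exp (-(A / (4 * μ))) :=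
          add_le_add hb3 hb2
      _ = _ := by ring
  have hfin2 : μ ^ n * ((P.card + 1 : ℝ) * Real.exp (-(A / (4 * μ)))) < μ ^ n * 1 :=
    mul_lt_mul_of_pos_left hsmall hμn
  linarith

/-- The dense bipartite graph and the partial matching. -/
theorem exists_mstate {n a : ℕ} (J : Finset (Fin (n + 1) × Fin n)) (P₀ : Finset (Fin (n + 1)))
    (Q : Finset (Fin n)) (hQ : Q.card + 1 ≤ P₀.card)
    (hdeg : ∀ i ∈ P₀, 8 * a ≤ ((Finset.univ.filter (fun h => (i, h) ∉ J)) ∩ Q).card) :
    ∃ M₀ P E, MState M₀ P E (8 * a) ∧ 2 * a ≤ P.card ∧ Disjoint E J := by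
  classical
  obtain ⟨P, hPP, hPc⟩ := Finset.exists_subset_card_eq hQ
  have hPQ : (Finset.univ \ P : Finset (Fin (n + 1))).card =
      (Finset.univ \ Q : Finset (Fin n)).card := by
    rw [Finset.card_sdiff_of_subset (Finset.subset_univ _),
      Finset.card_sdiff_of_subset (Finset.subset_univ _)]
    simp
    omega
  let e := Finset.equivOfCardEq hPQ
  let M₀ : Finset (Fin (n + 1) × Fin n) :=
    (Finset.univ \ P).attach.image (fun i => (i.1, (e i).1))
  let E : Finset (Fin (n + 1) × Fin n) :=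
    Finset.univ.filter (fun v => v ∉ J ∧ v.1 ∈ P ∧ v.2 ∈ Q)
  have hM₀ : ∀ v ∈ M₀, v.1 ∉ P ∧ v.2 ∉ Q := by
    intro v hv
    obtain ⟨i, _, rfl⟩ := Finset.mem_image.mp hv
    exact ⟨(Finset.mem_sdiff.mp i.2).2, (Finset.mem_sdiff.mp (e i).2).2⟩
  refine ⟨M₀, P, E, ⟨?_, ?_, ?_, ?_, ?_⟩, ?_, ?_⟩
  · intro v hv w hw hvw
    obtain ⟨i, _, rfl⟩ := Finset.mem_image.mp hv
    obtain ⟨j, _, rfl⟩ := Finset.mem_image.mp hw
    simp only at hvw
    have hij : i = j := by
      rcases hvw with h1 | h1
      · exact Subtype.ext h1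
      · exact e.injective (Subtype.ext h1)
    rw [hij]
  · intro i hi
    refine ⟨(i, (e ⟨i, by simpa using hi⟩).1), ?_, rfl⟩
    apply Finset.mem_image.mpr
    exact ⟨⟨i, by simpa using hi⟩, Finset.mem_attach _ _, rfl⟩
  · intro v hv
    exact (Finset.mem_filter.mp hv).2.2.1
  · intro v hv w hw
    have h1 := (Finset.mem_filter.mp hv).2.2
    have h2 := hM₀ w hw
    refine ⟨?_, ?_⟩
    · intro h3
      exact h2.1 (h3 ▸ h1.1)
    · intro h3
      exact h2.2 (h3 ▸ h1.2)
  · intro i hi
    refine (hdeg i (hPP hi)).trans ?_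
    apply Finset.card_le_card_of_injOn (fun h => (i, h))
    · intro h hh
      rw [Finset.mem_coe, Finset.mem_inter, Finset.mem_filter] at hh
      rw [Finset.mem_coe, Finset.mem_filter, Finset.mem_filter]
      exact ⟨⟨Finset.mem_univ _, hh.1.2, hi, hh.2⟩, rfl⟩
    · intro h _ h' _ heq
      exact (Prod.ext_iff.mp heq).2
  · have hPne : P.Nonempty := by rw [← Finset.card_pos]; omega
    obtain ⟨i, hi⟩ := hPne
    have h1 := hdeg i (hPP hi)
    have h2 : ((Finset.univ.filter (fun h => (i, h) ∉ J)) ∩ Q).card ≤ Q.card :=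
      Finset.card_le_card Finset.inter_subset_right
    omega
  · rw [Finset.disjoint_left]
    intro v hv
    exact (Finset.mem_filter.mp hv).2.1

/-- The lower bound for a refutation of the pigeonhole principle. -/
theorem fphp_lower {n k L a : ℕ} (R : Refutation (fphp n) k L)
    (J : Finset (Fin (n + 1) × Fin n)) (hJ : R.defs.DefinedFrom J Finset.univ)
    {M₀ : Finset (Fin (n + 1) × Fin n)} {P : Finset (Fin (n + 1))}
    {E : Finset (Fin (n + 1) × Fin n)} (h : MState M₀ P E (8 * a)) (ha : 1 ≤ a)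
    (hP : 2 * a ≤ P.card) (hEJ : Disjoint E J) :
    Real.exp (4 * a ^ 3 / ((n * (n + 1) : ℕ) : ℝ)) ≤ L := by
  classical
  choose X hX1 hX2 using exists_obeyed R.defs
  -- the extension variables are constant
  let a₀ := X (ind M₀)
  have ha₀ : a₀ ∈ box R.defs J (ind M₀) := ⟨hX1 _, fun v _ => hX2 _ v⟩
  have hconst : ∀ M, M ⊆ E → ∀ i, X (ind (M₀ ∪ M)) (Sum.inr i) = a₀ (Sum.inr i) := by
    intro M hM i
    apply const_of_definedFrom hJ subset_rfl (ind M₀) ha₀ i (Finset.mem_univ i)
    refine ⟨hX1 _, fun v hv => ?_⟩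
    rw [hX2]
    have hvM : v ∉ M := fun hcon => Finset.disjoint_left.mp hEJ (hM hcon) hv
    by_cases hv0 : v ∈ M₀
    · rw [ind_true.mpr hv0, ind_true.mpr (Finset.mem_union_left _ hv0)]
    · rw [ind_false.mpr hv0, ind_false.mpr]
      rw [Finset.mem_union, not_or]
      exact ⟨hv0, hvM⟩
  refine h.lower (H := fun t x => Sat (X x) (R.line t))
    (c := fun t => ∃ l ∈ R.line t, ∃ i, l.1 = Sum.inr i ∧ a₀ (Sum.inr i) = l.2)
    (Λ := fun t => {m | (Sum.inl m.1, m.2) ∈ R.line t}) ha hP ?_ ?_ ?_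
  · intro t M hM hM'
    constructor
    · rintro ⟨⟨u, s⟩, hl, hu⟩
      rcases u with v | i
      · right
        refine ⟨(v, s), hl, ?_⟩
        simp only at hu ⊢
        rw [← hu, hX2]
      · left
        refine ⟨_, hl, i, rfl, ?_⟩
        simp only at hu ⊢
        rw [← hu, hconst M hM]
    · rintro (⟨l, hl, i, hli, hi⟩ | ⟨⟨v, s⟩, hv, hvs⟩)
      · refine ⟨l, hl, ?_⟩
        rw [hli, hconst M hM, hi]
      · refine ⟨(Sum.inl v, s), hv, ?_⟩
        simp only at hvs ⊢
        rw [hX2, hvs]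
  · intro t
    rcases R.sound t with ⟨C, hC, hline⟩ | ⟨Q, hQ1, hQ2, hQ3⟩
    · left
      have hlift : ∀ N, (∃ l ∈ C, ind N l.1 = l.2) → Sat (X (ind N)) (R.line t) := by
        rintro N ⟨l, hl, hl2⟩
        refine ⟨(Sum.inl l.1, l.2), ?_, ?_⟩
        · rw [hline, List.mem_map]
          exact ⟨l, hl, rfl⟩
        · simp only
          rw [hX2, hl2]
      unfold fphp at hC
      rw [List.mem_append, List.mem_append] at hC
      rcases hC with (hC | hC) | hC
      · rw [List.mem_map] at hC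
        obtain ⟨i, _, rfl⟩ := hC
        refine ⟨i, ?_⟩
        rintro N hN ⟨v, hv, hvi⟩
        apply hlift
        refine ⟨((i, v.2), true), ?_, ?_⟩
        · rw [List.mem_map]
          exact ⟨v.2, List.mem_finRange _, rfl⟩
        · simp only
          rw [ind_true, ← hvi]
          exact hv
      · rw [List.mem_map] at hC
        obtain ⟨⟨i, i', j⟩, hmem, rfl⟩ := hC
        rw [List.mem_filter] at hmem
        have hii : i ≠ i' := by simpa using hmem.2
        refine ⟨i, ?_⟩
        rintro N hN _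
        apply hlift
        by_cases h1 : (i, j) ∈ N
        · refine ⟨((i', j), false), by simp, ?_⟩
          simp only
          rw [ind_false]
          intro h2
          have h3 := hN _ h1 _ h2 (Or.inr rfl)
          exact hii (Prod.ext_iff.mp h3).1
        · refine ⟨((i, j), false), by simp, ?_⟩
          simp only
          rw [ind_false]
          exact h1
      · rw [List.mem_map] at hC
        obtain ⟨⟨i, j, j'⟩, hmem, rfl⟩ := hC
        rw [List.mem_filter] at hmem
        have hjj : j ≠ j' := by simpa using hmem.2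
        refine ⟨i, ?_⟩
        rintro N hN _
        apply hlift
        by_cases h1 : (i, j) ∈ N
        · refine ⟨((i, j'), false), by simp, ?_⟩
          simp only
          rw [ind_false]
          intro h2
          have h3 := hN _ h1 _ h2 (Or.inl rfl)
          exact hjj (Prod.ext_iff.mp h3).2
        · refine ⟨((i, j), false), by simp, ?_⟩
          simp only
          rw [ind_false]
          exact h1
    · right
      exact ⟨Q, hQ1, hQ2, fun x hx => hQ3 (X x) (hX1 x) hx⟩
  · obtain ⟨t, ht⟩ := R.last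
    refine ⟨t, fun x hx => ?_⟩
    rw [ht] at hx
    obtain ⟨l, hl, _⟩ := hx
    simp at hl

/-- The main theorem on the pigeonhole principle. -/
theorem main (δ : ℝ) (hδ : 0 < δ) : ∃ c : ℝ, 0 < c ∧ ∃ n₀ : ℕ, ∀ n ≥ n₀,
    ∀ (k L : ℕ) (R : Refutation (fphp n) k L) (J : Finset (Fin (n + 1) × Fin n)),
      R.defs.DefinedFrom J Finset.univ → (J.card : ℝ) ≤ (1 - δ) * (n * (n + 1)) →
      Real.exp (c * n) ≤ L := by
  classical
  -- parameters
  obtain ⟨m, hm⟩ : ∃ m : ℕ, 8 ≤ δ * ((m : ℝ) + 1) := by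
    refine ⟨⌈8 / δ⌉₊, ?_⟩
    have h1 : 8 / δ ≤ ⌈8 / δ⌉₊ := Nat.le_ceil _
    rw [div_le_iff₀ hδ] at h1
    nlinarith
  set μ : ℝ := (m : ℝ) + 1 with hμ
  have hμ0 : 0 < μ := by rw [hμ]; positivity
  have ev1 : ∀ᶠ n : ℕ in Filter.atTop, ((n : ℝ) + 2) * Real.exp (-(δ / (8 * μ) * n)) < 1 := by
    have h0 : 0 < δ / (8 * μ) := by positivity
    have h1 : Filter.Tendsto (fun x : ℝ => x ^ 1 * Real.exp (-(δ / (8 * μ)) * x))
        Filter.atTop (nhds 0) := by
      have h5 := (Real.tendsto_pow_mul_exp_neg_atTop_nhds_zero 1).comp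
        (Filter.tendsto_id.const_mul_atTop h0)
      have h6 := h5.const_mul (δ / (8 * μ))⁻¹
      rw [mul_zero] at h6
      refine h6.congr (fun x => ?_)
      simp only [Function.comp, id, pow_one]
      field_simp
    have h2 : Filter.Tendsto (fun x : ℝ => Real.exp (-(δ / (8 * μ)) * x))
        Filter.atTop (nhds 0) := by
      apply Real.tendsto_exp_atBot.comp
      exact Filter.Tendsto.const_mul_atTop_of_neg (by linarith) Filter.tendsto_id
    have h3 := (h1.add (h2.const_mul 2)).comp (tendsto_natCast_atTop_atTop (R := ℝ))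
    rw [mul_zero, add_zero] at h3
    have h4 := h3.eventually_lt_const (show (0 : ℝ) < 1 by norm_num)
    filter_upwards [h4] with n hn
    simp only [Function.comp, pow_one] at hn
    rw [show -(δ / (8 * μ) * (n : ℝ)) = -(δ / (8 * μ)) * n by ring]
    linarith
  obtain ⟨n₁, hn₁⟩ : ∃ n₁ : ℕ, 128 * μ / δ + 4 / δ ≤ n₁ := exists_nat_ge _
  obtain ⟨n₀, hn₀⟩ := Filter.eventually_atTop.mp (ev1.and (Filter.eventually_ge_atTop (n₁ + 1)))
  refine ⟨2 * (δ / (128 * μ)) ^ 3, by positivity, n₀, ?_⟩
  intro n hn k L R J hJ hJc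
  obtain ⟨h1, h2⟩ := hn₀ n hn
  have hn0 : (0 : ℝ) < n := by exact_mod_cast (by omega : 0 < n)
  have hnbig : 128 * μ / δ + 4 / δ ≤ n := hn₁.trans (by exact_mod_cast (by omega : n₁ ≤ n))
  have hp1 : 0 < 128 * μ / δ := by positivity
  have hp2 : 0 < 4 / δ := by positivity
  -- the pigeons with many free variables
  let N : Fin (n + 1) → Finset (Fin n) := fun i => Finset.univ.filter (fun h => (i, h) ∉ J)
  let P₀ : Finset (Fin (n + 1)) := Finset.univ.filter (fun i => δ * n / 2 ≤ ((N i).card : ℝ))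
  have hsumN : ∑ i, ((N i).card : ℝ) = n * (n + 1) - J.card := by
    have e1 : ∑ i, (N i).card = (Finset.univ \ J : Finset (Fin (n + 1) × Fin n)).card := by
      have e2 : (Finset.univ \ J : Finset (Fin (n + 1) × Fin n)) =
          Finset.univ.biUnion (fun i => (N i).image (fun h => (i, h))) := by
        ext ⟨i, h⟩
        simp [N]
      rw [e2, Finset.card_biUnion]
      · refine Finset.sum_congr rfl (fun i _ => ?_)
        rw [Finset.card_image_of_injective]
        intro h h' heq
        exact (Prod.ext_iff.mp heq).2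
      · intro i _ j _ hij
        rw [Function.onFun, Finset.disjoint_left]
        intro v hv hv'
        obtain ⟨h, _, rfl⟩ := Finset.mem_image.mp hv
        obtain ⟨h', _, heq⟩ := Finset.mem_image.mp hv'
        exact hij (Prod.ext_iff.mp heq).1.symm
    have e3 : (∑ i, (N i).card) + J.card = (n + 1) * n := by
      rw [e1, Finset.card_sdiff_add_card_eq_card (Finset.subset_univ J)]
      simp
    have e4 : (((∑ i, (N i).card) + J.card : ℕ) : ℝ) = (((n + 1) * n : ℕ) : ℝ) := by
      rw [e3]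
    push_cast at e4
    linarith
  have hP₀ : δ * (n + 1) / 2 ≤ P₀.card := by
    have e1 : ∑ i, ((N i).card : ℝ) ≤ P₀.card * n + (n + 1) * (δ * n / 2) := by
      rw [← Finset.sum_filter_add_sum_filter_not Finset.univ
        (fun i => δ * n / 2 ≤ ((N i).card : ℝ))]
      apply add_le_add
      · calc ∑ i ∈ P₀, ((N i).card : ℝ) ≤ ∑ i ∈ P₀, (n : ℝ) := by
              apply Finset.sum_le_sum
              intro i _
              have := Finset.card_le_univ (N i)
              simp only [Fintype.card_fin] at this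
              exact_mod_cast this
          _ = P₀.card * n := by rw [Finset.sum_const, nsmul_eq_mul]
      · calc ∑ i ∈ Finset.univ.filter (fun i => ¬ δ * n / 2 ≤ ((N i).card : ℝ)),
              ((N i).card : ℝ)
            ≤ ∑ i ∈ Finset.univ.filter (fun i => ¬ δ * n / 2 ≤ ((N i).card : ℝ)),
              (δ * n / 2) := by
              apply Finset.sum_le_sum
              intro i hi
              have := (Finset.mem_filter.mp hi).2
              linarith
          _ = ((Finset.univ.filter (fun i => ¬ δ * n / 2 ≤ ((N i).card : ℝ))).card : ℝ) *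
              (δ * n / 2) := by rw [Finset.sum_const, nsmul_eq_mul]
          _ ≤ (n + 1) * (δ * n / 2) := by
              apply mul_le_mul_of_nonneg_right _ (by positivity)
              have := Finset.card_le_univ
                (Finset.univ.filter (fun i : Fin (n + 1) => ¬ δ * n / 2 ≤ ((N i).card : ℝ)))
              simp only [Fintype.card_fin] at this
              exact_mod_cast this
    rw [hsumN] at e1
    have e2 : δ * (n * (n + 1)) ≤ P₀.card * n + (n + 1) * (δ * n / 2) := by linarith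
    have e3 : (δ * (n + 1) / 2) * n ≤ P₀.card * n := by nlinarith
    exact le_of_mul_le_mul_right e3 hn0
  -- `δ ≤ 1`
  have hδ1 : δ ≤ 1 := by
    have e1 : (0 : ℝ) ≤ J.card := by positivity
    have e2 : 0 ≤ (1 - δ) * (n * (n + 1)) := e1.trans hJc
    have e3 : (0 : ℝ) < n * (n + 1) := by positivity
    by_contra hcon
    push Not at hcon
    nlinarith
  obtain ⟨Q, hQ1, hQ2⟩ := exists_class (m := m) P₀ N (δ * n / 2)
    (fun i hi => (Finset.mem_filter.mp hi).2) (by
      have e1 : (P₀.card : ℝ) ≤ n + 1 := by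
        have := Finset.card_le_univ P₀
        simp only [Fintype.card_fin] at this
        exact_mod_cast this
      have e2 : -(δ * n / 2 / (4 * ((m : ℝ) + 1))) = -(δ / (8 * μ) * n) := by
        rw [hμ]; field_simp; ring
      rw [e2]
      calc ((P₀.card : ℝ) + 1) * Real.exp (-(δ / (8 * μ) * n))
          ≤ ((n : ℝ) + 2) * Real.exp (-(δ / (8 * μ) * n)) := by
            apply mul_le_mul_of_nonneg_right _ (Real.exp_pos _).le
            linarith
        _ < 1 := h1) (by nlinarith)
  rw [← hμ] at hQ1 hQ2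
  -- the number `a`
  set a := ⌊δ * n / (64 * μ)⌋₊ with ha
  have ha1 : (a : ℝ) ≤ δ * n / (64 * μ) := Nat.floor_le (by positivity)
  have ha2 : δ * n / (64 * μ) < a + 1 := Nat.lt_floor_add_one _
  have hbig : 1 ≤ δ * n / (128 * μ) := by
    rw [le_div_iff₀ (by positivity)]
    have : 128 * μ / δ ≤ n := by linarith
    rw [div_le_iff₀ hδ] at this
    linarith
  have hhalf : δ * n / (64 * μ) = 2 * (δ * n / (128 * μ)) := by field_simp; ring
  have ha3 : δ * n / (128 * μ) ≤ a := by linarith
  have ha4 : 1 ≤ a := by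
    have : (1 : ℝ) ≤ a := hbig.trans ha3
    exact_mod_cast this
  obtain ⟨M₀, P, E, k1, k2, k3⟩ := exists_mstate (a := a) J P₀ Q (by
    have e1 : (Q.card : ℝ) + 1 ≤ P₀.card := by
      have e2 : 2 * (n : ℝ) / μ ≤ δ * n / 4 := by
        rw [div_le_iff₀ hμ0]
        nlinarith
      have e3 : 1 ≤ δ * n / 4 := by
        have : 4 / δ ≤ n := by linarith
        rw [div_le_iff₀ hδ] at this
        linarith
      nlinarith
    exact_mod_cast e1) (by
    intro i hi
    have e1 := hQ2 i hi
    have e2 : ((8 * a : ℕ) : ℝ) ≤ ((N i ∩ Q).card : ℝ) := by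
      push_cast
      have e3 : δ * n / 2 / (4 * μ) = 8 * (δ * n / (64 * μ)) := by field_simp; ring
      rw [e3] at e1
      linarith
    exact_mod_cast e2)
  have hlow := fphp_lower R J hJ k1 ha4 k2 k3
  refine le_trans (Real.exp_le_exp.mpr ?_) hlow
  rw [le_div_iff₀ (by
    have : 0 < n * (n + 1) := by
      have : 0 < n := by omega
      positivity
    exact_mod_cast this)]
  push_cast
  have e1 : (δ * n / (128 * μ)) ^ 3 ≤ (a : ℝ) ^ 3 := pow_le_pow_left₀ (by positivity) ha3 3
  have e2 : (n : ℝ) * (n + 1) ≤ 2 * n ^ 2 := by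
    have : (1 : ℝ) ≤ n := by exact_mod_cast (by omega : 1 ≤ n)
    nlinarith
  calc 2 * (δ / (128 * μ)) ^ 3 * n * (n * (n + 1))
      ≤ 2 * (δ / (128 * μ)) ^ 3 * n * (2 * n ^ 2) :=
        mul_le_mul_of_nonneg_left e2 (by positivity)
    _ = 4 * (δ * n / (128 * μ)) ^ 3 := by field_simp; ring
    _ ≤ 4 * a ^ 3 := by linarith

end Php

end Pool.Agent.MP_e81270_lc
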