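import Pool.Agent.Lib.MP_e81270_lc.Step

/-!
# Elimination of all extension variables

The formula variables are arranged in rows; the variables of a row either all get fixed, so that
the row is mapped to a hole used by no other fixed row, or many of them stay free.
-/

set_option autoImplicit false

namespace Pool.Agent.MP_e81270_lc

/-- Fixing several formula variables. -/
theorem Cert.fixSet {V : Type} [DecidableEq V] {k : ℕ} {D : ExtDefs V k} {B : Finset (Fin k)}
    {X' : Set (V ⊕ Fin k → Bool)} (c : V → Bool) (E : Finset V) :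
    ∀ {T : Finset V} {p q r : Fin k → Atom V k}, Cert D X' T B p q r →
    (∀ a ∈ X', ∀ v ∈ E, a (Sum.inl v) = c v) →
    ∃ p' q' r', Cert D X' (T \ E) B p' q' r' := by
  induction E using Finset.induction_on with
  | empty =>
    intro T p q r h _
    exact ⟨p, q, r, by simpa using h⟩
  | @insert x E hxE ih =>
    intro T p q r h hc
    have h1 := h.fix x (c x) subset_rfl (fun a ha => hc a ha x (Finset.mem_insert_self _ _))
    obtain ⟨p', q', r', h2⟩ := ih h1 (fun a ha v hv => hc a ha v (Finset.mem_insert_of_mem hv))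
    refine ⟨p', q', r', ?_⟩
    rw [Finset.sdiff_insert, ← Finset.erase_sdiff_comm]
    exact h2

variable {M n b k : ℕ}

/-- Flip the bits in `I`. -/
def flip (I : Finset (Fin b)) (y : Fin b → Bool) : Fin b → Bool :=
  fun β => if β ∈ I then !(y β) else y β

/-- On every subcube with at least `q` free bits, every hole is the image of two antipodal
points. -/
def Rich (q : ℕ) (G : (Fin b → Bool) → Fin n) : Prop :=
  ∀ I : Finset (Fin b), q ≤ I.card → ∀ z : Fin b → Bool, ∀ h : Fin n,
    ∃ y : Fin b → Bool, (∀ β, β ∉ I → y β = z β) ∧ G y = h ∧ G (flip I y) = h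

/-- The fixed bits of row `i`. -/
def row (Z : Finset (Fin M × Fin b)) (i : Fin M) : Finset (Fin b) :=
  Finset.univ.filter (fun β => (i, β) ∈ Z)

theorem mem_row {Z : Finset (Fin M × Fin b)} {i : Fin M} {β : Fin b} :
    β ∈ row Z i ↔ (i, β) ∈ Z := by simp [row]

/-- The invariant of the elimination. -/
structure Inv (D : ExtDefs (Fin M × Fin b) k) (G : (Fin b → Bool) → Fin n) (q W : ℕ)
    (sl : ℕ) (S : Finset (Fin M)) (Z : Finset (Fin M × Fin b)) (z : Fin M × Fin b → Bool)
    (T : Finset (Fin M × Fin b)) (B : Finset (Fin k)) : Prop where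
  cert : ∃ p q r, Cert D (box D Z z) T B p q r
  disj : Disjoint T Z
  full : ∀ i ∈ S, ∀ β, (i, β) ∈ Z
  free : ∀ i, i ∉ S → q + sl + (row Z i).card ≤ b
  inj : ∀ i ∈ S, ∀ j ∈ S, i ≠ j → G (fun β => z (i, β)) ≠ G (fun β => z (j, β))
  bound : 6 * T.card + 9 * Z.card + wt D B ≤ 6 * (M * b) + W + 9 * (q + 1) * S.card

variable {D : ExtDefs (Fin M × Fin b) k} {G : (Fin b → Bool) → Fin n} {q W : ℕ}

theorem Inv.card_le {sl : ℕ} {S : Finset (Fin M)} {Z : Finset (Fin M × Fin b)}
    {z : Fin M × Fin b → Bool} {T : Finset (Fin M × Fin b)} {B : Finset (Fin k)}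
    (h : Inv D G q W sl S Z z T B) {s : ℕ} (hb : 0 < b)
    (hnum : 9 * b * s + 9 * (q + 1) * M + W ≤ 3 * (M * b)) : S.card + s ≤ M := by
  have h1 : S.card * b ≤ Z.card := by
    have : (S ×ˢ (Finset.univ : Finset (Fin b))).card ≤ Z.card := by
      apply Finset.card_le_card
      intro v hv
      rw [Finset.mem_product] at hv
      exact h.full v.1 hv.1 v.2
    simpa using this
  have h2 : S.card ≤ M := by simpa using Finset.card_le_univ S
  have h3 := h.bound
  have h4 : 9 * (q + 1) * S.card ≤ 9 * (q + 1) * M := Nat.mul_le_mul_left _ h2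
  have h5 : 9 * (S.card * b) ≤ 9 * Z.card := Nat.mul_le_mul_left _ h1
  have h6 : 9 * (b * (S.card + s)) ≤ 9 * (b * M) := by
    have e1 : 9 * (b * (S.card + s)) = 9 * (S.card * b) + 9 * b * s := by ring
    have e2 : 9 * (b * M) = 9 * (M * b) := by ring
    rw [e1, e2]
    omega
  have h7 : b * (S.card + s) ≤ b * M := by omega
  exact Nat.le_of_mul_le_mul_left h7 hb

/-- After a step, the rows with too few free bits get fixed. -/
theorem Inv.repair (hG : Rich q G) (hb : 0 < b) (hM : M = n + 1)
    (hnum : 9 * b * 2 + 9 * (q + 1) * M + W ≤ 3 * (M * b)) {B : Finset (Fin k)} (m : ℕ) :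
    ∀ (S : Finset (Fin M)) (Z : Finset (Fin M × Fin b)) (z : Fin M × Fin b → Bool)
    (T : Finset (Fin M × Fin b)), Inv D G q W 0 S Z z T B → M - S.card ≤ m →
    ∃ S' Z' z' T', Inv D G q W 2 S' Z' z' T' B ∧ Z ⊆ Z' ∧ T ∪ Z ⊆ T' ∪ Z' := by
  induction m with
  | zero =>
    intro S Z z T h hm
    have := h.card_le hb hnum
    omega
  | succ m ih =>
    intro S Z z T h hm
    by_cases hdef : ∀ i, i ∉ S → q + 2 + (row Z i).card ≤ b
    · exact ⟨S, Z, z, T, ⟨h.cert, h.disj, h.full, hdef, h.inj, h.bound⟩, subset_rfl,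
        subset_rfl⟩
    push Not at hdef
    obtain ⟨i, hiS, hi⟩ := hdef
    have hfree := h.free i hiS
    have hcard := h.card_le hb hnum
    -- an unused hole
    obtain ⟨hole, hhole⟩ : ∃ hole : Fin n,
        hole ∉ S.image (fun j => G (fun β => z (j, β))) := by
      by_contra hcon
      push Not at hcon
      have h1 : (Finset.univ : Finset (Fin n)) ⊆ S.image (fun j => G (fun β => z (j, β))) :=
        fun x _ => hcon x
      have h2 := (Finset.card_le_card h1).trans Finset.card_image_le
      simp at h2
      omega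
    obtain ⟨y, hy1, hy2, _⟩ := hG (Finset.univ \ row Z i) (by
      rw [Finset.card_sdiff_of_subset (Finset.subset_univ _)]
      simp
      omega) (fun β => z (i, β)) hole
    have hy : ∀ β, (i, β) ∈ Z → y β = z (i, β) := by
      intro β hβ
      apply hy1
      simp [mem_row, hβ]
    set R : Finset (Fin M × Fin b) := (Finset.univ \ row Z i).image (fun β => (i, β)) with hR
    set z' : Fin M × Fin b → Bool := fun v => if v.1 = i then y v.2 else z v with hz'
    have hz'Z : ∀ v ∈ Z, z' v = z v := by
      intro v hv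
      rw [hz']
      simp only
      split_ifs with hvi
      · obtain ⟨v1, v2⟩ := v
        simp only at hvi
        subst hvi
        exact hy v2 hv
      · rfl
    have hbox : box D (Z ∪ R) z' ⊆ box D Z z := by
      rintro a ⟨ha1, ha2⟩
      refine ⟨ha1, fun v hv => ?_⟩
      rw [ha2 v (Finset.mem_union_left _ hv), hz'Z v hv]
    have hrow : ∀ j, j ≠ i → (fun β => z' (j, β)) = (fun β => z (j, β)) := by
      intro j hj
      funext β
      simp [hz', hj]
    have hrowi : (fun β => z' (i, β)) = y := by
      funext β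
      simp [hz']
    obtain ⟨p, q', r, hc⟩ := h.cert
    obtain ⟨p2, q2, r2, hc2⟩ := (hc.mono hbox).fixSet z' R (by
      rintro a ⟨ha1, ha2⟩ v hv
      exact ha2 v (Finset.mem_union_right _ hv))
    have hRcard : R.card ≤ q + 1 := by
      refine Finset.card_image_le.trans ?_
      rw [Finset.card_sdiff_of_subset (Finset.subset_univ _)]
      simp
      omega
    have hinv : Inv D G q W 0 (insert i S) (Z ∪ R) z' (T \ R) B := by
      refine ⟨⟨p2, q2, r2, hc2⟩, ?_, ?_, ?_, ?_, ?_⟩
      · rw [Finset.disjoint_left]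
        intro v hv
        rw [Finset.mem_sdiff] at hv
        rw [Finset.mem_union, not_or]
        exact ⟨Finset.disjoint_left.mp h.disj hv.1, hv.2⟩
      · intro j hj β
        rw [Finset.mem_insert] at hj
        rcases hj with rfl | hj
        · by_cases hβ : (j, β) ∈ Z
          · exact Finset.mem_union_left _ hβ
          · apply Finset.mem_union_right
            rw [hR, Finset.mem_image]
            exact ⟨β, by simp [mem_row, hβ], rfl⟩
        · exact Finset.mem_union_left _ (h.full j hj β)
      · intro j hj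
        rw [Finset.mem_insert, not_or] at hj
        have h1 : row (Z ∪ R) j = row Z j := by
          ext β
          rw [mem_row, mem_row, Finset.mem_union]
          constructor
          · rintro (h2 | h2)
            · exact h2
            · rw [hR, Finset.mem_image] at h2
              obtain ⟨β', _, h3⟩ := h2
              exact absurd (congrArg Prod.fst h3).symm hj.1
          · exact Or.inl
        rw [h1]
        exact h.free j hj.2
      · have hnew : ∀ j ∈ S, G (fun β => z' (j, β)) ≠ hole := by
          intro j hj hcon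
          apply hhole
          rw [Finset.mem_image]
          refine ⟨j, hj, ?_⟩
          rw [← hcon, hrow j]
          rintro rfl
          exact hiS hj
        intro j hj l hl hjl
        rw [Finset.mem_insert] at hj hl
        rcases hj with rfl | hj
        · rcases hl with rfl | hl
          · exact absurd rfl hjl
          · rw [hrowi, hy2]
            exact (hnew l hl).symm
        · rcases hl with rfl | hl
          · rw [hrowi, hy2]
            exact hnew j hj
          · rw [hrow j, hrow l]
            · exact h.inj j hj l hl hjl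
            · rintro rfl; exact hiS hl
            · rintro rfl; exact hiS hj
      · have e1 : (Z ∪ R).card ≤ Z.card + R.card := Finset.card_union_le _ _
        have e2 : (T \ R).card ≤ T.card := Finset.card_le_card Finset.sdiff_subset
        have e3 := h.bound
        rw [Finset.card_insert_of_notMem hiS]
        have e4 : 9 * (q + 1) * (S.card + 1) = 9 * (q + 1) * S.card + 9 * (q + 1) := by ring
        rw [e4]
        omega
    obtain ⟨S3, Z3, z3, T3, k1, k2, k3⟩ := ih (insert i S) (Z ∪ R) z' (T \ R) hinv (by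
      rw [Finset.card_insert_of_notMem hiS]
      omega)
    refine ⟨S3, Z3, z3, T3, k1, Finset.subset_union_left.trans k2, ?_⟩
    refine subset_trans ?_ k3
    intro v hv
    rw [Finset.mem_union, Finset.mem_union, Finset.mem_sdiff]
    rw [Finset.mem_union] at hv
    tauto

/-- The elimination can be carried out completely. -/
theorem Inv.finish (hG : Rich q G) (hb : 0 < b) (hM : M = n + 1)
    (hnum : 9 * b * 2 + 9 * (q + 1) * M + W ≤ 3 * (M * b)) (m : ℕ) :
    ∀ (S : Finset (Fin M)) (Z : Finset (Fin M × Fin b)) (z : Fin M × Fin b → Bool)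
    (T : Finset (Fin M × Fin b)) (B : Finset (Fin k)), Inv D G q W 2 S Z z T B →
    B.card ≤ m → ∃ S' Z' z' T', Inv D G q W 2 S' Z' z' T' ∅ := by
  induction m with
  | zero =>
    intro S Z z T B h hm
    have : B = ∅ := by rw [← Finset.card_eq_zero]; omega
    subst this
    exact ⟨S, Z, z, T, h⟩
  | succ m ih =>
    intro S Z z T B h hm
    rcases B.eq_empty_or_nonempty with rfl | hB
    · exact ⟨S, Z, z, T, h⟩
    obtain ⟨p, q', r, hc⟩ := h.cert
    obtain ⟨Z', z', T', B', p', q'', r', hc', hd', hZ, hz, h2, hB', hQ⟩ := hc.next h.disj hB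
    have hrow : ∀ i, (row Z' i).card ≤ (row Z i).card + 2 := by
      intro i
      have e1 : (row Z' i).card ≤ (row Z i).card + (row (Z' \ Z) i).card := by
        refine le_trans (Finset.card_le_card ?_) (Finset.card_union_le _ _)
        intro β hβ
        rw [mem_row] at hβ
        rw [Finset.mem_union, mem_row, mem_row, Finset.mem_sdiff]
        tauto
      have e2 : (row (Z' \ Z) i).card ≤ (Z' \ Z).card := by
        apply Finset.card_le_card_of_injOn (fun β => (i, β))
        · intro β hβ
          exact mem_row.mp hβ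
        · intro β _ β' _ h3
          exact (Prod.ext_iff.mp h3).2
      omega
    have hinv : Inv D G q W 0 S Z' z' T' B' := by
      refine ⟨⟨p', q'', r', hc'⟩, hd', fun i hi β => hZ (h.full i hi β), ?_, ?_, ?_⟩
      · intro i hi
        have e1 := h.free i hi
        have e2 := hrow i
        omega
      · intro i hi j hj hij
        have e1 : ∀ l ∈ S, (fun β => z' (l, β)) = (fun β => z (l, β)) := by
          intro l hl
          funext β
          exact hz _ (h.full l hl β)
        rw [e1 i hi, e1 j hj]
        exact h.inj i hi j hj hij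
      · exact hQ.trans h.bound
    obtain ⟨S'', Z'', z'', T'', h4, _, _⟩ := Inv.repair hG hb hM hnum _ S Z' z' T' hinv le_rfl
    exact ih S'' Z'' z'' T'' B' h4 (by omega)

/-- Gates that are constant can be removed. -/
theorem Cert.removeConsts {V : Type} [DecidableEq V] {k : ℕ} {D : ExtDefs V k}
    {X : Set (V ⊕ Fin k → Bool)} {T : Finset V} (E : Finset (Fin k)) :
    ∀ {B : Finset (Fin k)} {p q r : Fin k → Atom V k},
    Cert D X T B p q r → E ⊆ B → (∀ i ∈ E, ∃ e, ∀ a ∈ X, a (Sum.inr i) = e) →
    ∃ p' q' r', Cert D X T (B \ E) p' q' r' := by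
  induction E using Finset.induction_on with
  | empty =>
    intro B p q r h _ _
    exact ⟨p, q, r, by simpa using h⟩
  | @insert i E hiE ih =>
    intro B p q r h hE hc
    obtain ⟨e, he⟩ := hc i (Finset.mem_insert_self i E)
    have h2 := h.remove (hE (Finset.mem_insert_self i E)) (e, none) (by
      intro a ha
      rw [he a ha]
      simp [ev]) (by simp) (by simp) (by simp)
    have hE' : E ⊆ B.erase i := by
      intro j hj
      rw [Finset.mem_erase]
      refine ⟨?_, hE (Finset.mem_insert_of_mem hj)⟩
      rintro rfl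
      exact hiE hj
    obtain ⟨p', q', r', h3⟩ := ih h2 hE' (fun j hj => hc j (Finset.mem_insert_of_mem hj))
    refine ⟨p', q', r', ?_⟩
    rw [Finset.sdiff_insert, ← Finset.erase_sdiff_comm]
    exact h3

/-- Fixing one formula variable, followed by repairs. -/
theorem Inv.fixVar (hG : Rich q G) (hb : 0 < b) (hM : M = n + 1)
    (hnum : 9 * b * 2 + 9 * (q + 1) * M + (W + 3) ≤ 3 * (M * b)) {B : Finset (Fin k)}
    {S : Finset (Fin M)} {Z : Finset (Fin M × Fin b)} {z : Fin M × Fin b → Bool}
    {T : Finset (Fin M × Fin b)} (h : Inv D G q W 2 S Z z T B) {v : Fin M × Fin b}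
    (hv : v ∈ T) :
    ∃ S' Z' z' T', Inv D G q (W + 3) 2 S' Z' z' T' B ∧ insert v Z ⊆ Z' ∧
      T ∪ Z ⊆ T' ∪ Z' := by
  have hvZ : v ∉ Z := Finset.disjoint_left.mp h.disj hv
  have hvS : v.1 ∉ S := by
    intro hcon
    exact hvZ (h.full v.1 hcon v.2)
  obtain ⟨p, q', r, hc⟩ := h.cert
  have hbox : box D (insert v Z) z ⊆ box D Z z := by
    rintro a ⟨ha1, ha2⟩
    exact ⟨ha1, fun w hw => ha2 w (Finset.mem_insert_of_mem hw)⟩
  have hinv : Inv D G q (W + 3) 0 S (insert v Z) z (T.erase v) B := by
    refine ⟨⟨_, _, _, hc.fix v (z v) hbox ?_⟩, ?_, ?_, ?_, h.inj, ?_⟩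
    · rintro a ⟨ha1, ha2⟩
      exact ha2 v (Finset.mem_insert_self _ _)
    · rw [Finset.disjoint_left]
      intro w hw
      rw [Finset.mem_erase] at hw
      rw [Finset.mem_insert, not_or]
      exact ⟨hw.1, Finset.disjoint_left.mp h.disj hw.2⟩
    · intro i hi β
      exact Finset.mem_insert_of_mem (h.full i hi β)
    · intro i hi
      have e1 := h.free i hi
      have e2 : (row (insert v Z) i).card ≤ (row Z i).card + 1 := by
        have : row (insert v Z) i ⊆ insert v.2 (row Z i) := by
          intro β hβ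
          rw [mem_row, Finset.mem_insert] at hβ
          rw [Finset.mem_insert, mem_row]
          rcases hβ with hβ | hβ
          · left; rw [← hβ]
          · right; exact hβ
        exact (Finset.card_le_card this).trans (Finset.card_insert_le _ _)
      omega
    · have e1 := Finset.card_erase_add_one hv
      rw [Finset.card_insert_of_notMem hvZ]
      have e2 := h.bound
      omega
  obtain ⟨S', Z', z', T', h1, h2, h3⟩ :=
    Inv.repair hG hb hM hnum _ S (insert v Z) z (T.erase v) hinv le_rfl
  refine ⟨S', Z', z', T', h1, h2, ?_⟩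
  refine subset_trans ?_ h3
  intro w hw
  rw [Finset.mem_union, Finset.mem_erase, Finset.mem_insert]
  rw [Finset.mem_union] at hw
  by_cases hwv : w = v
  · tauto
  · tauto

/-- The trivial system of definitions. -/
def noDefs (V : Type) : ExtDefs V 0 where
  fn := fun i => i.elim0
  arg₁ := fun i => i.elim0
  arg₂ := fun i => i.elim0
  earlier₁ := fun i => i.elim0
  earlier₂ := fun i => i.elim0

/-- The variables in a given set `J` can be fixed. -/
theorem exists_fixed {G : (Fin b → Bool) → Fin n} {q : ℕ} (hG : Rich q G) (hb : q + 2 ≤ b)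
    (hM : M = n + 1) (J : Finset (Fin M × Fin b)) {W' : ℕ}
    (hnum : 9 * b * 2 + 9 * (q + 1) * M + (3 * J.card + W') ≤ 3 * (M * b)) :
    ∃ S Z z T, Inv (noDefs (Fin M × Fin b)) G q (3 * J.card) 2 S Z z T ∅ ∧ J ⊆ Z ∧
      Finset.univ ⊆ T ∪ Z := by
  have hb0 : 0 < b := by omega
  induction J using Finset.induction_on with
  | empty =>
    refine ⟨∅, ∅, fun _ => false, Finset.univ, ⟨⟨fun i => i.elim0, fun i => i.elim0,
      fun i => i.elim0, ?_⟩, by simp, by simp, ?_, by simp, ?_⟩, subset_rfl, by simp⟩
    · constructor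
      · intro i; exact i.elim0
      · intro i; exact i.elim0
      · intro i; exact i.elim0
      · intro i; exact i.elim0
      · intro i; exact i.elim0
      · intro i; exact i.elim0
      · intro i; exact i.elim0
    · intro i _
      have : row (∅ : Finset (Fin M × Fin b)) i = ∅ := by
        ext β; simp [mem_row]
      rw [this]
      simpa using hb
    · simp [wt]
  | @insert v J hvJ ih =>
    rw [Finset.card_insert_of_notMem hvJ] at hnum ⊢
    obtain ⟨S, Z, z, T, h1, h2, h3⟩ := ih (by omega)
    by_cases hvZ : v ∈ Z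
    · refine ⟨S, Z, z, T, ⟨h1.cert, h1.disj, h1.full, h1.free, h1.inj, ?_⟩, ?_, h3⟩
      · have := h1.bound
        omega
      · rw [Finset.insert_subset_iff]
        exact ⟨hvZ, h2⟩
    · have hvT : v ∈ T := by
        have := h3 (Finset.mem_univ v)
        rw [Finset.mem_union] at this
        tauto
      obtain ⟨S', Z', z', T', k1, k2, k3⟩ := h1.fixVar hG hb0 hM (by omega) hvT
      rw [Finset.insert_subset_iff] at k2
      refine ⟨S', Z', z', T', ?_, ?_, h3.trans k3⟩
      · have e : 3 * (J.card + 1) = 3 * J.card + 3 := by ring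
        rw [e]
        exact k1
      · rw [Finset.insert_subset_iff]
        exact ⟨k2.1, h2.trans k2.2⟩

/-- Extension variables defined from fixed variables are constant. -/
theorem const_of_definedFrom {V : Type} [DecidableEq V] {k : ℕ} {D : ExtDefs V k}
    {J : Finset V} {I : Finset (Fin k)} (hI : D.DefinedFrom J I) {Z : Finset V} (hJ : J ⊆ Z)
    (z : V → Bool) {a₀ : V ⊕ Fin k → Bool} (ha₀ : a₀ ∈ box D Z z) (i : Fin k) :
    i ∈ I → ∀ a ∈ box D Z z, a (Sum.inr i) = a₀ (Sum.inr i) := by
  induction i using WellFoundedLT.induction with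
  | ind i ih =>
    intro hi a ha
    obtain ⟨h1, h2⟩ := hI i hi
    have harg : ∀ u : V ⊕ Fin k, (D.arg₁ i = u ∨ D.arg₂ i = u) → a u = a₀ u := by
      intro u hu
      rcases u with v | j
      · have hv := hJ (h1 v hu)
        rw [ha.2 v hv, ha₀.2 v hv]
      · have hj := h2 j hu
        have hlt : j < i := by
          rcases hu with hu | hu
          · exact D.earlier₁ i j hu
          · exact D.earlier₂ i j hu
        exact ih j hlt hj a ha
    rw [ha.1 i, ha₀.1 i, harg _ (Or.inl rfl), harg _ (Or.inr rfl)]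

/-- All extension variables can be eliminated. -/
theorem exists_elim (D : ExtDefs (Fin M × Fin b) k) {G : (Fin b → Bool) → Fin n} {q s : ℕ}
    (hG : Rich q G) (hb : q + 2 ≤ b) (hM : M = n + 1) (hs : 2 ≤ s)
    {J : Finset (Fin M × Fin b)} {I : Finset (Fin k)} (hI : D.DefinedFrom J I)
    (hnum : 9 * b * s + 9 * (q + 1) * M + (3 * J.card + wt D (Finset.univ \ I)) ≤
      3 * (M * b)) :
    ∃ (S : Finset (Fin M)) (Z : Finset (Fin M × Fin b)) (z : Fin M × Fin b → Bool)
      (r : Fin k → Atom (Fin M × Fin b) k), S.card + s ≤ M ∧ (∀ i ∈ S, ∀ β, (i, β) ∈ Z) ∧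
      (∀ i, i ∉ S → q + (row Z i).card ≤ b) ∧
      (∀ i ∈ S, ∀ j ∈ S, i ≠ j → G (fun β => z (i, β)) ≠ G (fun β => z (j, β))) ∧
      (∀ i, ∀ a ∈ box D Z z, a (Sum.inr i) = ev (r i) a) ∧
      ∀ i j, (r i).2 ≠ some (Sum.inr j) := by
  have hb0 : 0 < b := by omega
  have hnum2 : 9 * b * 2 + 9 * (q + 1) * M + (3 * J.card + wt D (Finset.univ \ I)) ≤
      3 * (M * b) := by
    have : 9 * b * 2 ≤ 9 * b * s := Nat.mul_le_mul_left _ hs
    omega
  obtain ⟨S₀, Z₀, z₀, T₀, h₀, hJ, hcov⟩ := exists_fixed hG hb hM J hnum2
  have hstart : Inv D G q (3 * J.card + wt D (Finset.univ \ I)) 2 S₀ Z₀ z₀ T₀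
      (Finset.univ \ I) := by
    refine ⟨?_, h₀.disj, h₀.full, h₀.free, h₀.inj, ?_⟩
    · have c1 : Cert D (box D Z₀ z₀) Finset.univ Finset.univ
          (fun i => (false, some (D.arg₁ i))) (fun i => (false, some (D.arg₂ i)))
          (fun i => (false, some (Sum.inr i))) := by
        constructor
        · rintro i _ a ⟨ha1, _⟩
          rw [ha1 i]
          simp [ev]
        · intro _ _ _ _; exact Finset.mem_univ _
        · intro _ _ _ _; exact Finset.mem_univ _
        · intro i _ j hj
          exact ⟨Finset.mem_univ _, D.earlier₁ i j (by simpa using hj)⟩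
        · intro i _ j hj
          exact ⟨Finset.mem_univ _, D.earlier₂ i j (by simpa using hj)⟩
        · intro i a _
          simp [ev]
        · intro i j _
          exact Finset.mem_univ _
      obtain ⟨p1, q1, r1, c2⟩ := c1.fixSet z₀ Z₀ (fun a ha v hv => ha.2 v hv)
      have hT : (Finset.univ : Finset (Fin M × Fin b)) \ Z₀ ⊆ T₀ := by
        intro v hv
        have := hcov (Finset.mem_univ v)
        rw [Finset.mem_sdiff] at hv
        rw [Finset.mem_union] at this
        tauto
      obtain ⟨p2, q2, r2, c3⟩ := c2.removeConsts I (Finset.subset_univ _) (by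
        intro i hi
        by_cases hne : (box D Z₀ z₀).Nonempty
        · obtain ⟨a₀, ha₀⟩ := hne
          exact ⟨a₀ (Sum.inr i), const_of_definedFrom hI hJ z₀ ha₀ i hi⟩
        · refine ⟨false, fun a ha => absurd ⟨a, ha⟩ hne⟩)
      exact ⟨p2, q2, r2, ⟨c3.gate, fun i hi v hv => hT (c3.pT i hi v hv),
        fun i hi v hv => hT (c3.qT i hi v hv), c3.pB, c3.qB, c3.rep, c3.rB⟩⟩
    · have e1 := h₀.bound
      simp only [wt, Finset.sum_empty] at e1
      omega
  obtain ⟨S, Z, z, T, h⟩ := Inv.finish hG hb0 hM hnum2 _ S₀ Z₀ z₀ T₀ (Finset.univ \ I)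
    hstart le_rfl
  obtain ⟨p, q', r, hc⟩ := h.cert
  refine ⟨S, Z, z, r, h.card_le hb0 hnum, h.full, ?_, h.inj, hc.rep, ?_⟩
  · intro i hi
    have := h.free i hi
    omega
  · intro i j hij
    have := hc.rB i j hij
    simp at this

end Pool.Agent.MP_e81270_lc
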