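import Pool.Agent.Lib.MP_e81270_lc.Elim

/-!
# Gate elimination: one step
-/

set_option autoImplicit false

namespace Pool.Agent.MP_e81270_lc

variable {V : Type} [DecidableEq V] {k : ℕ}

/-- The full assignments that obey the definitions and agree with `z` on `Z`. -/
def box (D : ExtDefs V k) (Z : Finset V) (z : V → Bool) : Set (V ⊕ Fin k → Bool) :=
  {a | D.Obeyed a ∧ ∀ v ∈ Z, a (Sum.inl v) = z v}

/-- The total cost of the gates in `B`. -/
def wt (D : ExtDefs V k) (B : Finset (Fin k)) : ℕ := ∑ i ∈ B, fnCost (D.fn i)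

/-- `u` is an input of the gate `i`. -/
def In (p q : Fin k → Atom V k) (i : Fin k) (u : V ⊕ Fin k) : Prop :=
  (p i).2 = some u ∨ (q i).2 = some u

theorem one_le_fnCost (f : Bool → Bool → Bool) : 1 ≤ fnCost f := by
  unfold fnCost; split_ifs <;> norm_num

omit [DecidableEq V] in
theorem card_le_wt (D : ExtDefs V k) (B : Finset (Fin k)) : B.card ≤ wt D B := by
  unfold wt
  calc B.card = ∑ i ∈ B, 1 := by simp
    _ ≤ _ := Finset.sum_le_sum (fun i _ => one_le_fnCost _)

omit [DecidableEq V] in
theorem wt_sdiff (D : ExtDefs V k) {B E : Finset (Fin k)} (h : E ⊆ B) :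
    wt D (B \ E) + wt D E = wt D B := by
  unfold wt
  exact Finset.sum_sdiff h

omit [DecidableEq V] in
theorem wt_mono (D : ExtDefs V k) {B E : Finset (Fin k)} (h : E ⊆ B) :
    wt D E ≤ wt D B := by
  have := wt_sdiff D h
  omega

/-- The result of one step of the elimination. -/
def Next (D : ExtDefs V k) (Z : Finset V) (z : V → Bool) (T : Finset V)
    (B : Finset (Fin k)) : Prop :=
  ∃ (Z' : Finset V) (z' : V → Bool) (T' : Finset V) (B' : Finset (Fin k))
    (p' q' r' : Fin k → Atom V k), Cert D (box D Z' z') T' B' p' q' r' ∧ Disjoint T' Z' ∧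
    Z ⊆ Z' ∧ (∀ v ∈ Z, z' v = z v) ∧ (Z' \ Z).card ≤ 2 ∧ B'.card < B.card ∧
    6 * T'.card + 9 * Z'.card + wt D B' ≤ 6 * T.card + 9 * Z.card + wt D B

variable {D : ExtDefs V k} {Z : Finset V} {z : V → Bool} {T : Finset V}
  {B : Finset (Fin k)} {p q r : Fin k → Atom V k}

/-- A step that fixes no variable. -/
theorem next_of_same (hd : Disjoint T Z) {B' : Finset (Fin k)} (hB' : B' ⊂ B)
    {p' q' r' : Fin k → Atom V k} (h' : Cert D (box D Z z) T B' p' q' r') :
    Next D Z z T B := by
  refine ⟨Z, z, T, B', p', q', r', h', hd, subset_rfl, fun _ _ => rfl, by simp,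
    Finset.card_lt_card hB', ?_⟩
  have := wt_mono D hB'.subset
  omega

/-- A step that fixes one variable. -/
theorem next_of_fix (hd : Disjoint T Z) {x : V} (hx : x ∈ T) (c : Bool) {T' : Finset V}
    {B' : Finset (Fin k)} (hB' : B' ⊂ B) (hT' : T' ⊆ T.erase x)
    (hQ : 6 * T'.card + 9 + wt D B' ≤ 6 * T.card + wt D B)
    (h' : ∀ X' : Set (V ⊕ Fin k → Bool), X' ⊆ box D Z z → (∀ a ∈ X', a (Sum.inl x) = c) →
      ∃ p' q' r', Cert D X' T' B' p' q' r') :
    Next D Z z T B := by
  have hxZ : x ∉ Z := Finset.disjoint_left.mp hd hx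
  obtain ⟨p', q', r', h2⟩ := h' (box D (insert x Z) (Function.update z x c)) (by
    rintro a ⟨ha1, ha2⟩
    refine ⟨ha1, fun v hv => ?_⟩
    rw [ha2 v (Finset.mem_insert_of_mem hv), Function.update_of_ne]
    rintro rfl
    exact hxZ hv) (by
    rintro a ⟨ha1, ha2⟩
    rw [ha2 x (Finset.mem_insert_self x Z), Function.update_self])
  refine ⟨insert x Z, Function.update z x c, T', B', p', q', r', h2, ?_,
    Finset.subset_insert x Z, ?_, ?_, Finset.card_lt_card hB', ?_⟩
  · rw [Finset.disjoint_left]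
    intro v hv
    have hv' := hT' hv
    rw [Finset.mem_erase] at hv'
    rw [Finset.mem_insert]
    rintro (h3 | h3)
    · exact hv'.1 h3
    · exact Finset.disjoint_left.mp hd hv'.2 h3
  · intro v hv
    rw [Function.update_of_ne]
    rintro rfl
    exact hxZ hv
  · calc (insert x Z \ Z).card ≤ ({x} : Finset V).card := by
          apply Finset.card_le_card
          intro v hv
          rw [Finset.mem_sdiff, Finset.mem_insert] at hv
          rw [Finset.mem_singleton]
          tauto
      _ ≤ 2 := by simp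
  · rw [Finset.card_insert_of_notMem hxZ]
    omega

theorem subx_none {x : V} {c : Bool} {A : Atom V k} (h : A.2 = some (Sum.inl x)) :
    (sub (Sum.inl x) (c, none) A).2 = none := by
  rw [sub_of_eq h]

theorem subx_other {x : V} {c : Bool} {A : Atom V k} {j : Fin k}
    (h : A.2 = some (Sum.inr j)) :
    (sub (Sum.inl x) (c, none) A).2 = some (Sum.inr j) := by
  rw [sub_of_ne]
  · exact h
  · rw [h]; simp

theorem sub_const_some {u w : V ⊕ Fin k} {c : Bool} {A : Atom V k}
    (h : (sub u (c, none) A).2 = some w) : A.2 = some w ∧ w ≠ u := by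
  by_cases hA : A.2 = some u
  · rw [sub_of_eq hA] at h
    simp at h
  · rw [sub_of_ne hA] at h
    refine ⟨h, ?_⟩
    rintro rfl
    exact hA h

theorem sub_const_none {u : V ⊕ Fin k} {c : Bool} {A : Atom V k}
    (h : A.2 = none) : (sub u (c, none) A).2 = none := by
  rw [sub_none h, h]

/-- Fix a variable that feeds gates of total cost at least `3`. -/
theorem next_heavy (h : Cert D (box D Z z) T B p q r) (hd : Disjoint T Z) {x : V}
    {E : Finset (Fin k)} (hE : E ⊆ B) (hEx : ∀ i ∈ E, In p q i (Sum.inl x))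
    (hw : 3 ≤ wt D E) : Next D Z z T B := by
  classical
  have hne : E.Nonempty := by
    rw [Finset.nonempty_iff_ne_empty]
    rintro rfl
    simp [wt] at hw
  obtain ⟨i, hi⟩ := hne
  have hx : x ∈ T := by
    rcases hEx i hi with h1 | h1
    · exact h.pT i (hE hi) x h1
    · exact h.qT i (hE hi) x h1
  refine next_of_fix hd hx false (T' := T.erase x) (B' := B \ E) ?_ subset_rfl ?_ ?_
  · rw [Finset.ssubset_iff_subset_ne]
    refine ⟨Finset.sdiff_subset, ?_⟩
    intro h1
    have : i ∈ B \ E := by rw [h1]; exact hE hi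
    exact (Finset.mem_sdiff.mp this).2 hi
  · have h1 := wt_sdiff D hE
    have h2 := Finset.card_erase_add_one hx
    omega
  · intro X' hX' hx'
    refine (h.fix x false hX' hx').removeMany E hE ?_
    intro j hj
    rcases hEx j hj with h1 | h1
    · left; exact subx_none h1
    · right; exact subx_none h1

/-- A gate is an alias of one of its inputs, or a constant. -/
theorem next_alias (h : Cert D (box D Z z) T B p q r) (hd : Disjoint T Z) {i : Fin k}
    (hi : i ∈ B) (α : Atom V k) (hα : ∀ u, α.2 = some u → In p q i u)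
    (hα' : ∀ a ∈ box D Z z, a (Sum.inr i) = ev α a) : Next D Z z T B := by
  refine next_of_same hd (Finset.erase_ssubset hi) (h.remove hi α hα' ?_ ?_ ?_)
  · intro j hj
    rcases hα _ hj with h3 | h3
    · exact h.pB i hi j h3
    · exact h.qB i hi j h3
  · intro _ _ _ v hv
    rcases hα _ hv with h3 | h3
    · exact h.pT i hi v h3
    · exact h.qT i hi v h3
  · intro _ _ _ v hv
    rcases hα _ hv with h3 | h3
    · exact h.pT i hi v h3
    · exact h.qT i hi v h3

theorem subg_none {g : Fin k} {c : Bool} {A : Atom V k} (h : A.2 = some (Sum.inr g)) :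
    (sub (Sum.inr g) (c, none) A).2 = none := by
  rw [sub_of_eq h]

/-- Fix the variable `x`, which makes `g` constant, where another gate `g'` has the input `x`
and another gate `h'` has the input `g`. -/
theorem next_A (h : Cert D (box D Z z) T B p q r) (hd : Disjoint T Z) {x : V} (hx : x ∈ T)
    {g g' h' : Fin k} (hg : g ∈ B) (hg' : g' ∈ B) (hh' : h' ∈ B) (hgg' : g' ≠ g) (hgh : h' ≠ g)
    (hg'h : g' ≠ h') {c d : Bool}
    (hctl : ∀ a ∈ box D Z z, a (Sum.inl x) = c → a (Sum.inr g) = d)
    (h1 : In p q g' (Sum.inl x)) (h2 : In p q h' (Sum.inr g)) : Next D Z z T B := by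
  classical
  have hsub : ({g', h'} : Finset (Fin k)) ⊆ B.erase g := by
    intro j hj
    rw [Finset.mem_insert, Finset.mem_singleton] at hj
    rw [Finset.mem_erase]
    rcases hj with rfl | rfl
    · exact ⟨hgg', hg'⟩
    · exact ⟨hgh, hh'⟩
  refine next_of_fix hd hx c (T' := T.erase x) (B' := (B.erase g) \ {g', h'}) ?_ subset_rfl ?_ ?_
  · exact lt_of_le_of_lt Finset.sdiff_subset (Finset.erase_ssubset hg)
  · have e1 := wt_sdiff D hsub
    have e2 := Finset.card_erase_add_one hx
    have e3 : wt D (B.erase g) + wt D {g} = wt D B := by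
      rw [← Finset.sdiff_singleton_eq_erase]
      exact wt_sdiff D (by simpa using hg)
    have e4 : 2 ≤ wt D {g', h'} := by
      refine le_trans ?_ (card_le_wt D _)
      rw [Finset.card_pair hg'h]
    have e5 : 1 ≤ wt D {g} := by
      refine le_trans ?_ (card_le_wt D _)
      simp
    omega
  · intro X' hX' hx'
    have s1 := h.fix x c hX' hx'
    have s2 := s1.remove hg (d, none) (by
      intro a ha
      rw [hctl a (hX' ha) (hx' a ha)]
      simp [ev]) (by simp) (by simp) (by simp)
    refine s2.removeMany {g', h'} hsub ?_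
    intro j hj
    rw [Finset.mem_insert, Finset.mem_singleton] at hj
    rcases hj with rfl | rfl
    · rcases h1 with h1 | h1
      · left; exact sub_const_none (subx_none h1)
      · right; exact sub_const_none (subx_none h1)
    · rcases h2 with h2 | h2
      · left; exact subg_none (subx_other h2)
      · right; exact subg_none (subx_other h2)

/-- Fix the variable `x`, which makes `g` constant, where the inputs of the gate `h'` are `x`
and `g`, and the gate `e` has the input `h'`. -/
theorem next_B (h : Cert D (box D Z z) T B p q r) (hd : Disjoint T Z) {x : V} (hx : x ∈ T)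
    {g h' e : Fin k} (hg : g ∈ B) (hh' : h' ∈ B) (he : e ∈ B) (hgh : h' ≠ g)
    (heg : e ≠ g) (heh : e ≠ h') {c d : Bool}
    (hctl : ∀ a ∈ box D Z z, a (Sum.inl x) = c → a (Sum.inr g) = d)
    (h1 : In p q h' (Sum.inl x)) (h2 : In p q h' (Sum.inr g)) (h3 : In p q e (Sum.inr h')) :
    Next D Z z T B := by
  classical
  refine next_of_fix hd hx c (T' := T.erase x) (B' := (((B.erase g).erase h').erase e)) ?_
    subset_rfl ?_ ?_
  · exact lt_of_le_of_lt ((Finset.erase_subset _ _).trans (Finset.erase_subset _ _))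
      (Finset.erase_ssubset hg)
  · have e0 : ∀ (C : Finset (Fin k)) (i : Fin k), i ∈ C → wt D (C.erase i) + 1 ≤ wt D C := by
      intro C i hi
      have e3 : wt D (C.erase i) + wt D {i} = wt D C := by
        rw [← Finset.sdiff_singleton_eq_erase]
        exact wt_sdiff D (by simpa using hi)
      have e5 : 1 ≤ wt D {i} := by
        refine le_trans ?_ (card_le_wt D _)
        simp
      omega
    have e1 := e0 B g hg
    have e2 := e0 (B.erase g) h' (Finset.mem_erase.mpr ⟨hgh, hh'⟩)
    have e3 := e0 ((B.erase g).erase h') e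
      (Finset.mem_erase.mpr ⟨heh, Finset.mem_erase.mpr ⟨heg, he⟩⟩)
    have e2 := Finset.card_erase_add_one hx
    omega
  · intro X' hX' hx'
    have s1 := h.fix x c hX' hx'
    have s2 := s1.remove hg (d, none) (by
      intro a ha
      rw [hctl a (hX' ha) (hx' a ha)]
      simp [ev]) (by simp) (by simp) (by simp)
    have hboth : (sub (Sum.inr g) (d, none) (sub (Sum.inl x) (c, none) (p h'))).2 = none ∧
        (sub (Sum.inr g) (d, none) (sub (Sum.inl x) (c, none) (q h'))).2 = none := by
      have hne : (Sum.inl x : V ⊕ Fin k) ≠ Sum.inr g := by simp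
      rcases h1 with h1 | h1 <;> rcases h2 with h2 | h2
      · rw [h1] at h2
        simp at h2
      · exact ⟨sub_const_none (subx_none h1), subg_none (subx_other h2)⟩
      · exact ⟨subg_none (subx_other h2), sub_const_none (subx_none h1)⟩
      · rw [h1] at h2
        simp at h2
    have hh'' : h' ∈ B.erase g := Finset.mem_erase.mpr ⟨hgh, hh'⟩
    have s3 := s2.remove hh'' (D.fn h'
        (sub (Sum.inr g) (d, none) (sub (Sum.inl x) (c, none) (p h'))).1
        (sub (Sum.inr g) (d, none) (sub (Sum.inl x) (c, none) (q h'))).1, none) (by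
      intro a ha
      rw [s2.gate h' hh'' a ha, ev_none hboth.1, ev_none hboth.2]
      simp [ev]) (by simp) (by simp) (by simp)
    have he' : e ∈ (B.erase g).erase h' :=
      Finset.mem_erase.mpr ⟨heh, Finset.mem_erase.mpr ⟨heg, he⟩⟩
    obtain ⟨α, _, s4⟩ := s3.removeConst he' (by
      rcases h3 with h3 | h3
      · left
        apply subg_none
        rw [sub_of_ne]
        · exact subx_other h3
        · rw [subx_other h3]
          simpa using hgh
      · right
        apply subg_none
        rw [sub_of_ne]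
        · exact subx_other h3
        · rw [subx_other h3]
          simpa using hgh)
    exact ⟨_, _, _, s4⟩

/-- Fix the variable `y`, which makes `g` constant; `h'` has the input `g`, and no gate other
than `g` and `h'` has the input `x`. -/
theorem next_C (h : Cert D (box D Z z) T B p q r) (hd : Disjoint T Z) {x y : V} (hx : x ∈ T)
    (hy : y ∈ T) (hxy : x ≠ y)
    {g h' : Fin k} (hg : g ∈ B) (hh' : h' ∈ B) (hgh : h' ≠ g) {c d : Bool}
    (hctl : ∀ a ∈ box D Z z, a (Sum.inl y) = c → a (Sum.inr g) = d)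
    (h2 : In p q h' (Sum.inr g))
    (h3 : ∀ j ∈ B, j ≠ g → j ≠ h' → ¬ In p q j (Sum.inl x))
    (h4 : In p q h' (Sum.inl x) → ∀ j ∈ B, ¬ In p q j (Sum.inr h')) :
    Next D Z z T B := by
  classical
  refine next_of_fix hd hy c (T' := (T.erase y).erase x) (B' := (B.erase g).erase h') ?_
    (Finset.erase_subset _ _) ?_ ?_
  · exact lt_of_le_of_lt (Finset.erase_subset _ _) (Finset.erase_ssubset hg)
  · have e1 := wt_mono D ((Finset.erase_subset h' (B.erase g)).trans (Finset.erase_subset g B))
    have e2 := Finset.card_erase_add_one hy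
    have e3 := Finset.card_erase_add_one (Finset.mem_erase.mpr ⟨hxy, hx⟩ : x ∈ T.erase y)
    omega
  · intro X' hX' hx'
    have s1 := h.fix y c hX' hx'
    have s2 := s1.remove hg (d, none) (by
      intro a ha
      rw [hctl a (hX' ha) (hx' a ha)]
      simp [ev]) (by simp) (by simp) (by simp)
    have hh'' : h' ∈ B.erase g := Finset.mem_erase.mpr ⟨hgh, hh'⟩
    obtain ⟨α, hα, s3⟩ := s2.removeConst hh'' (by
      rcases h2 with h2 | h2
      · left; exact subg_none (subx_other h2)
      · right; exact subg_none (subx_other h2))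
    have hback : ∀ (A : Atom V k) (u : V ⊕ Fin k),
        (sub (Sum.inr g) (d, none) (sub (Sum.inl y) (c, none) A)).2 = some u →
        A.2 = some u := fun A u hu => (sub_const_some (sub_const_some hu).1).1
    have hno : ∀ j ∈ (B.erase g).erase h', ∀ A : Atom V k,
        (A.2 ≠ some (Sum.inl x)) → (In p q h' (Sum.inl x) → A.2 ≠ some (Sum.inr h')) →
        (sub (Sum.inr h') α (sub (Sum.inr g) (d, none) (sub (Sum.inl y) (c, none) A))).2 ≠
          some (Sum.inl x) := by
      intro j hj A hA hA' hcon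
      by_cases hA2 : (sub (Sum.inr g) (d, none) (sub (Sum.inl y) (c, none) A)).2 =
          some (Sum.inr h')
      · rw [sub_of_eq hA2] at hcon
        have h5 : In p q h' (Sum.inl x) := by
          rcases hα _ hcon with h5 | h5
          · left; exact hback _ _ h5
          · right; exact hback _ _ h5
        exact hA' h5 (hback _ _ hA2)
      · rw [sub_of_ne hA2] at hcon
        exact hA (hback _ _ hcon)
    refine ⟨_, _, _, s3.shrink x ?_ ?_⟩
    · intro j hj
      have hj1 := Finset.mem_erase.mp hj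
      have hj2 := Finset.mem_erase.mp hj1.2
      apply hno j hj
      · intro h5
        exact h3 j hj2.2 hj2.1 hj1.1 (Or.inl h5)
      · intro h5 h6
        exact h4 h5 j hj2.2 (Or.inl h6)
    · intro j hj
      have hj1 := Finset.mem_erase.mp hj
      have hj2 := Finset.mem_erase.mp hj1.2
      apply hno j hj
      · intro h5
        exact h3 j hj2.2 hj2.1 hj1.1 (Or.inr h5)
      · intro h5 h6
        exact h4 h5 j hj2.2 (Or.inr h6)

omit [DecidableEq V] in
theorem Cert.congr {X : Set (V ⊕ Fin k → Bool)} (h : Cert D X T B p q r)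
    {p' q' : Fin k → Atom V k} (hp : ∀ i ∈ B, p' i = p i) (hq : ∀ i ∈ B, q' i = q i) :
    Cert D X T B p' q' r where
  gate := fun i hi a ha => by rw [hp i hi, hq i hi]; exact h.gate i hi a ha
  pT := fun i hi v hv => by rw [hp i hi] at hv; exact h.pT i hi v hv
  qT := fun i hi v hv => by rw [hq i hi] at hv; exact h.qT i hi v hv
  pB := fun i hi v hv => by rw [hp i hi] at hv; exact h.pB i hi v hv
  qB := fun i hi v hv => by rw [hq i hi] at hv; exact h.qB i hi v hv
  rep := h.rep
  rB := h.rB

/-- Several gates with constant inputs that feed no gate can be removed without changing the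
inputs of the other gates. -/
theorem Cert.removeSinks {X : Set (V ⊕ Fin k → Bool)} (E : Finset (Fin k)) :
    ∀ {B : Finset (Fin k)} {r : Fin k → Atom V k},
    Cert D X T B p q r → E ⊆ B → (∀ i ∈ E, (p i).2 = none ∨ (q i).2 = none) →
    (∀ i ∈ E, ∀ j ∈ B, ¬ In p q j (Sum.inr i)) →
    ∃ r', Cert D X T (B \ E) p q r' := by
  induction E using Finset.induction_on with
  | empty =>
    intro B r h _ _ _
    exact ⟨r, by simpa using h⟩
  | @insert i E hiE ih =>
    intro B r h hE hc hs
    obtain ⟨α, _, h2⟩ := h.removeConst (hE (Finset.mem_insert_self i E))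
      (hc i (Finset.mem_insert_self i E))
    have h2' := h2.congr (p' := p) (q' := q) (by
      intro j hj
      rw [sub_of_ne]
      intro h5
      exact hs i (Finset.mem_insert_self i E) j (Finset.mem_of_mem_erase hj) (Or.inl h5)) (by
      intro j hj
      rw [sub_of_ne]
      intro h5
      exact hs i (Finset.mem_insert_self i E) j (Finset.mem_of_mem_erase hj) (Or.inr h5))
    have hE' : E ⊆ B.erase i := by
      intro j hj
      rw [Finset.mem_erase]
      refine ⟨?_, hE (Finset.mem_insert_of_mem hj)⟩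
      rintro rfl
      exact hiE hj
    obtain ⟨r', h3⟩ := ih h2' hE' (fun j hj => hc j (Finset.mem_insert_of_mem hj))
      (fun j hj l hl => hs j (Finset.mem_insert_of_mem hj) l (Finset.mem_of_mem_erase hl))
    refine ⟨r', ?_⟩
    rw [Finset.sdiff_insert, ← Finset.erase_sdiff_comm]
    exact h3

/-- All gates with the input `x` are `g₁` and `g₂`; they feed no gate, and their other inputs
are the variables `y₁` and `y₂`. -/
theorem next_D (h : Cert D (box D Z z) T B p q r) (hd : Disjoint T Z) {x y₁ y₂ : V}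
    (hx : x ∈ T) (hy₁ : y₁ ∈ T) (hy₂ : y₂ ∈ T) (hxy₁ : y₁ ≠ x) (hxy₂ : y₂ ≠ x)
    {g₁ g₂ : Fin k} (hg₁ : g₁ ∈ B) (hg₂ : g₂ ∈ B)
    (hs₁ : ∀ j ∈ B, ¬ In p q j (Sum.inr g₁)) (hs₂ : ∀ j ∈ B, ¬ In p q j (Sum.inr g₂))
    (h1 : In p q g₁ (Sum.inl y₁)) (h2 : In p q g₂ (Sum.inl y₂))
    (h3 : ∀ j ∈ B, j ≠ g₁ → j ≠ g₂ → ¬ In p q j (Sum.inl x)) :
    Next D Z z T B := by
  classical
  have hyZ₁ : y₁ ∉ Z := Finset.disjoint_left.mp hd hy₁
  have hyZ₂ : y₂ ∉ Z := Finset.disjoint_left.mp hd hy₂
  set Z' : Finset V := insert y₂ (insert y₁ Z) with hZ'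
  set z' : V → Bool := fun v => if v = y₁ ∨ v = y₂ then false else z v with hz'
  have hX' : box D Z' z' ⊆ box D Z z := by
    rintro a ⟨ha1, ha2⟩
    refine ⟨ha1, fun v hv => ?_⟩
    rw [ha2 v (Finset.mem_insert_of_mem (Finset.mem_insert_of_mem hv))]
    rw [hz']
    simp only
    rw [if_neg]
    rintro (rfl | rfl)
    · exact hyZ₁ hv
    · exact hyZ₂ hv
  have s1 := h.fix y₁ false hX' (by
    rintro a ⟨ha1, ha2⟩
    rw [ha2 y₁ (Finset.mem_insert_of_mem (Finset.mem_insert_self _ _))]
    simp [hz'])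
  have s2 := s1.fix y₂ false subset_rfl (by
    rintro a ⟨ha1, ha2⟩
    rw [ha2 y₂ (Finset.mem_insert_self _ _)]
    simp [hz'])
  have hback : ∀ (A : Atom V k) (u : V ⊕ Fin k),
      (sub (Sum.inl y₂) (false, none) (sub (Sum.inl y₁) (false, none) A)).2 = some u →
      A.2 = some u := fun A u hu => (sub_const_some (sub_const_some hu).1).1
  have hnone : ∀ (A : Atom V k), (A.2 = some (Sum.inl y₁) ∨ A.2 = some (Sum.inl y₂)) →
      (sub (Sum.inl y₂) (false, none) (sub (Sum.inl y₁) (false, none) A)).2 = none := by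
    intro A hA
    by_contra hcon
    obtain ⟨u, hu⟩ := Option.ne_none_iff_exists'.mp hcon
    obtain ⟨e1, e2⟩ := sub_const_some hu
    obtain ⟨e3, e4⟩ := sub_const_some e1
    rcases hA with hA | hA
    · rw [e3] at hA
      exact e4 (Option.some_injective _ hA)
    · rw [e3] at hA
      exact e2 (Option.some_injective _ hA)
  obtain ⟨r', s3⟩ := s2.removeSinks {g₁, g₂} (by
    intro j hj
    rw [Finset.mem_insert, Finset.mem_singleton] at hj
    rcases hj with rfl | rfl <;> assumption) (by
    intro j hj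
    rw [Finset.mem_insert, Finset.mem_singleton] at hj
    rcases hj with rfl | rfl
    · rcases h1 with h1 | h1
      · left; exact hnone _ (Or.inl h1)
      · right; exact hnone _ (Or.inl h1)
    · rcases h2 with h2 | h2
      · left; exact hnone _ (Or.inr h2)
      · right; exact hnone _ (Or.inr h2)) (by
    intro j hj l hl hcon
    rw [Finset.mem_insert, Finset.mem_singleton] at hj
    have hcon' : In p q l (Sum.inr j) := by
      rcases hcon with hcon | hcon
      · left; exact hback _ _ hcon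
      · right; exact hback _ _ hcon
    rcases hj with rfl | rfl
    · exact hs₁ l hl hcon'
    · exact hs₂ l hl hcon')
  have s4 := s3.shrink x (by
    intro j hj hcon
    rw [Finset.mem_sdiff, Finset.mem_insert, Finset.mem_singleton, not_or] at hj
    exact h3 j hj.1 hj.2.1 hj.2.2 (Or.inl (hback _ _ hcon))) (by
    intro j hj hcon
    rw [Finset.mem_sdiff, Finset.mem_insert, Finset.mem_singleton, not_or] at hj
    exact h3 j hj.1 hj.2.1 hj.2.2 (Or.inr (hback _ _ hcon)))
  refine ⟨Z', z', _, _, _, _, _, s4, ?_, ?_, ?_, ?_, ?_, ?_⟩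
  · rw [Finset.disjoint_left]
    intro v hv
    rw [Finset.mem_erase, Finset.mem_erase, Finset.mem_erase] at hv
    rw [hZ', Finset.mem_insert, Finset.mem_insert]
    rintro (h5 | h5 | h5)
    · exact hv.2.1 h5
    · exact hv.2.2.1 h5
    · exact Finset.disjoint_left.mp hd hv.2.2.2 h5
  · exact (Finset.subset_insert _ _).trans (Finset.subset_insert _ _)
  · intro v hv
    rw [hz']
    simp only
    rw [if_neg]
    rintro (rfl | rfl)
    · exact hyZ₁ hv
    · exact hyZ₂ hv
  · calc (Z' \ Z).card ≤ ({y₂, y₁} : Finset V).card := by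
          apply Finset.card_le_card
          intro v hv
          rw [hZ', Finset.mem_sdiff, Finset.mem_insert, Finset.mem_insert] at hv
          rw [Finset.mem_insert, Finset.mem_singleton]
          tauto
      _ ≤ 2 := Finset.card_le_two
  · apply Finset.card_lt_card
    rw [Finset.ssubset_iff_subset_ne]
    refine ⟨Finset.sdiff_subset, ?_⟩
    intro h5
    have : g₁ ∈ B \ {g₁, g₂} := by rw [h5]; exact hg₁
    simp at this
  · have e1 := wt_mono D (Finset.sdiff_subset : B \ {g₁, g₂} ⊆ B)
    by_cases hy : y₁ = y₂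
    · subst hy
      have e2 := Finset.card_erase_add_one hy₁
      have e3 : ((T.erase y₁).erase y₁) = T.erase y₁ := by
        apply Finset.erase_eq_of_notMem
        simp
      have e4 := Finset.card_erase_add_one (Finset.mem_erase.mpr ⟨hxy₁.symm, hx⟩ : x ∈ T.erase y₁)
      rw [e3]
      have e5 : Z'.card = Z.card + 1 := by
        rw [hZ', Finset.insert_eq_of_mem (Finset.mem_insert_self _ _),
          Finset.card_insert_of_notMem hyZ₁]
      omega
    · have e2 := Finset.card_erase_add_one hy₁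
      have hy' : y₂ ∈ T.erase y₁ := Finset.mem_erase.mpr ⟨fun h => hy h.symm, hy₂⟩
      have e3 := Finset.card_erase_add_one hy'
      have e4 := Finset.card_erase_add_one (Finset.mem_erase.mpr ⟨hxy₂.symm,
        Finset.mem_erase.mpr ⟨hxy₁.symm, hx⟩⟩ : x ∈ (T.erase y₁).erase y₂)
      have e5 : Z'.card ≤ Z.card + 2 := by
        rw [hZ']
        refine (Finset.card_insert_le _ _).trans ?_
        have := Finset.card_insert_le y₁ Z
        omega
      omega

theorem fn_cases (φ : Bool → Bool → Bool) (h1 : ¬ IsXor φ) (h2 : ¬ ∀ a b b', φ a b = φ a b')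
    (h3 : ¬ ∀ a a' b, φ a b = φ a' b) :
    (∃ c d, ∀ b, φ c b = d) ∧ (∃ c d, ∀ a, φ a c = d) := by
  revert φ; decide

omit [DecidableEq V] in
/-- A gate that is a function of one of its inputs is an alias of it, or a constant. -/
theorem exists_alias (g : Bool → Bool) (A : Atom V k) : ∃ α : Atom V k,
    (∀ u, α.2 = some u → A.2 = some u) ∧ ∀ a, g (ev A a) = ev α a := by
  obtain ⟨s, hs | hs⟩ := unary_cases g
  · exact ⟨(s, none), by simp, fun a => by rw [hs]; simp [ev]⟩
  · refine ⟨(xor s A.1, A.2), fun u hu => hu, fun a => ?_⟩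
    rw [hs]
    simp [ev]

/-- One step of the elimination is always possible. -/
theorem Cert.next (h : Cert D (box D Z z) T B p q r) (hd : Disjoint T Z) (hB : B.Nonempty) :
    Next D Z z T B := by
  classical
  by_contra hN
  have A1 : ∀ i ∈ B, (p i).2 ≠ none := by
    intro i hi hc
    obtain ⟨α, _, h2⟩ := h.removeConst hi (Or.inl hc)
    exact hN (next_of_same hd (Finset.erase_ssubset hi) h2)
  have A2 : ∀ i ∈ B, (q i).2 ≠ none := by
    intro i hi hc
    obtain ⟨α, _, h2⟩ := h.removeConst hi (Or.inr hc)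
    exact hN (next_of_same hd (Finset.erase_ssubset hi) h2)
  have A3 : ∀ i ∈ B, (p i).2 ≠ (q i).2 := by
    intro i hi hc
    obtain ⟨u, hu⟩ := Option.ne_none_iff_exists'.mp (A1 i hi)
    have hu' : (q i).2 = some u := by rw [← hc, hu]
    obtain ⟨α, h1, h2⟩ := exists_alias
      (fun b => D.fn i b (xor (xor (q i).1 (p i).1) b)) (p i)
    refine hN (next_alias h hd hi α (fun w hw => Or.inl (h1 w hw)) ?_)
    intro a ha
    rw [h.gate i hi a ha, ← h2, ev_some hu, ev_some hu']
    congr 1
    cases (q i).1 <;> cases (p i).1 <;> cases a u <;> rfl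
  have A4 : ∀ i ∈ B, ¬ ∀ a b b', D.fn i a b = D.fn i a b' := by
    intro i hi hc
    obtain ⟨α, h1, h2⟩ := exists_alias (fun b => D.fn i b false) (p i)
    refine hN (next_alias h hd hi α (fun w hw => Or.inl (h1 w hw)) ?_)
    intro a ha
    rw [h.gate i hi a ha, ← h2, hc _ _ false]
  have A5 : ∀ i ∈ B, ¬ ∀ a a' b, D.fn i a b = D.fn i a' b := by
    intro i hi hc
    obtain ⟨α, h1, h2⟩ := exists_alias (fun b => D.fn i false b) (q i)
    refine hN (next_alias h hd hi α (fun w hw => Or.inr (h1 w hw)) ?_)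
    intro a ha
    rw [h.gate i hi a ha, ← h2, hc _ false]
  have H : ∀ x, ∀ E ⊆ B, (∀ i ∈ E, In p q i (Sum.inl x)) → wt D E ≤ 2 := by
    intro x E hE hEx
    by_contra hcon
    exact hN (next_heavy h hd hE hEx (by omega))
  have X1 : ∀ i ∈ B, ∀ x, In p q i (Sum.inl x) → ¬ IsXor (D.fn i) := by
    intro i hi x hx hcon
    have h1 := H x {i} (by simpa using hi) (by simpa using hx)
    simp [wt, fnCost, hcon] at h1
  have ctl : ∀ g ∈ B, ∀ x, In p q g (Sum.inl x) →
      ∃ c d, ∀ a ∈ box D Z z, a (Sum.inl x) = c → a (Sum.inr g) = d := by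
    intro g hg x hx
    obtain ⟨⟨c, d, hcd⟩, ⟨c', d', hcd'⟩⟩ := fn_cases _ (X1 g hg x hx) (A4 g hg) (A5 g hg)
    rcases hx with hx | hx
    · refine ⟨xor (p g).1 c, d, ?_⟩
      intro a ha hax
      rw [h.gate g hg a ha, ev_some hx, hax]
      rw [show xor (p g).1 (xor (p g).1 c) = c by cases (p g).1 <;> cases c <;> rfl]
      exact hcd _
    · refine ⟨xor (q g).1 c', d', ?_⟩
      intro a ha hax
      rw [h.gate g hg a ha, ev_some hx, hax]
      rw [show xor (q g).1 (xor (q g).1 c') = c' by cases (q g).1 <;> cases c' <;> rfl]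
      exact hcd' _
  have InT : ∀ g ∈ B, ∀ x, In p q g (Sum.inl x) → x ∈ T := by
    intro g hg x hx
    rcases hx with hx | hx
    · exact h.pT g hg x hx
    · exact h.qT g hg x hx
  have InB : ∀ g ∈ B, ∀ j, In p q g (Sum.inr j) → j ∈ B ∧ j < g := by
    intro g hg x hx
    rcases hx with hx | hx
    · exact h.pB g hg x hx
    · exact h.qB g hg x hx
  -- a gate whose inputs are two formula variables feeds no gate
  have h3 : ∀ g ∈ B, ∀ x y, x ≠ y → In p q g (Sum.inl x) → In p q g (Sum.inl y) →
      ∀ h' ∈ B, ¬ In p q h' (Sum.inr g) := by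
    intro g hg x y hxy hgx hgy h' hh' hh'g
    have hgh : g < h' := (InB h' hh' g hh'g).2
    obtain ⟨c, d, hcx⟩ := ctl g hg x hgx
    obtain ⟨c', d', hcy⟩ := ctl g hg y hgy
    have hx := InT g hg x hgx
    have hy := InT g hg y hgy
    have hA : ∀ g' ∈ B, g' ≠ g → g' ≠ h' → ¬ In p q g' (Sum.inl x) := by
      intro g' hg' h1 h2 h3
      exact hN (next_A h hd hx hg hg' hh' h1 hgh.ne' h2 hcx h3 hh'g)
    by_cases hB1 : In p q h' (Sum.inl x) ∧ ∃ e ∈ B, In p q e (Sum.inr h')
    · obtain ⟨h1, e, he, heh⟩ := hB1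
      have hlt := (InB e he h' heh).2
      exact hN (next_B h hd hx hg hh' he hgh.ne' (hgh.trans hlt).ne' hlt.ne' hcx h1 hh'g heh)
    · refine hN (next_C h hd hx hy hxy hg hh' hgh.ne' hcy hh'g hA ?_)
      intro h1 j hj h2
      exact hB1 ⟨h1, j, hj, h2⟩
  have hall : ∀ i : Fin k, i ∈ B → ∃ x y, (p i).2 = some (Sum.inl x) ∧
      (q i).2 = some (Sum.inl y) ∧ x ≠ y := by
    intro i
    induction i using WellFoundedLT.induction with
    | ind i ih =>
      intro hi
      obtain ⟨u, hu⟩ := Option.ne_none_iff_exists'.mp (A1 i hi)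
      obtain ⟨w, hw⟩ := Option.ne_none_iff_exists'.mp (A2 i hi)
      have hno : ∀ j, ¬ In p q i (Sum.inr j) := by
        intro j hj
        obtain ⟨hjB, hji⟩ := InB i hi j hj
        obtain ⟨x, y, hx, hy, hxy⟩ := ih j hji hjB
        exact h3 j hjB x y hxy (Or.inl hx) (Or.inr hy) i hi hj
      rcases u with x | j
      · rcases w with y | j
        · refine ⟨x, y, hu, hw, ?_⟩
          rintro rfl
          exact A3 i hi (by rw [hu, hw])
        · exact absurd (Or.inr hw) (hno j)
      · exact absurd (Or.inl hu) (hno j)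
  obtain ⟨g₁, hg₁⟩ := hB
  obtain ⟨x, y₁, hx, hy₁, hxy₁⟩ := hall g₁ hg₁
  have hsink : ∀ g ∈ B, ∀ j ∈ B, ¬ In p q j (Sum.inr g) := by
    intro g hg j hj
    obtain ⟨x, y, hx, hy, hxy⟩ := hall g hg
    exact h3 g hg x y hxy (Or.inl hx) (Or.inr hy) j hj
  -- the gates with the input `x`
  have hg₂ : ∃ g₂ ∈ B, In p q g₂ (Sum.inl x) ∧
      ∀ j ∈ B, j ≠ g₁ → j ≠ g₂ → ¬ In p q j (Sum.inl x) := by
    by_cases h4 : ∃ g₂ ∈ B, g₂ ≠ g₁ ∧ In p q g₂ (Sum.inl x)
    · obtain ⟨g₂, hg₂, h5, h6⟩ := h4
      refine ⟨g₂, hg₂, h6, ?_⟩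
      intro j hj h7 h8 h9
      have h10 := H x {g₁, g₂, j} (by
        intro l hl
        simp only [Finset.mem_insert, Finset.mem_singleton] at hl
        rcases hl with rfl | rfl | rfl <;> assumption) (by
        intro l hl
        simp only [Finset.mem_insert, Finset.mem_singleton] at hl
        rcases hl with rfl | rfl | rfl
        · exact Or.inl hx
        · exact h6
        · exact h9)
      have h11 := card_le_wt D {g₁, g₂, j}
      rw [Finset.card_eq_three.mpr ⟨g₁, g₂, j, h5.symm, h7.symm, h8.symm, rfl⟩] at h11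
      omega
    · refine ⟨g₁, hg₁, Or.inl hx, ?_⟩
      intro j hj h5 _ h6
      exact h4 ⟨j, hj, h5, h6⟩
  obtain ⟨g₂, hg₂, hg₂x, hD⟩ := hg₂
  obtain ⟨x', y', hx', hy', hxy'⟩ := hall g₂ hg₂
  have hy₂ : ∃ y₂, y₂ ≠ x ∧ In p q g₂ (Sum.inl y₂) := by
    rcases hg₂x with h5 | h5
    · rw [h5] at hx'
      have : x = x' := by simpa using hx'
      exact ⟨y', by rw [this]; exact hxy'.symm, Or.inr hy'⟩
    · rw [h5] at hy'
      have : x = y' := by simpa using hy'
      exact ⟨x', by rw [this]; exact hxy', Or.inl hx'⟩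
  obtain ⟨y₂, hy₂x, hy₂⟩ := hy₂
  exact hN (next_D h hd (InT g₁ hg₁ x (Or.inl hx)) (InT g₁ hg₁ y₁ (Or.inr hy₁))
    (InT g₂ hg₂ y₂ hy₂) hxy₁.symm hy₂x hg₁ hg₂ (hsink g₁ hg₁) (hsink g₂ hg₂)
    (Or.inr hy₁) hy₂ hD)

end Pool.Agent.MP_e81270_lc
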